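import Pool.Agent.Lib.MP_004b1b_co.DL.Defs

/-!
# Basic facts on arcs

`t = (q, a, b)`, `ρ = dsq q a = dsq q b`.  For `a.1 ≤ x ≤ b.1` one has `(x - q.1)^2 ≤ ρ` (with `<` inside, and on the
open lower half also at the ends).  A point on the half circle of `t` with abscissa `x` is `(x, af t x)`.
-/

set_option autoImplicit false

namespace Pool.Agent.Lib.MP_004b1b_co.DL

open Finset

theorem af_cont (t : Tr) : Continuous (af t) := by
  unfold af
  split_ifs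
  · exact continuous_const.add (continuous_const.sub ((continuous_id.sub continuous_const).pow 2)).sqrt
  · exact continuous_const.sub (continuous_const.sub ((continuous_id.sub continuous_const).pow 2)).sqrt

theorem af_l {P : Finset Pt} {t : Tr} (h : IsArc P t.1 t.2.1 t.2.2) : af t t.2.1.1 = t.2.1.2 := by
  have e : dsq t.1 t.2.1 - (t.2.1.1 - t.1.1) ^ 2 = (t.1.2 - t.2.1.2) ^ 2 := by
    unfold dsq
    ring
  unfold af
  rw [e, Real.sqrt_sq_eq_abs]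
  split_ifs with h1
  · rw [abs_of_nonpos (by linarith)]
    ring
  · rw [abs_of_nonneg (by linarith)]
    ring

theorem af_r {P : Finset Pt} {t : Tr} (h : IsArc P t.1 t.2.1 t.2.2) : af t t.2.2.1 = t.2.2.2 := by
  have e : dsq t.1 t.2.1 - (t.2.2.1 - t.1.1) ^ 2 = (t.1.2 - t.2.2.2) ^ 2 := by
    rw [h.2.2.1]
    unfold dsq
    ring
  have hh : t.1.2 ≤ t.2.1.2 ↔ t.1.2 ≤ t.2.2.2 := h.2.2.2.1
  unfold af
  rw [e, Real.sqrt_sq_eq_abs]
  split_ifs with h1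
  · have h2 := hh.1 h1
    rw [abs_of_nonpos (by linarith)]
    ring
  · have h2 : ¬ t.1.2 ≤ t.2.2.2 := fun h3 => h1 (hh.2 h3)
    rw [abs_of_nonneg (by linarith)]
    ring

/-- a point on the half circle lies on the graph -/
theorem af_eq {t : Tr} {z : Pt} (h1 : dsq t.1 z = dsq t.1 t.2.1) (h2 : t.1.2 ≤ z.2 ↔ t.1.2 ≤ t.2.1.2) :
    af t z.1 = z.2 := by
  have e : dsq t.1 t.2.1 - (z.1 - t.1.1) ^ 2 = (t.1.2 - z.2) ^ 2 := by
    rw [← h1]
    unfold dsq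
    ring
  unfold af
  rw [e, Real.sqrt_sq_eq_abs]
  split_ifs with h3
  · have h4 := h2.2 h3
    rw [abs_of_nonpos (by linarith)]
    ring
  · have h4 : ¬ t.1.2 ≤ z.2 := fun h5 => h3 (h2.1 h5)
    rw [abs_of_nonneg (by linarith)]
    ring

/-- interior points of the arc: on the circle, on the same half, not on the horizontal line through the centre -/
theorem af_in {P : Finset Pt} {t : Tr} (h : IsArc P t.1 t.2.1 t.2.2) {x : ℝ} (h1 : t.2.1.1 < x)
    (h2 : x < t.2.2.1) :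
    dsq t.1 (x, af t x) = dsq t.1 t.2.1 ∧ (t.1.2 ≤ af t x ↔ t.1.2 ≤ t.2.1.2) ∧ t.1.2 ≠ af t x := by
  have hρ : (x - t.1.1) ^ 2 < dsq t.1 t.2.1 := by
    rcases le_total t.1.1 x with h3 | h3
    · rw [h.2.2.1]
      unfold dsq
      nlinarith [sq_nonneg (t.1.2 - t.2.2.2)]
    · unfold dsq
      nlinarith [sq_nonneg (t.1.2 - t.2.1.2)]
  have hr : 0 < √(dsq t.1 t.2.1 - (x - t.1.1) ^ 2) := Real.sqrt_pos.2 (by linarith)
  have hr2 : √(dsq t.1 t.2.1 - (x - t.1.1) ^ 2) ^ 2 = dsq t.1 t.2.1 - (x - t.1.1) ^ 2 :=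
    Real.sq_sqrt (by linarith)
  have e : ∀ y : ℝ, dsq t.1 (x, y) = (x - t.1.1) ^ 2 + (y - t.1.2) ^ 2 := by
    intro y
    unfold dsq
    ring
  rw [e]
  unfold af
  split_ifs with h3
  · refine ⟨?_, ?_, ?_⟩
    · rw [add_sub_cancel_left, hr2]
      ring
    · exact ⟨fun _ => h3, fun _ => by linarith⟩
    · intro h4
      linarith
  · refine ⟨?_, ?_, ?_⟩
    · have : (t.1.2 - √(dsq t.1 t.2.1 - (x - t.1.1) ^ 2) - t.1.2) ^ 2 =
          √(dsq t.1 t.2.1 - (x - t.1.1) ^ 2) ^ 2 := by ring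
      rw [this, hr2]
      ring
    · exact ⟨fun h4 => absurd h4 (by linarith), fun h4 => absurd h4 h3⟩
    · intro h4
      linarith

/-- no point of `P` in the interior of an arc -/
theorem arc_noV {P : Finset Pt} {t : Tr} (h : IsArc P t.1 t.2.1 t.2.2) {v : Pt} (hv : v ∈ P)
    (h1 : t.2.1.1 < v.1) (h2 : v.1 < t.2.2.1) : af t v.1 ≠ v.2 := by
  intro h3
  obtain ⟨i1, i2, _⟩ := af_in h h1 h2
  rw [h3] at i1 i2
  exact h.2.2.2.2.2 v hv i1 i2 h1 h2

/-- two arcs with the same centre and a common interior point are equal.  Radius and half are equal by `af_in`; if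
`a.1 < c.1` then `c` is between `a` and `b`; so `a.1 = c.1` and `a = c` by `af_l`, `af_eq`; in the same way `b = d`. -/
theorem arc_uniq {P : Finset Pt} {s t : Tr} (hs : IsArc P s.1 s.2.1 s.2.2)
    (ht : IsArc P t.1 t.2.1 t.2.2) (hc : s.1 = t.1) {x : ℝ} (h1 : s.2.1.1 < x) (h2 : x < s.2.2.1)
    (h3 : t.2.1.1 < x) (h4 : x < t.2.2.1) (h5 : af s x = af t x) : s = t := by
  obtain ⟨i1, i2, _⟩ := af_in hs h1 h2
  obtain ⟨j1, j2, _⟩ := af_in ht h3 h4
  rw [← h5, ← hc] at j1 j2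
  have hρ : dsq s.1 t.2.1 = dsq s.1 s.2.1 := j1.symm.trans i1
  have hhalf : s.1.2 ≤ t.2.1.2 ↔ s.1.2 ≤ s.2.1.2 := j2.symm.trans i2
  have hsb : dsq s.1 s.2.1 = dsq s.1 s.2.2 := hs.2.2.1
  have htb : dsq s.1 t.2.1 = dsq s.1 t.2.2 := by rw [hc]; exact ht.2.2.1
  have hsh : s.1.2 ≤ s.2.1.2 ↔ s.1.2 ≤ s.2.2.2 := hs.2.2.2.1
  have hth : s.1.2 ≤ t.2.1.2 ↔ s.1.2 ≤ t.2.2.2 := by rw [hc]; exact ht.2.2.2.1
  have noS := hs.2.2.2.2.2
  have noT := ht.2.2.2.2.2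
  rw [← hc] at noT
  have ha : s.2.1.1 = t.2.1.1 := by
    rcases lt_trichotomy s.2.1.1 t.2.1.1 with h | h | h
    · exact (noS t.2.1 ht.1 hρ hhalf h (h3.trans h2)).elim
    · exact h
    · exact (noT s.2.1 hs.1 hρ.symm hhalf.symm h (h1.trans h4)).elim
  have hb : s.2.2.1 = t.2.2.1 := by
    rcases lt_trichotomy s.2.2.1 t.2.2.1 with h | h | h
    · exact (noT s.2.2 hs.2.1 (hsb.symm.trans hρ.symm) (hsh.symm.trans hhalf.symm)
        (h3.trans h2) h).elim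
    · exact h
    · exact (noS t.2.2 ht.2.1 (htb.symm.trans hρ) (hth.symm.trans hhalf) (h1.trans h4) h).elim
  have ha2 : s.2.1.2 = t.2.1.2 := by
    have e1 : af s t.2.1.1 = t.2.1.2 := af_eq hρ hhalf
    rw [← e1, ← ha]
    exact (af_l hs).symm
  have hb2 : s.2.2.2 = t.2.2.2 := by
    have e1 : af s t.2.2.1 = t.2.2.2 := af_eq (htb.symm.trans hρ) (hth.symm.trans hhalf)
    rw [← e1, ← hb]
    exact (af_r hs).symm
  exact Prod.ext hc (Prod.ext (Prod.ext ha ha2) (Prod.ext hb hb2))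

/-- crossing arcs have different centres -/
theorem Xr_ne {P : Finset Pt} {s t : Tr} (hs : IsArc P s.1 s.2.1 s.2.2)
    (ht : IsArc P t.1 t.2.1 t.2.2) (h : Xr s t) : s.1 ≠ t.1 := by
  intro hc
  obtain ⟨hne, x, h1, h2, h3, h4, h5⟩ := h
  exact hne (arc_uniq hs ht hc h1 h2 h3 h4 h5)

end Pool.Agent.Lib.MP_004b1b_co.DL
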