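import Pool.Agent.Lib.MP_004b1b_co.DL.Defs

/-!
# A curve between two curves with the same left end

`f`, `g`, `h` are the functions of three arcs; the arcs of `f` and `g` start at `v` and are consecutive there,
the arc of `h` starts at `w` and is defined to the left of `x1`, strictly between `f` and `g`.
`hR`: no vertex strictly between `f` and `g` over `(v.1, x1)`; `w` is not on `f`, `g` (interior);
`hv`: `v` is not in the interior of the arc of `h`.  Then `w = v`.
-/

set_option autoImplicit false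

namespace Pool.Agent.Lib.MP_004b1b_co.DL

open Finset

private theorem bet_right {f g : ℝ → ℝ} (hf : Continuous f) (hg : Continuous g) {a b : ℝ} (hab : a < b)
    (h : ∀ x, a < x → x < b → f x ≤ g x) : f a ≤ g a := by
  by_contra hc
  push Not at hc
  have hopen : IsOpen {x | g x < f x} := isOpen_lt hg hf
  obtain ⟨e, he, hball⟩ := Metric.isOpen_iff.1 hopen a hc
  have hm : 0 < min e (b - a) := lt_min he (by linarith)
  have h1 := hball (show a + min e (b - a) / 2 ∈ Metric.ball a e by
    rw [Metric.mem_ball, Real.dist_eq]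
    have : a + min e (b - a) / 2 - a = min e (b - a) / 2 := by ring
    rw [this, abs_of_pos (by linarith)]
    have := min_le_left e (b - a)
    linarith)
  have h2 := h (a + min e (b - a) / 2) (by linarith) (by
    have := min_le_right e (b - a)
    linarith)
  have h3 : g (a + min e (b - a) / 2) < f (a + min e (b - a) / 2) := h1
  linarith

private theorem bet_left {f g : ℝ → ℝ} (hf : Continuous f) (hg : Continuous g) {a b : ℝ} (hab : a < b)
    (h : ∀ x, a < x → x < b → f x ≤ g x) : f b ≤ g b := by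
  by_contra hc
  push Not at hc
  have hopen : IsOpen {x | g x < f x} := isOpen_lt hg hf
  obtain ⟨e, he, hball⟩ := Metric.isOpen_iff.1 hopen b hc
  have hm : 0 < min e (b - a) := lt_min he (by linarith)
  have h1 := hball (show b - min e (b - a) / 2 ∈ Metric.ball b e by
    rw [Metric.mem_ball, Real.dist_eq]
    have : b - min e (b - a) / 2 - b = - (min e (b - a) / 2) := by ring
    rw [this, abs_neg, abs_of_pos (by linarith)]
    have := min_le_left e (b - a)
    linarith)
  have h2 := h (b - min e (b - a) / 2) (by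
    have := min_le_right e (b - a)
    linarith) (by linarith)
  have h3 : g (b - min e (b - a) / 2) < f (b - min e (b - a) / 2) := h1
  linarith

theorem bet_le {f g : ℝ → ℝ} (hf : Continuous f) (hg : Continuous g) {x0 x1 : ℝ} (h01 : x0 < x1)
    (h : ∀ x, x0 < x → x < x1 → f x < g x) : f x0 ≤ g x0 ∧ f x1 ≤ g x1 :=
  ⟨bet_right hf hg h01 fun x h0 h1 => (h x h0 h1).le, bet_left hf hg h01 fun x h0 h1 => (h x h0 h1).le⟩

theorem bet {f g h : ℝ → ℝ} (hf : Continuous f) (hg : Continuous g) (hh : Continuous h)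
    {v w : Pt} {x1 : ℝ} (hvx : v.1 < x1) (hwx : w.1 < x1)
    (hfv : f v.1 = v.2) (hgv : g v.1 = v.2) (hhw : h w.1 = w.2)
    (hb : ∀ x, v.1 < x → w.1 < x → x < x1 → f x < h x ∧ h x < g x)
    (hR : v.1 < w.1 → ¬ (f w.1 < w.2 ∧ w.2 < g w.1))
    (hwf : v.1 < w.1 → f w.1 ≠ w.2) (hwg : v.1 < w.1 → g w.1 ≠ w.2)
    (hv : w.1 < v.1 → h v.1 ≠ v.2) : w = v := by
  rcases lt_or_ge v.1 w.1 with hvw | hvw
  · exfalso
    have h1 : f w.1 ≤ h w.1 :=
      bet_right hf hh hwx fun x h0 h1 => (hb x (hvw.trans h0) h0 h1).1.le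
    have h2 : h w.1 ≤ g w.1 :=
      bet_right hh hg hwx fun x h0 h1 => (hb x (hvw.trans h0) h0 h1).2.le
    rw [hhw] at h1 h2
    exact hR hvw ⟨lt_of_le_of_ne h1 (hwf hvw), lt_of_le_of_ne h2 (fun e => hwg hvw e.symm)⟩
  · have h1 : f v.1 ≤ h v.1 :=
      bet_right hf hh hvx fun x h0 h1 => (hb x h0 (lt_of_le_of_lt hvw h0) h1).1.le
    have h2 : h v.1 ≤ g v.1 :=
      bet_right hh hg hvx fun x h0 h1 => (hb x h0 (lt_of_le_of_lt hvw h0) h1).2.le
    have h3 : h v.1 = v.2 := by
      rw [hfv] at h1
      rw [hgv] at h2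
      exact le_antisymm h2 h1
    rcases lt_or_eq_of_le hvw with h4 | h4
    · exact absurd h3 (hv h4)
    · refine Prod.ext h4 ?_
      rw [← hhw, h4, h3]

/-- two continuous functions without common value on an open interval keep their order there -/
theorem bet_sign {f g : ℝ → ℝ} (hf : Continuous f) (hg : Continuous g) {x0 x1 : ℝ}
    (h : ∀ x, x0 < x → x < x1 → f x ≠ g x) {y : ℝ} (hy0 : x0 < y) (hy1 : y ≤ x1) (hlt : f y < g y) :
    ∀ x, x0 < x → x < x1 → f x < g x := by
  intro x hx0 hx1
  by_contra hc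
  push Not at hc
  have hc' : g x < f x := lt_of_le_of_ne hc (fun e => h x hx0 hx1 e.symm)
  rcases lt_trichotomy x y with hxy | hxy | hxy
  · -- zero of g - f in (x, y)
    have hcont : ContinuousOn (fun t => g t - f t) (Set.Icc x y) := (hg.sub hf).continuousOn
    have hmem : (0 : ℝ) ∈ Set.Ioo (g x - f x) (g y - f y) := ⟨by linarith, by linarith⟩
    obtain ⟨t, ht, ht0⟩ := intermediate_value_Ioo hxy.le hcont hmem
    have ht0' : g t - f t = 0 := ht0
    exact h t (hx0.trans ht.1) (lt_of_lt_of_le ht.2 hy1) (by linarith)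
  · rw [hxy] at hc'
    linarith
  · have hcont : ContinuousOn (fun t => f t - g t) (Set.Icc y x) := (hf.sub hg).continuousOn
    have hmem : (0 : ℝ) ∈ Set.Ioo (f y - g y) (f x - g x) := ⟨by linarith, by linarith⟩
    obtain ⟨t, ht, ht0⟩ := intermediate_value_Ioo hxy.le hcont hmem
    have ht0' : f t - g t = 0 := ht0
    exact h t (hy0.trans ht.1) (ht.2.trans hx1) (by linarith)

end Pool.Agent.Lib.MP_004b1b_co.DL
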