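import Pool.Agent.Lib.MP_004b1b_co.DL.PM
import Pool.Agent.Lib.MP_004b1b_co.DL.Arc

/-!
# Planarity for arcs with crossings

`B' = {t ∈ B | t crosses no element of B}` is a plane system (`planar`), and `B \ B'` injects into the crossing pairs.
-/

set_option autoImplicit false

namespace Pool.Agent.Lib.MP_004b1b_co.DL

open Finset

theorem px (P Q V : Finset Pt) (hV : V ⊆ P) (B : Finset Tr) (hB : B ⊆ arcs P Q)
    (hBV : ∀ t ∈ B, t.2.1 ∈ V ∧ t.2.2 ∈ V)
    (hs : ∀ s ∈ B, ∀ t ∈ B, s.2.1 = t.2.1 → s.2.2 = t.2.2 → s = t)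
    (W : Finset (Tr × Tr)) (hW : ∀ s ∈ B, ∀ t ∈ B, Xr s t → (s, t) ∈ W) :
    B.card ≤ 4 * V.card + W.card := by
  classical
  have harc : ∀ t ∈ B, IsArc P t.1 t.2.1 t.2.2 := by
    intro t ht
    have h1 := hB ht
    unfold arcs at h1
    exact (Finset.mem_filter.1 h1).2
  let B1 := B.filter (fun t => ∀ s ∈ B, ¬ Xr t s)
  let B2 := B.filter (fun t => ¬ ∀ s ∈ B, ¬ Xr t s)
  have hsum : B1.card + B2.card = B.card := Finset.card_filter_add_card_filter_not _
  have hB1 : B1.card ≤ 4 * V.card := by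
    have hsub : ∀ t ∈ B1, t ∈ B := fun t ht => (Finset.mem_filter.1 ht).1
    refine planar (A := B1) (V := V) (l := fun t : Tr => t.2.1) (r := fun t : Tr => t.2.2) (f := af) ?_
    refine ⟨?_, ?_, ?_, ?_, ?_, ?_, ?_, ?_, ?_⟩
    · exact fun t _ => af_cont t
    · exact fun t ht => (harc t (hsub t ht)).2.2.2.2.1
    · exact fun t ht => af_l (harc t (hsub t ht))
    · exact fun t ht => af_r (harc t (hsub t ht))
    · exact fun t ht => (hBV t (hsub t ht)).1
    · exact fun t ht => (hBV t (hsub t ht)).2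
    · exact fun t ht v hv h1 h2 => arc_noV (harc t (hsub t ht)) (hV hv) h1 h2
    · intro s hs' t ht hst x h1 h2 h3 h4 h5
      exact (Finset.mem_filter.1 hs').2 t (hsub t ht) ⟨hst, x, h1, h2, h3, h4, h5⟩
    · exact fun s hs' t ht h1 h2 => hs s (hsub s hs') t (hsub t ht) h1 h2
  have hB2 : B2.card ≤ W.card := by
    have hex : ∀ t : Tr, ∃ s : Tr, t ∈ B2 → s ∈ B ∧ Xr t s := by
      intro t
      by_cases ht : t ∈ B2
      · have h1 := (Finset.mem_filter.1 ht).2
        push Not at h1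
        obtain ⟨s, hs1, hs2⟩ := h1
        exact ⟨s, fun _ => ⟨hs1, hs2⟩⟩
      · exact ⟨t, fun h => absurd h ht⟩
    choose g hg using hex
    refine Finset.card_le_card_of_injOn (fun t => (t, g t)) ?_ ?_
    · intro t ht
      have h1 : t ∈ B2 := ht
      exact hW t (Finset.mem_filter.1 h1).1 (g t) (hg t h1).1 (hg t h1).2
    · intro s _ t _ hst
      exact (Prod.mk.inj hst).1
  omega

end Pool.Agent.Lib.MP_004b1b_co.DL
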