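import Pool.Agent.Lib.MP_004b1b_co.DL.Circ

/-!
# All crossings: at most `2 (|Q| D)^2` ordered pairs

For a crossing pair `(s, t)` choose the abscissa `x` and put `z = (x, af s x)`.  The map
`(s, t) ↦ ((s.1, dsq s.1 s.2.1), (t.1, dsq t.1 t.2.1), decide (0 ≤ cr s.1 t.1 z))` is injective: by `circ2` the point `z`
is determined (centres different by `Xr_ne`), and then `s`, `t` by `arc_uniq`.  The values lie in
`(Q.sigma (pin P)) × (Q.sigma (pin P)) × Bool`.
-/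

set_option autoImplicit false

namespace Pool.Agent.Lib.MP_004b1b_co.DL

open Finset

private theorem xf_pin {P : Finset Pt} {t : Tr} (h : IsArc P t.1 t.2.1 t.2.2) :
    dsq t.1 t.2.1 ∈ pin P t.1 := by
  classical
  obtain ⟨ha, hb, hd, -, hlt, -⟩ := h
  unfold pin
  refine Finset.mem_image.2 ⟨t.2.1, Finset.mem_erase.2 ⟨?_, ha⟩, rfl⟩
  intro he
  have h0 : dsq t.1 t.2.1 = 0 := by rw [he]; simp [dsq]
  rw [h0] at hd
  have h1 : (t.1.1 - t.2.2.1) ^ 2 + (t.1.2 - t.2.2.2) ^ 2 = 0 := hd.symm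
  have h2 : t.1.1 - t.2.2.1 = 0 := by nlinarith [sq_nonneg (t.1.1 - t.2.2.1), sq_nonneg (t.1.2 - t.2.2.2)]
  rw [he] at hlt
  linarith

private theorem xf_arc {P Q : Finset Pt} {t : Tr} (h : t ∈ arcs P Q) :
    t.1 ∈ Q ∧ IsArc P t.1 t.2.1 t.2.2 := by
  classical
  unfold arcs at h
  rw [Finset.mem_filter] at h
  exact ⟨(Finset.mem_product.1 h.1).1, h.2⟩

/-- the chosen abscissa -/
private noncomputable def xfx (p : Tr × Tr) : ℝ := by
  classical exact if h : Xr p.1 p.2 then h.2.choose else 0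

private theorem xfx_spec {p : Tr × Tr} (h : Xr p.1 p.2) :
    p.1.2.1.1 < xfx p ∧ xfx p < p.1.2.2.1 ∧ p.2.2.1.1 < xfx p ∧ xfx p < p.2.2.2.1 ∧
      af p.1 (xfx p) = af p.2 (xfx p) := by
  unfold xfx
  rw [dif_pos h]
  exact h.2.choose_spec

theorem cross4 (P Q : Finset Pt) (D : ℕ) (hD : ∀ q ∈ Q, (pin P q).card ≤ D)
    (E : Finset Tr) (hE : E ⊆ arcs P Q) (W : Finset (Tr × Tr)) (hW : W ⊆ E ×ˢ E)
    (hX : ∀ x ∈ W, Xr x.1 x.2) : W.card ≤ 2 * (Q.card * D) ^ 2 := by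
  classical
  set S : Finset (Σ _ : Pt, ℝ) := Q.sigma (fun q => pin P q) with hS
  have hScard : S.card ≤ Q.card * D := by
    rw [hS, Finset.card_sigma]
    calc ∑ q ∈ Q, (pin P q).card ≤ ∑ _q ∈ Q, D := Finset.sum_le_sum hD
      _ = Q.card * D := by rw [Finset.sum_const, smul_eq_mul]
  let φ : Tr × Tr → (Σ _ : Pt, ℝ) × (Σ _ : Pt, ℝ) × Bool := fun p =>
    (⟨p.1.1, dsq p.1.1 p.1.2.1⟩, ⟨p.2.1, dsq p.2.1 p.2.2.1⟩,
      decide (0 ≤ cr p.1.1 p.2.1 (xfx p, af p.1 (xfx p))))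
  have hmem : ∀ p ∈ W, p.1 ∈ arcs P Q ∧ p.2 ∈ arcs P Q := by
    intro p hp
    have h1 := Finset.mem_product.1 (hW hp)
    exact ⟨hE h1.1, hE h1.2⟩
  have hmaps : ∀ p ∈ W, φ p ∈ S ×ˢ S ×ˢ (Finset.univ : Finset Bool) := by
    intro p hp
    obtain ⟨h1, h2⟩ := hmem p hp
    have a1 := xf_arc h1
    have a2 := xf_arc h2
    refine Finset.mem_product.2 ⟨Finset.mem_sigma.2 ⟨a1.1, xf_pin a1.2⟩,
      Finset.mem_product.2 ⟨Finset.mem_sigma.2 ⟨a2.1, xf_pin a2.2⟩, Finset.mem_univ _⟩⟩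
  have hinj : Set.InjOn φ (W : Set (Tr × Tr)) := by
    intro p hp p' hp' he
    obtain ⟨h1, h2⟩ := hmem p hp
    obtain ⟨h1', h2'⟩ := hmem p' hp'
    have a1 := (xf_arc h1).2
    have a2 := (xf_arc h2).2
    have a1' := (xf_arc h1').2
    have a2' := (xf_arc h2').2
    have x := hX p hp
    have x' := hX p' hp'
    obtain ⟨l1, r1, l2, r2, e⟩ := xfx_spec x
    obtain ⟨l1', r1', l2', r2', e'⟩ := xfx_spec x'
    have he1 := congrArg Prod.fst he
    have he2 := congrArg (fun w => w.2.1) he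
    have he3 := congrArg (fun w => w.2.2) he
    simp only [φ] at he1 he2 he3
    have c1 : p.1.1 = p'.1.1 := congrArg Sigma.fst he1
    have c2 : p.2.1 = p'.2.1 := congrArg Sigma.fst he2
    have d1 : dsq p.1.1 p.1.2.1 = dsq p'.1.1 p'.1.2.1 := congrArg (fun w : (Σ _ : Pt, ℝ) => w.2) he1
    have d2 : dsq p.2.1 p.2.2.1 = dsq p'.2.1 p'.2.2.1 := congrArg (fun w : (Σ _ : Pt, ℝ) => w.2) he2
    have i1 := (af_in a1 l1 r1).1
    have i2 := (af_in a2 l2 r2).1
    have i1' := (af_in a1' l1' r1').1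
    have i2' := (af_in a2' l2' r2').1
    have hne := Xr_ne a1 a2 x
    rw [← e] at i2
    rw [← e'] at i2'
    have i1'' : dsq p.1.1 (xfx p', af p'.1 (xfx p')) = dsq p.1.1 p.1.2.1 := by
      rw [d1, c1]; exact i1'
    have i2'' : dsq p.2.1 (xfx p', af p'.1 (xfx p')) = dsq p.2.1 p.2.2.1 := by
      rw [d2, c2]; exact i2'
    have hz : (xfx p, af p.1 (xfx p)) = (xfx p', af p'.1 (xfx p')) := by
      rcases circ2 hne (i1.trans i1''.symm) (i2.trans i2''.symm) with h | ⟨h, h0⟩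
      · exact h
      · exfalso
        rw [decide_eq_decide, ← c1, ← c2] at he3
        rcases lt_or_ge (cr p.1.1 p.2.1 (xfx p, af p.1 (xfx p))) 0 with hl | hg
        · have : 0 ≤ cr p.1.1 p.2.1 (xfx p', af p'.1 (xfx p')) := by linarith
          exact absurd (he3.2 this) (not_le.2 hl)
        · have h3 := he3.1 hg
          exact h0 (by linarith)
    have hx : xfx p = xfx p' := congrArg Prod.fst hz
    have hf : af p.1 (xfx p) = af p'.1 (xfx p') := congrArg Prod.snd hz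
    have q1 : p.1 = p'.1 := by
      refine arc_uniq a1 a1' c1 l1 r1 (hx ▸ l1') (hx ▸ r1') ?_
      rw [hf, hx]
    have q2 : p.2 = p'.2 := by
      refine arc_uniq a2 a2' c2 l2 r2 (hx ▸ l2') (hx ▸ r2') ?_
      rw [← e, hf, e', hx]
    exact Prod.ext q1 q2
  have h1 := Finset.card_le_card_of_injOn φ hmaps hinj
  rw [Finset.card_product, Finset.card_product, Finset.card_univ, Fintype.card_bool] at h1
  calc W.card ≤ S.card * (S.card * 2) := h1
    _ ≤ (Q.card * D) * ((Q.card * D) * 2) := by gcongr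
    _ = 2 * (Q.card * D) ^ 2 := by ring

end Pool.Agent.Lib.MP_004b1b_co.DL
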