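import Pool.Agent.Lib.MP_004b1b_co.DL.Circ

/-!
# Crossings of arcs with a common end: at most `4 |Q|^2 D` ordered pairs

Let `(s, t)` cross in `z = (x, af s x)` and have the end `v` in common (`v = s.2.1` or `v = s.2.2`).  Both `v` and `z` are
on the circle of `s` and on the circle of `t`, `z ≠ v` (the abscissa of `z` is strictly inside), so by `circ2`
`cr s.1 t.1 z + cr s.1 t.1 v = 0`, nonzero.  By `arc_hit` the arc `s` meets the line `s.1 t.1` in its interior.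
The map `(s, t) ↦ ((s.1, dsq s.1 s.2.1), t.1, decide (s.1.2 ≤ s.2.1.2), decide (v = s.2.1 is an end of t))` is injective:
`s` is determined by `hit_uniq`; then `v`; then `z` (for two such `z`, `z'`: `cr z = - cr v = cr z'`, so `circ2` gives
`z = z'`); then `t` by `arc_uniq` (same centre, `z` interior).
-/

set_option autoImplicit false

namespace Pool.Agent.Lib.MP_004b1b_co.DL

open Finset

private lemma XT_data {P : Finset Pt} {s t : Tr} (hs : IsArc P s.1 s.2.1 s.2.2)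
    (ht : IsArc P t.1 t.2.1 t.2.2) (hX : Xr s t) {v : Pt} (hv : v = s.2.1 ∨ v = s.2.2)
    (hw : v = t.2.1 ∨ v = t.2.2) : ∃ x, s.2.1.1 < x ∧ x < s.2.2.1 ∧ t.2.1.1 < x ∧ x < t.2.2.1 ∧
      af s x = af t x ∧ dsq s.1 (x, af s x) = dsq s.1 v ∧ dsq t.1 (x, af s x) = dsq t.1 v ∧
      cr s.1 t.1 (x, af s x) + cr s.1 t.1 v = 0 ∧ cr s.1 t.1 (x, af s x) ≠ 0 ∧
      ∃ y, s.2.1.1 < y ∧ y < s.2.2.1 ∧ cr s.1 t.1 (y, af s y) = 0 := by
  have hne := Xr_ne hs ht hX
  obtain ⟨_, x, h1, h2, h3, h4, h5⟩ := hX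
  have e1 : dsq s.1 (x, af s x) = dsq s.1 v := by
    rw [(af_in hs h1 h2).1]
    rcases hv with hv | hv
    · rw [hv]
    · rw [hv]; exact hs.2.2.1
  have e2 : dsq t.1 (x, af s x) = dsq t.1 v := by
    rw [h5, (af_in ht h3 h4).1]
    rcases hw with hw | hw
    · rw [hw]
    · rw [hw]; exact ht.2.2.1
  have hz : ((x, af s x) : Pt) ≠ v := by
    intro h
    have : x = v.1 := congrArg Prod.fst h
    rcases hv with hv | hv
    · rw [hv] at this; linarith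
    · rw [hv] at this; linarith
  obtain ⟨h6, h7⟩ := (circ2 hne e1 e2).resolve_left hz
  refine ⟨x, h1, h2, h3, h4, h5, e1, e2, h6, h7, ?_⟩
  rcases hv with hv | hv
  · have hvz : ((v.1, af s v.1) : Pt) = v := by rw [hv, af_l hs]
    refine arc_hit hs (q' := t.1) (x0 := v.1) (x1 := x) (by rw [hv]) (by rw [hv]; exact h1) h2.le
      ?_ ?_
    · rw [hvz]; linarith
    · rw [hvz]; intro h; apply h7; linarith
  · have hvz : ((v.1, af s v.1) : Pt) = v := by rw [hv, af_r hs]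
    refine arc_hit hs (q' := t.1) (x0 := x) (x1 := v.1) h1.le (by rw [hv]; exact h2) (by rw [hv])
      ?_ h7
    rw [hvz]; exact h6

private lemma XT_arc {P Q : Finset Pt} {t : Tr} (h : t ∈ arcs P Q) :
    t.1 ∈ Q ∧ IsArc P t.1 t.2.1 t.2.2 := by
  classical
  unfold arcs at h
  rw [Finset.mem_filter, Finset.mem_product] at h
  exact ⟨h.1.1, h.2⟩

/-- the radius is in `pin`: the two ends are different, so one of them is not the centre; both have the same distance -/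
private lemma XT_pin {P : Finset Pt} {t : Tr} (h : IsArc P t.1 t.2.1 t.2.2) :
    dsq t.1 t.2.1 ∈ pin P t.1 := by
  classical
  unfold pin
  rw [Finset.mem_image]
  by_cases h0 : t.2.1 = t.1
  · refine ⟨t.2.2, Finset.mem_erase.mpr ⟨?_, h.2.1⟩, h.2.2.1.symm⟩
    intro h1
    have := h.2.2.2.2.1
    rw [h0, h1] at this
    exact lt_irrefl _ this
  · exact ⟨t.2.1, Finset.mem_erase.mpr ⟨h0, h.1⟩, rfl⟩

theorem cross3 (P Q : Finset Pt) (D : ℕ) (hD : ∀ q ∈ Q, (pin P q).card ≤ D)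
    (E : Finset Tr) (hE : E ⊆ arcs P Q) (W : Finset (Tr × Tr)) (hW : W ⊆ E ×ˢ E)
    (hX : ∀ x ∈ W, Xr x.1 x.2 ∧ Sh x.1 x.2) : W.card ≤ 4 * (Q.card ^ 2 * D) := by
  classical
  let F : Tr × Tr → (Σ _ : Pt, ℝ) × Pt × Bool × Bool := fun x =>
    (⟨x.1.1, dsq x.1.1 x.1.2.1⟩, x.2.1, decide (x.1.1.2 ≤ x.1.2.1.2),
      decide (x.1.2.1 = x.2.2.1 ∨ x.1.2.1 = x.2.2.2))
  have harc : ∀ x ∈ W, (x.1.1 ∈ Q ∧ IsArc P x.1.1 x.1.2.1 x.1.2.2) ∧
      (x.2.1 ∈ Q ∧ IsArc P x.2.1 x.2.2.1 x.2.2.2) := by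
    intro x hx
    have := Finset.mem_product.mp (hW hx)
    exact ⟨XT_arc (hE this.1), XT_arc (hE this.2)⟩
  have hmaps : ∀ x ∈ W, F x ∈ (Q.sigma fun q => pin P q) ×ˢ Q ×ˢ (Finset.univ : Finset Bool) ×ˢ
      (Finset.univ : Finset Bool) := by
    intro x hx
    obtain ⟨⟨h1, h2⟩, h3, h4⟩ := harc x hx
    simp only [F, Finset.mem_product, Finset.mem_sigma, Finset.mem_univ, and_true]
    exact ⟨⟨h1, XT_pin h2⟩, h3⟩
  have hinj : Set.InjOn F W := by
    rintro ⟨s, t⟩ hx ⟨s', t'⟩ hy hE'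
    obtain ⟨⟨-, hs⟩, -, ht⟩ := harc _ hx
    obtain ⟨⟨-, hs'⟩, -, ht'⟩ := harc _ hy
    obtain ⟨hX1, hS1⟩ := hX _ hx
    obtain ⟨hX2, hS2⟩ := hX _ hy
    dsimp only at hs ht hs' ht' hX1 hX2 hS1 hS2
    have c1 : s.1 = s'.1 := congrArg (fun z => z.1.1) hE'
    have c2 : dsq s.1 s.2.1 = dsq s'.1 s'.2.1 := congrArg (fun z => z.1.2) hE'
    have c3 : t.1 = t'.1 := congrArg (fun z => z.2.1) hE'
    have c4 : decide (s.1.2 ≤ s.2.1.2) = decide (s'.1.2 ≤ s'.2.1.2) :=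
      congrArg (fun z => z.2.2.1) hE'
    have c5 : decide (s.2.1 = t.2.1 ∨ s.2.1 = t.2.2) = decide (s'.2.1 = t'.2.1 ∨ s'.2.1 = t'.2.2) :=
      congrArg (fun z => z.2.2.2) hE'
    have c4' : s.1.2 ≤ s.2.1.2 ↔ s'.1.2 ≤ s'.2.1.2 := decide_eq_decide.mp c4
    have c5' : (s.2.1 = t.2.1 ∨ s.2.1 = t.2.2) ↔ (s'.2.1 = t'.2.1 ∨ s'.2.1 = t'.2.2) :=
      decide_eq_decide.mp c5
    have hne := Xr_ne hs ht hX1
    -- common ends
    have key : ∀ (s t : Tr), Sh s t → ∃ v, (v = s.2.1 ∨ v = s.2.2) ∧ (v = t.2.1 ∨ v = t.2.2) := by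
      intro s t h
      rcases h with h | h | h | h
      · exact ⟨s.2.1, Or.inl rfl, Or.inl h⟩
      · exact ⟨s.2.1, Or.inl rfl, Or.inr h⟩
      · exact ⟨s.2.2, Or.inr rfl, Or.inl h⟩
      · exact ⟨s.2.2, Or.inr rfl, Or.inr h⟩
    obtain ⟨v1, a1, a2⟩ := key s t hS1
    obtain ⟨v2, b1, b2⟩ := key s' t' hS2
    obtain ⟨_, -, -, -, -, -, -, -, -, -, y1, y2, y3, y4⟩ := XT_data hs ht hX1 a1 a2
    obtain ⟨_, -, -, -, -, -, -, -, -, -, z1, z2, z3, z4⟩ := XT_data hs' ht' hX2 b1 b2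
    have hss : s = s' := hit_uniq hs hs' c1 c2 c4' hne y2 y3 y4 z2 z3 (by rw [c3]; exact z4)
    subst hss
    have hv : ∃ v, (v = s.2.1 ∨ v = s.2.2) ∧ (v = t.2.1 ∨ v = t.2.2) ∧ (v = t'.2.1 ∨ v = t'.2.2) := by
      by_cases h : s.2.1 = t.2.1 ∨ s.2.1 = t.2.2
      · exact ⟨s.2.1, Or.inl rfl, h, c5'.mp h⟩
      · have h' := fun hc => h (c5'.mpr hc)
        refine ⟨s.2.2, Or.inr rfl, ?_, ?_⟩
        · rcases hS1 with g | g | g | g
          · exact absurd (Or.inl g) h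
          · exact absurd (Or.inr g) h
          · exact Or.inl g
          · exact Or.inr g
        · rcases hS2 with g | g | g | g
          · exact absurd (Or.inl g) h'
          · exact absurd (Or.inr g) h'
          · exact Or.inl g
          · exact Or.inr g
    obtain ⟨v, v1', v2', v3'⟩ := hv
    obtain ⟨x, i1, i2, i3, i4, i5, i6, i7, i8, i9, -⟩ := XT_data hs ht hX1 v1' v2'
    obtain ⟨x', j1, j2, j3, j4, j5, j6, j7, j8, j9, -⟩ := XT_data hs' ht' hX2 v1' v3'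
    rw [← c3] at j7 j8 j9
    have hzz : ((x, af s x) : Pt) = (x', af s x') := by
      rcases circ2 hne (i6.trans j6.symm) (i7.trans j7.symm) with h | ⟨h, h'⟩
      · exact h
      · exfalso
        apply i9
        linarith
    have hxx : x = x' := congrArg Prod.fst hzz
    subst hxx
    have htt : t = t' := arc_uniq ht ht' c3 i3 i4 j3 j4 (by rw [← i5, j5])
    subst htt
    rfl
  have h := Finset.card_le_card_of_injOn F hmaps hinj
  rw [Finset.card_product, Finset.card_product, Finset.card_product, Finset.card_sigma,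
    Finset.card_univ, Fintype.card_bool] at h
  have h2 : ∑ q ∈ Q, (pin P q).card ≤ Q.card * D := by
    calc ∑ q ∈ Q, (pin P q).card ≤ ∑ _q ∈ Q, D := Finset.sum_le_sum hD
      _ = Q.card * D := by rw [Finset.sum_const, smul_eq_mul]
  calc W.card ≤ (∑ q ∈ Q, (pin P q).card) * (Q.card * (2 * 2)) := h
    _ ≤ (Q.card * D) * (Q.card * (2 * 2)) := Nat.mul_le_mul_right _ h2
    _ = 4 * (Q.card ^ 2 * D) := by ring

end Pool.Agent.Lib.MP_004b1b_co.DL
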