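import Pool.Agent.Lib.MP_004b1b_co.DL.Samp
import Pool.Agent.Lib.MP_004b1b_co.DL.XF
import Pool.Agent.Lib.MP_004b1b_co.DL.XT
import Pool.Agent.Lib.MP_004b1b_co.DL.PX

/-!
# The core inequality

`core_samp`: `samp` with `α = ↥P`, `ι = ↥E`, `X3 = 4 m^2 D`, `X4 = 2 (m D)^2` (`cross3`, `cross4`, `px`).  Two arcs over the same
pair of ends do not cross (circles with different centres through `a`, `b` meet only there: `circ2`; or: a common
interior point would be a third common point), and `l i = r j`, `r i = l j` is impossible because of the abscissas.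
-/

set_option autoImplicit false

namespace Pool.Agent.Lib.MP_004b1b_co.DL

open Finset

/-- two arcs over the same pair of ends do not cross -/
private theorem cs_ends {P : Finset Pt} {s t : Tr} (hs : IsArc P s.1 s.2.1 s.2.2)
    (ht : IsArc P t.1 t.2.1 t.2.2) (h : Xr s t) (ha : s.2.1 = t.2.1) (hb : s.2.2 = t.2.2) :
    False := by
  have hq := Xr_ne hs ht h
  obtain ⟨_, x, h1, h2, h3, h4, h5⟩ := h
  have i1 := (af_in hs h1 h2).1
  have i2 := (af_in ht h3 h4).1
  rw [← h5, ← ha] at i2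
  have d1 : dsq s.1 s.2.1 = dsq s.1 s.2.2 := hs.2.2.1
  have d2 : dsq t.1 s.2.1 = dsq t.1 s.2.2 := by
    rw [ha, hb]
    exact ht.2.2.1
  have hab : s.2.1.1 < s.2.2.1 := hs.2.2.2.2.1
  rcases circ2 hq i1 i2 with e | ⟨e1, e2⟩
  · rw [← e] at h1
    exact lt_irrefl _ h1
  rcases circ2 hq (i1.trans d1) (i2.trans d2) with e | ⟨e3, e4⟩
  · rw [← e] at h2
    exact lt_irrefl _ h2
  rcases circ2 hq d1 d2 with e | ⟨e5, e6⟩
  · rw [e] at hab
    exact lt_irrefl _ hab
  apply e2
  linarith

theorem core_samp (P Q : Finset Pt) (D : ℕ) (hD : ∀ q ∈ Q, (pin P q).card ≤ D)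
    (E : Finset Tr) (hE : E ⊆ arcs P Q) (k s : ℕ) (hk : 1 ≤ k) (hs : 1 ≤ s)
    (hmul : ∀ (a b : Pt) (F : Finset Tr), F ⊆ E → (∀ t ∈ F, t.2.1 = a ∧ t.2.2 = b) → F.card ≤ k) :
    (E.card : ℝ) / (k * s) ≤ 4 * P.card + 4 * ((Q.card : ℝ) ^ 2 * D) / ((k : ℝ) ^ 2 * (s : ℝ) ^ 2) +
      2 * ((Q.card : ℝ) * D) ^ 2 / ((k : ℝ) ^ 2 * (s : ℝ) ^ 3) := by
  classical
  have harc : ∀ t ∈ E, IsArc P t.1 t.2.1 t.2.2 := by
    intro t ht
    have := hE ht
    unfold arcs at this
    rw [mem_filter] at this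
    exact this.2
  have hl : ∀ t : E, t.1.2.1 ∈ P := fun t => (harc t.1 t.2).1
  have hr : ∀ t : E, t.1.2.2 ∈ P := fun t => (harc t.1 t.2).2.1
  have hmem : ∀ (S : Finset E) (t : Tr), t ∈ S.map (Function.Embedding.subtype _) → t ∈ E := by
    intro S t ht
    rw [mem_map] at ht
    obtain ⟨u, _, rfl⟩ := ht
    exact u.2
  have key := samp (α := P) (ι := E) (fun t => ⟨t.1.2.1, hl t⟩) (fun t => ⟨t.1.2.2, hr t⟩)
    (fun t h => by
      have h1 := (harc t.1 t.2).2.2.2.2.1
      have h2 : t.1.2.1 = t.1.2.2 := congrArg Subtype.val h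
      rw [h2] at h1
      exact lt_irrefl _ h1) k s hk hs
    (fun a b => by
      have h1 := hmul a.1 b.1 ((univ.filter (fun i : E => (⟨i.1.2.1, hl i⟩ : P) = a ∧
        (⟨i.1.2.2, hr i⟩ : P) = b)).map (Function.Embedding.subtype _)) (hmem _)
        (fun t ht => by
          rw [mem_map] at ht
          obtain ⟨u, hu, rfl⟩ := ht
          rw [mem_filter] at hu
          exact ⟨congrArg Subtype.val hu.2.1, congrArg Subtype.val hu.2.2⟩)
      rwa [card_map] at h1)
    (fun i j => Xr i.1 j.1)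
    (fun i j hij => by
      refine ⟨fun h => cs_ends (harc i.1 i.2) (harc j.1 j.2) hij (congrArg Subtype.val h.1)
        (congrArg Subtype.val h.2), fun h => ?_⟩
      have h1 := (harc i.1 i.2).2.2.2.2.1
      have h2 := (harc j.1 j.2).2.2.2.2.1
      have h3 : i.1.2.1 = j.1.2.2 := congrArg Subtype.val h.1
      have h4 : i.1.2.2 = j.1.2.1 := congrArg Subtype.val h.2
      rw [h3, h4] at h1
      exact lt_irrefl _ (h1.trans h2))
    (fun V B hV hB => by
      have h1 := px P Q (V.map (Function.Embedding.subtype _))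
        (fun v hv => by
          rw [mem_map] at hv
          obtain ⟨u, _, rfl⟩ := hv
          exact u.2)
        (B.map (Function.Embedding.subtype _)) (fun t ht => hE (hmem B t ht))
        (fun t ht => by
          rw [mem_map] at ht
          obtain ⟨u, hu, rfl⟩ := ht
          obtain ⟨h1, h2⟩ := hV u hu
          exact ⟨mem_map.2 ⟨_, h1, rfl⟩, mem_map.2 ⟨_, h2, rfl⟩⟩)
        (fun s' hs' t' ht' e1 e2 => by
          rw [mem_map] at hs' ht'
          obtain ⟨u, hu, rfl⟩ := hs'
          obtain ⟨v, hv, rfl⟩ := ht'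
          exact congrArg Subtype.val (hB u hu v hv (Subtype.ext e1) (Subtype.ext e2)))
        (((B ×ˢ B).filter (fun x : E × E => Xr x.1.1 x.2.1)).map
          ((Function.Embedding.subtype _).prodMap (Function.Embedding.subtype _)))
        (fun s' hs' t' ht' hx => by
          rw [mem_map] at hs' ht' ⊢
          obtain ⟨u, hu, rfl⟩ := hs'
          obtain ⟨v, hv, rfl⟩ := ht'
          exact ⟨(u, v), mem_filter.2 ⟨mem_product.2 ⟨hu, hv⟩, hx⟩, rfl⟩)
      rwa [card_map, card_map, card_map] at h1)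
    (4 * (Q.card ^ 2 * D)) (2 * (Q.card * D) ^ 2)
    (by
      have h1 := cross3 P Q D hD E hE
        ((univ.filter (fun x : E × E => Xr x.1.1 x.2.1 ∧
          ((⟨x.1.1.2.1, hl x.1⟩ : P) = ⟨x.2.1.2.1, hl x.2⟩ ∨
            (⟨x.1.1.2.1, hl x.1⟩ : P) = ⟨x.2.1.2.2, hr x.2⟩ ∨
            (⟨x.1.1.2.2, hr x.1⟩ : P) = ⟨x.2.1.2.1, hl x.2⟩ ∨
            (⟨x.1.1.2.2, hr x.1⟩ : P) = ⟨x.2.1.2.2, hr x.2⟩))).map
          ((Function.Embedding.subtype _).prodMap (Function.Embedding.subtype _)))
        (fun y hy => by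
          rw [mem_map] at hy
          obtain ⟨u, _, rfl⟩ := hy
          exact mem_product.2 ⟨u.1.2, u.2.2⟩)
        (fun y hy => by
          rw [mem_map] at hy
          obtain ⟨u, hu, rfl⟩ := hy
          rw [mem_filter] at hu
          refine ⟨hu.2.1, ?_⟩
          rcases hu.2.2 with h | h | h | h
          · exact Or.inl (congrArg Subtype.val h)
          · exact Or.inr (Or.inl (congrArg Subtype.val h))
          · exact Or.inr (Or.inr (Or.inl (congrArg Subtype.val h)))
          · exact Or.inr (Or.inr (Or.inr (congrArg Subtype.val h))))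
      rwa [card_map] at h1)
    (by
      have h1 := cross4 P Q D hD E hE
        ((univ.filter (fun x : E × E => Xr x.1.1 x.2.1)).map
          ((Function.Embedding.subtype _).prodMap (Function.Embedding.subtype _)))
        (fun y hy => by
          rw [mem_map] at hy
          obtain ⟨u, _, rfl⟩ := hy
          exact mem_product.2 ⟨u.1.2, u.2.2⟩)
        (fun y hy => by
          rw [mem_map] at hy
          obtain ⟨u, hu, rfl⟩ := hy
          rw [mem_filter] at hu
          exact hu.2)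
      rwa [card_map] at h1)
  rw [Fintype.card_coe, Fintype.card_coe] at key
  push_cast at key
  exact key

end Pool.Agent.Lib.MP_004b1b_co.DL
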