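import Pool.Agent.Lib.MP_004b1b_co.DL.Arc

/-!
# Two circles, arcs meeting a line through the centre
-/

set_option autoImplicit false

namespace Pool.Agent.Lib.MP_004b1b_co.DL

open Finset

/-- position of `z` with respect to the line `q q'` -/
def cr (q q' z : Pt) : ℝ := (z.1 - q.1) * (q'.2 - q.2) - (z.2 - q.2) * (q'.1 - q.1)

/-- two points at the same distance from `q` and at the same distance from `q' ≠ q` are equal or mirror images.
`z - z'` is orthogonal to `q' - q` and to `z + z' - 2 q`; if `z ≠ z'` then `z + z' - 2 q` is parallel to `q' - q`. -/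
theorem circ2 {q q' z z' : Pt} (hq : q ≠ q') (h1 : dsq q z = dsq q z') (h2 : dsq q' z = dsq q' z') :
    z = z' ∨ (cr q q' z + cr q q' z' = 0 ∧ cr q q' z ≠ 0) := by
  have hu : (q'.1 - q.1) ^ 2 + (q'.2 - q.2) ^ 2 ≠ 0 := by
    intro h
    have h3 : q'.1 - q.1 = 0 := by nlinarith [sq_nonneg (q'.1 - q.1), sq_nonneg (q'.2 - q.2)]
    have h4 : q'.2 - q.2 = 0 := by nlinarith [sq_nonneg (q'.1 - q.1), sq_nonneg (q'.2 - q.2)]
    exact hq (Prod.ext (by linarith) (by linarith))
  unfold dsq at h1 h2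
  have e1 : (z.1 - z'.1) * (q'.1 - q.1) + (z.2 - z'.2) * (q'.2 - q.2) = 0 := by linarith
  have e2 : (z.1 - z'.1) * (z.1 + z'.1 - 2 * q.1) + (z.2 - z'.2) * (z.2 + z'.2 - 2 * q.2) = 0 := by
    linarith
  by_cases hz : z = z'
  · exact Or.inl hz
  right
  have hd : ¬ (z.1 - z'.1 = 0 ∧ z.2 - z'.2 = 0) := fun h =>
    hz (Prod.ext (by linarith [h.1]) (by linarith [h.2]))
  have hsum : cr q q' z + cr q q' z' = 0 := by
    have e3 : (z.1 - z'.1) * (cr q q' z + cr q q' z') = 0 := by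
      unfold cr
      linear_combination (q'.2 - q.2) * e2 - (z.2 + z'.2 - 2 * q.2) * e1
    have e4 : (z.2 - z'.2) * (cr q q' z + cr q q' z') = 0 := by
      unfold cr
      linear_combination (z.1 + z'.1 - 2 * q.1) * e1 - (q'.1 - q.1) * e2
    by_contra hne
    exact hd ⟨(mul_eq_zero.1 e3).resolve_right hne, (mul_eq_zero.1 e4).resolve_right hne⟩
  refine ⟨hsum, fun h0 => ?_⟩
  have h0' : cr q q' z' = 0 := by linarith
  have e5 : (z.1 - z'.1) * (q'.2 - q.2) - (z.2 - z'.2) * (q'.1 - q.1) = 0 := by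
    unfold cr at h0 h0'
    linarith
  have e6 : (z.1 - z'.1) * ((q'.1 - q.1) ^ 2 + (q'.2 - q.2) ^ 2) = 0 := by
    linear_combination (q'.1 - q.1) * e1 + (q'.2 - q.2) * e5
  have e7 : (z.2 - z'.2) * ((q'.1 - q.1) ^ 2 + (q'.2 - q.2) ^ 2) = 0 := by
    linear_combination (q'.2 - q.2) * e1 - (q'.1 - q.1) * e5
  exact hd ⟨(mul_eq_zero.1 e6).resolve_right hu, (mul_eq_zero.1 e7).resolve_right hu⟩

/-- an arc with centre `q`, two of whose points (one of them an end or both ends, `x0`, `x1` in the closed range) are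
strictly on different sides of the line `q q'`, meets this line in its interior (intermediate value theorem) -/
theorem arc_hit {P : Finset Pt} {t : Tr} (h : IsArc P t.1 t.2.1 t.2.2) {q' : Pt} {x0 x1 : ℝ}
    (h0 : t.2.1.1 ≤ x0) (h1 : x0 < x1) (h2 : x1 ≤ t.2.2.1)
    (hc : cr t.1 q' (x0, af t x0) + cr t.1 q' (x1, af t x1) = 0)
    (hne : cr t.1 q' (x0, af t x0) ≠ 0) :
    ∃ y, t.2.1.1 < y ∧ y < t.2.2.1 ∧ cr t.1 q' (y, af t y) = 0 := by
  have hcont : Continuous fun y : ℝ => cr t.1 q' (y, af t y) := by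
    unfold cr
    exact ((continuous_id.sub continuous_const).mul continuous_const).sub
      (((af_cont t).sub continuous_const).mul continuous_const)
  have hI := intermediate_value_uIcc (a := x0) (b := x1) hcont.continuousOn
  have h0mem : (0 : ℝ) ∈ Set.uIcc (cr t.1 q' (x0, af t x0)) (cr t.1 q' (x1, af t x1)) := by
    rw [Set.mem_uIcc]
    rcases le_total (cr t.1 q' (x0, af t x0)) 0 with h3 | h3
    · exact Or.inl ⟨h3, by linarith⟩
    · exact Or.inr ⟨by linarith, h3⟩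
  obtain ⟨y, hy, hy0⟩ := hI h0mem
  rw [Set.uIcc_of_le h1.le] at hy
  have hy0' : cr t.1 q' (y, af t y) = 0 := hy0
  have hne0 : x0 ≠ y := by
    rintro rfl
    exact hne hy0'
  have hne1 : y ≠ x1 := by
    rintro rfl
    rw [hy0', add_zero] at hc
    exact hne hc
  exact ⟨y, h0.trans_lt (lt_of_le_of_ne hy.1 hne0), (lt_of_le_of_ne hy.2 hne1).trans_le h2, hy0'⟩

/-- on a half circle at most one arc meets a line through the centre in its interior: the point of the arc on the line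
is `q + τ (q' - q)`, `τ^2 |q' - q|^2 = ρ`, and the sign of `τ` is determined by the half because the point is not on
the horizontal line (`af_in`); so the two arcs have a common interior point, `arc_uniq` -/
theorem hit_uniq {P : Finset Pt} {s t : Tr} (hs : IsArc P s.1 s.2.1 s.2.2)
    (ht : IsArc P t.1 t.2.1 t.2.2) (hc : s.1 = t.1) (hr : dsq s.1 s.2.1 = dsq t.1 t.2.1)
    (hh : s.1.2 ≤ s.2.1.2 ↔ t.1.2 ≤ t.2.1.2) {q' : Pt} (hq : s.1 ≠ q')
    {x y : ℝ} (h1 : s.2.1.1 < x) (h2 : x < s.2.2.1) (h3 : cr s.1 q' (x, af s x) = 0)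
    (h4 : t.2.1.1 < y) (h5 : y < t.2.2.1) (h6 : cr t.1 q' (y, af t y) = 0) : s = t := by
  obtain ⟨i1, i2, i3⟩ := af_in hs h1 h2
  obtain ⟨j1, j2, j3⟩ := af_in ht h4 h5
  have hρ : dsq s.1 (x, af s x) = dsq s.1 (y, af t y) := by
    rw [i1, hr, ← j1, hc]
  have hh2 : s.1.2 ≤ af s x ↔ s.1.2 ≤ af t y := by
    rw [i2, hh, ← j2, hc]
  rw [← hc] at h6 j3
  have hu2 : q'.2 - s.1.2 ≠ 0 := by
    intro h0
    unfold cr at h3
    rw [h0, mul_zero, zero_sub, neg_eq_zero] at h3
    rcases mul_eq_zero.1 h3 with h7 | h7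
    · exact i3 (by linarith)
    · exact hq (Prod.ext (by linarith) (by linarith))
  have hu : (q'.1 - s.1.1) ^ 2 + (q'.2 - s.1.2) ^ 2 ≠ 0 := by
    have : 0 < (q'.2 - s.1.2) ^ 2 := by positivity
    nlinarith [sq_nonneg (q'.1 - s.1.1)]
  unfold cr at h3 h6
  unfold dsq at hρ
  simp only at h3 h6 hρ
  have e1 : ((af s x - s.1.2) ^ 2 - (af t y - s.1.2) ^ 2) *
      ((q'.1 - s.1.1) ^ 2 + (q'.2 - s.1.2) ^ 2) = 0 := by
    linear_combination (q'.2 - s.1.2) ^ 2 * hρ -
      ((x - s.1.1) * (q'.2 - s.1.2) + (af s x - s.1.2) * (q'.1 - s.1.1)) * h3 +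
      ((y - s.1.1) * (q'.2 - s.1.2) + (af t y - s.1.2) * (q'.1 - s.1.1)) * h6
  have e2 := (mul_eq_zero.1 e1).resolve_right hu
  have e3 : (af s x - af t y) * (af s x - s.1.2 + (af t y - s.1.2)) = 0 := by
    linear_combination e2
  have e4 : af s x = af t y := by
    rcases mul_eq_zero.1 e3 with h7 | h7
    · linarith
    · exfalso
      by_cases h8 : s.1.2 ≤ af s x
      · have h9 := hh2.1 h8
        exact i3 (by linarith)
      · have h9 : ¬ s.1.2 ≤ af t y := fun h9 => h8 (hh2.2 h9)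
        linarith
  have e5 : x = y := by
    have e6 : (x - y) * (q'.2 - s.1.2) = 0 := by
      rw [← e4] at h6
      linear_combination h3 - h6
    have := (mul_eq_zero.1 e6).resolve_right hu2
    linarith
  subst e5
  exact arc_uniq hs ht hc h1 h2 h4 h5 e4

end Pool.Agent.Lib.MP_004b1b_co.DL
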