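import Mathlib

/-!
# Counting functions with prescribed values on a set

`{ω | ∀ j ∈ T, ω j = g j} = Fintype.piFinset (fun j => if j ∈ T then {g j} else univ)`, `Fintype.card_piFinset`,
`Finset.prod_ite`; the product is `k ^ (card of the complement of T)`.
-/

set_option autoImplicit false

namespace Pool.Agent.Lib.MP_004b1b_co.DL

open Finset

theorem cnt_fix {J : Type*} [Fintype J] [DecidableEq J] (k : ℕ) (T : Finset J) (g : J → Fin k) :
    (univ.filter (fun ω : J → Fin k => ∀ j ∈ T, ω j = g j)).card * k ^ T.card =
      k ^ Fintype.card J := by
  classical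
  have h1 : univ.filter (fun ω : J → Fin k => ∀ j ∈ T, ω j = g j) =
      Fintype.piFinset (fun j => if j ∈ T then ({g j} : Finset (Fin k)) else univ) := by
    ext ω
    simp only [mem_filter, mem_univ, true_and, Fintype.mem_piFinset]
    constructor
    · intro h j
      by_cases hj : j ∈ T
      · simp [hj, h j hj]
      · simp [hj]
    · intro h j hj
      have := h j
      simpa [hj] using this
  rw [h1, Fintype.card_piFinset]
  have h2 : ∀ j : J, (if j ∈ T then ({g j} : Finset (Fin k)) else univ).card =
      if j ∈ T then 1 else k := by
    intro j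
    by_cases hj : j ∈ T <;> simp [hj]
  rw [Finset.prod_congr rfl (fun j _ => h2 j), Finset.prod_ite]
  simp only [prod_const_one, one_mul, prod_const]
  have h3 : (univ.filter (fun j => j ∉ T)).card = Fintype.card J - T.card := by
    rw [← Finset.card_compl]
    congr 1
    ext j
    simp
  rw [h3, ← pow_add]
  congr 1
  have := Finset.card_le_univ T
  omega

end Pool.Agent.Lib.MP_004b1b_co.DL
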