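import Pool.Agent.Lib.MP_004b1b_co.DL.Circ

/-!
# `n ≤ 4 D^2`

Two points `p ≠ q` of `P`; `a ↦ (dsq p a, dsq q a, decide (0 ≤ cr p q a))` is injective on `P \ {p, q}` by `circ2`,
values in `pin P p × pin P q × Bool`; so `n - 2 ≤ 2 D^2`, and `1 ≤ D`.
-/

set_option autoImplicit false

namespace Pool.Agent.Lib.MP_004b1b_co.DL

open Finset

private lemma tri_pin {P : Finset Pt} {q a : Pt} (ha : a ∈ P) (hq : a ≠ q) : dsq q a ∈ pin P q := by
  classical
  unfold pin
  exact Finset.mem_image.2 ⟨a, Finset.mem_erase.2 ⟨hq, ha⟩, rfl⟩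

theorem tri (P : Finset Pt) (hn : 2 ≤ P.card) (D : ℕ) (hD : ∀ q ∈ P, (pin P q).card ≤ D) :
    1 ≤ D ∧ P.card ≤ 4 * D ^ 2 := by
  classical
  obtain ⟨p, hp, q, hq, hpq⟩ := Finset.one_lt_card.1 (by omega : 1 < P.card)
  have h1 : 1 ≤ D := by
    have h2 : 0 < (pin P p).card := Finset.card_pos.2 ⟨_, tri_pin hq hpq.symm⟩
    have := hD p hp
    omega
  refine ⟨h1, ?_⟩
  have h2 : ((P.erase p).erase q).card ≤ ((pin P p) ×ˢ (pin P q) ×ˢ (Finset.univ : Finset Bool)).card := by
    refine Finset.card_le_card_of_injOn (fun a => (dsq p a, dsq q a, decide (0 ≤ cr p q a))) ?_ ?_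
    · intro a ha
      rw [Finset.mem_coe, Finset.mem_erase, Finset.mem_erase] at ha
      rw [Finset.mem_coe, Finset.mem_product, Finset.mem_product]
      exact ⟨tri_pin ha.2.2 ha.2.1, tri_pin ha.2.2 ha.1, Finset.mem_univ _⟩
    · intro a _ a' _ h
      simp only [Prod.mk.injEq] at h
      obtain ⟨e1, e2, e3⟩ := h
      rcases circ2 hpq e1 e2 with h4 | ⟨h4, h5⟩
      · exact h4
      · exfalso
        rw [decide_eq_decide] at e3
        by_cases h6 : 0 ≤ cr p q a
        · have h7 := e3.1 h6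
          exact h5 (by linarith)
        · have h7 : ¬ 0 ≤ cr p q a' := fun h => h6 (e3.2 h)
          rw [not_le] at h6 h7
          linarith
  rw [Finset.card_product, Finset.card_product, Finset.card_univ, Fintype.card_bool] at h2
  have h3 : (pin P p).card * ((pin P q).card * 2) ≤ D * (D * 2) :=
    Nat.mul_le_mul (hD p hp) (Nat.mul_le_mul_right _ (hD q hq))
  have h4 : ((P.erase p).erase q).card = P.card - 1 - 1 := by
    rw [Finset.card_erase_of_mem (Finset.mem_erase.2 ⟨hpq.symm, hq⟩), Finset.card_erase_of_mem hp]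
  have h5 : D * (D * 2) = 2 * D ^ 2 := by ring
  have h6 : 1 ≤ D ^ 2 := Nat.one_le_pow _ _ h1
  omega

end Pool.Agent.Lib.MP_004b1b_co.DL
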