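import Pool.Agent.Lib.MP_004b1b_co.DL.CS
import Pool.Agent.Lib.MP_004b1b_co.DL.Tri

/-!
# The core inequality, arithmetic

`core`: if `m < 32 k` then `m n ≤ 32 k * 4 D^2`.  Otherwise `s = m / (32 k) ≥ 1`, `m / (64 k) < s ≤ m / (32 k)`, and
`8 n ≤ |E| / (k s) ≤ 4 n + 4 m^2 D 64^2 / m^2 + 2 m^2 D^2 64^3 k / m^3 = 4 n + 16384 D + 524288 k D^2 / m`.
If `n ≤ 8192 D` then `m n ≤ n^2 ≤ 8192^2 D^2`; otherwise `2 n ≤ 524288 k D^2 / m`.
-/

set_option autoImplicit false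

namespace Pool.Agent.Lib.MP_004b1b_co.DL

open Finset

private theorem core_arith (m n D k s e : ℝ) (hm : 0 < m) (hn : 0 ≤ n) (hD : 0 ≤ D) (hk : 1 ≤ k)
    (hs1 : 1 ≤ s) (hsu : 32 * k * s ≤ m) (hsl : m ≤ 64 * k * s) (he : m * n ≤ 4 * e)
    (key : e / (k * s) ≤ 4 * n + 4 * (m ^ 2 * D) / (k ^ 2 * s ^ 2) + 2 * (m * D) ^ 2 / (k ^ 2 * s ^ 3)) :
    4 * n * m ≤ 16384 * D * m + 524288 * k * D ^ 2 := by
  have hk0 : 0 < k := by linarith
  have hs0 : 0 < s := by linarith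
  have h1 : 8 * n ≤ e / (k * s) := by
    rw [le_div_iff₀ (mul_pos hk0 hs0)]
    have : 32 * k * s * n ≤ m * n := mul_le_mul_of_nonneg_right hsu hn
    nlinarith
  have h2 : 4 * (m ^ 2 * D) / (k ^ 2 * s ^ 2) ≤ 16384 * D := by
    rw [div_le_iff₀ (by positivity)]
    have h3 : m ^ 2 ≤ (64 * k * s) ^ 2 := pow_le_pow_left₀ hm.le hsl 2
    have h4 : m ^ 2 * D ≤ (64 * k * s) ^ 2 * D := mul_le_mul_of_nonneg_right h3 hD
    nlinarith
  have h3 : 2 * (m * D) ^ 2 / (k ^ 2 * s ^ 3) * m ≤ 524288 * k * D ^ 2 := by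
    rw [div_mul_eq_mul_div, div_le_iff₀ (by positivity)]
    have h4 : m ^ 3 ≤ (64 * k * s) ^ 3 := pow_le_pow_left₀ hm.le hsl 3
    have h5 : m ^ 3 * D ^ 2 ≤ (64 * k * s) ^ 3 * D ^ 2 := mul_le_mul_of_nonneg_right h4 (sq_nonneg D)
    have h6 : 2 * (m * D) ^ 2 * m = 2 * (m ^ 3 * D ^ 2) := by ring
    have h7 : 524288 * k * D ^ 2 * (k ^ 2 * s ^ 3) = 2 * ((64 * k * s) ^ 3 * D ^ 2) := by ring
    rw [h6, h7]
    linarith
  have h4 : 4 * n ≤ 16384 * D + 2 * (m * D) ^ 2 / (k ^ 2 * s ^ 3) := by linarith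
  have h5 : 4 * n * m ≤ (16384 * D + 2 * (m * D) ^ 2 / (k ^ 2 * s ^ 3)) * m :=
    mul_le_mul_of_nonneg_right h4 hm.le
  calc 4 * n * m ≤ (16384 * D + 2 * (m * D) ^ 2 / (k ^ 2 * s ^ 3)) * m := h5
    _ = 16384 * D * m + 2 * (m * D) ^ 2 / (k ^ 2 * s ^ 3) * m := by ring
    _ ≤ _ := by linarith

theorem core (P Q : Finset Pt) (hQ : Q ⊆ P) (hn : 2 ≤ P.card) (D : ℕ)
    (hD : ∀ q ∈ P, (pin P q).card ≤ D)
    (E : Finset Tr) (hE : E ⊆ arcs P Q) (k : ℕ) (hk : 1 ≤ k)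
    (hmul : ∀ (a b : Pt) (F : Finset Tr), F ⊆ E → (∀ t ∈ F, t.2.1 = a ∧ t.2.2 = b) → F.card ≤ k)
    (he : Q.card * P.card ≤ 4 * E.card) : Q.card * P.card ≤ 67108864 * k * D ^ 2 := by
  obtain ⟨hD1, hnD⟩ := tri P hn D hD
  have hkD : D ^ 2 ≤ k * D ^ 2 := by
    calc D ^ 2 = 1 * D ^ 2 := (one_mul _).symm
      _ ≤ k * D ^ 2 := Nat.mul_le_mul_right _ hk
  have hmn : Q.card ≤ P.card := Finset.card_le_card hQ
  rcases lt_or_ge Q.card (32 * k) with hlt | hge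
  · calc Q.card * P.card ≤ (32 * k) * (4 * D ^ 2) := Nat.mul_le_mul hlt.le hnD
      _ = 128 * (k * D ^ 2) := by ring
      _ ≤ 67108864 * (k * D ^ 2) := Nat.mul_le_mul_right _ (by norm_num)
      _ = 67108864 * k * D ^ 2 := by ring
  rcases le_or_gt P.card (8192 * D) with hnD2 | hnD2
  · calc Q.card * P.card ≤ P.card * P.card := Nat.mul_le_mul_right _ hmn
      _ ≤ (8192 * D) * (8192 * D) := Nat.mul_le_mul hnD2 hnD2
      _ = 67108864 * D ^ 2 := by ring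
      _ ≤ 67108864 * (k * D ^ 2) := Nat.mul_le_mul_left _ hkD
      _ = 67108864 * k * D ^ 2 := by ring
  have hk32 : 0 < 32 * k := by omega
  obtain ⟨s, hs⟩ : ∃ s, s = Q.card / (32 * k) := ⟨_, rfl⟩
  have hs1 : 1 ≤ s := by
    rw [hs]
    exact (Nat.one_le_div_iff hk32).2 hge
  have hsu : 32 * k * s ≤ Q.card := by
    rw [hs]
    exact Nat.mul_div_le _ _
  have hsl : Q.card ≤ 64 * k * s := by
    have h1 : Q.card < 32 * k * (s + 1) := by
      rw [hs]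
      exact Nat.lt_mul_div_succ _ hk32
    have h2 : 32 * k * (s + 1) ≤ 32 * k * (2 * s) := Nat.mul_le_mul_left _ (by omega)
    have h3 : 32 * k * (2 * s) = 64 * k * s := by ring
    omega
  have key := core_samp P Q D (fun q hq => hD q (hQ hq)) E hE k s hk hs1 hmul
  have hm : (0 : ℝ) < Q.card := by
    have : 0 < Q.card := by omega
    exact_mod_cast this
  have hfin := core_arith (Q.card : ℝ) P.card D k s E.card hm (by positivity) (by positivity)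
    (by exact_mod_cast hk) (by exact_mod_cast hs1) (by exact_mod_cast hsu) (by exact_mod_cast hsl)
    (by exact_mod_cast he) key
  have hfin2 : 4 * P.card * Q.card ≤ 16384 * D * Q.card + 524288 * k * D ^ 2 := by exact_mod_cast hfin
  have h5 : 16384 * D * Q.card ≤ 2 * P.card * Q.card := Nat.mul_le_mul_right _ (by omega)
  have h6 : 2 * P.card * Q.card ≤ 524288 * k * D ^ 2 := by
    have h7 : 4 * P.card * Q.card = 2 * P.card * Q.card + 2 * P.card * Q.card := by ring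
    omega
  have h8 : 2 * P.card * Q.card = 2 * (Q.card * P.card) := by ring
  have h9 : 524288 * k * D ^ 2 = 524288 * (k * D ^ 2) := by ring
  have h10 : 67108864 * k * D ^ 2 = 67108864 * (k * D ^ 2) := by ring
  rw [h8, h9] at h6
  rw [h10]
  omega

end Pool.Agent.Lib.MP_004b1b_co.DL
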