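import Mathlib

/-!
# MP_004b1b_co: lines through sets with few distinct distances, definitions

Points are pairs of reals.  An arc is a triple `(q, a, b)`: centre `q`, ends `a`, `b` in `P` on the same half
of a circle about `q` (the closed upper half or the open lower half), `a.1 < b.1`, no point of `P` between them on
that half circle.
-/

set_option autoImplicit false

namespace Pool.Agent.Lib.MP_004b1b_co.DL

open Finset

/-- the plane -/
abbrev Pt : Type := ℝ × ℝ

/-- a triple `(q, a, b)` -/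
abbrev Tr : Type := Pt × Pt × Pt

/-- squared distance -/
def dsq (p q : Pt) : ℝ := (p.1 - q.1) ^ 2 + (p.2 - q.2) ^ 2

/-- the squared distances from `q` to the other points of `P` -/
noncomputable def pin (P : Finset Pt) (q : Pt) : Finset ℝ := by
  classical exact (P.erase q).image (dsq q)

/-- the line `a x + b y = c` -/
def ln (a b c : ℝ) : Set Pt := {z | a * z.1 + b * z.2 = c}

/-- lines -/
def Ln (L : Set Pt) : Prop := ∃ a b c : ℝ, (a ≠ 0 ∨ b ≠ 0) ∧ L = ln a b c

/-- the perpendicular bisector of `a`, `b` -/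
def bis (a b : Pt) : Set Pt := {z | dsq z a = dsq z b}

/-- arcs -/
def IsArc (P : Finset Pt) (q a b : Pt) : Prop :=
  a ∈ P ∧ b ∈ P ∧ dsq q a = dsq q b ∧ (q.2 ≤ a.2 ↔ q.2 ≤ b.2) ∧ a.1 < b.1 ∧
    ∀ c ∈ P, dsq q c = dsq q a → (q.2 ≤ c.2 ↔ q.2 ≤ a.2) → a.1 < c.1 → c.1 < b.1 → False

/-- all arcs with centre in `Q` -/
noncomputable def arcs (P Q : Finset Pt) : Finset Tr := by
  classical exact (Q ×ˢ P ×ˢ P).filter (fun t => IsArc P t.1 t.2.1 t.2.2)

/-- the function whose graph contains the half circle of the arc -/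
noncomputable def af (t : Tr) (x : ℝ) : ℝ :=
  if t.1.2 ≤ t.2.1.2 then t.1.2 + √(dsq t.1 t.2.1 - (x - t.1.1) ^ 2)
  else t.1.2 - √(dsq t.1 t.2.1 - (x - t.1.1) ^ 2)

/-- `x` lies in the open `x`-range of both arcs and the arcs meet there -/
def Xr (s t : Tr) : Prop :=
  s ≠ t ∧ ∃ x, s.2.1.1 < x ∧ x < s.2.2.1 ∧ t.2.1.1 < x ∧ x < t.2.2.1 ∧ af s x = af t x

/-- two arcs have a common end -/
def Sh (s t : Tr) : Prop := s.2.1 = t.2.1 ∨ s.2.1 = t.2.2 ∨ s.2.2 = t.2.1 ∨ s.2.2 = t.2.2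

end Pool.Agent.Lib.MP_004b1b_co.DL
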