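import Pool.Agent.Lib.MP_004b1b_co.DL.Defs

/-!
# The deletion argument

`Gd R k N p`: there are finitely many lines, at least `N` (i.e. `n ≤ 16 D * number`), through `p`, each with more than `k`
points of `R`.

`del`: induction on `|R|`: either all points of `R` are good in `R` (`P' = R`), or delete a bad point `q`; `τ` = the time of
deletion (numbers `τ` decreasing or increasing, e.g. `τ q = 0` for the first deleted point and `τ + 1` for the others).
-/

set_option autoImplicit false

namespace Pool.Agent.Lib.MP_004b1b_co.DL

open Finset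

/-- `p` lies on many lines with more than `k` points of `R` -/
def Gd (R : Finset Pt) (n D k : ℕ) (p : Pt) : Prop :=
  ∃ 𝓛 : Finset (Set Pt), (∀ L ∈ 𝓛, Ln L ∧ p ∈ L ∧ ∃ F ⊆ R, (∀ z ∈ F, z ∈ L) ∧ k < F.card) ∧
    n ≤ 16 * D * 𝓛.card

theorem del (n D k : ℕ) (R : Finset Pt) :
    ∃ P' ⊆ R, ∃ τ : Pt → ℕ, (∀ p ∈ P', Gd P' n D k p) ∧
      (∀ q ∈ R, q ∉ P' → ∀ S : Finset Pt,
        (∀ z, z ∈ S ↔ z ∈ P' ∨ (z ∈ R ∧ z ∉ P' ∧ τ q ≤ τ z)) → ¬ Gd S n D k q) := by
  classical
  induction hc : R.card using Nat.strong_induction_on generalizing R with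
  | _ c ih =>
    by_cases hall : ∀ p ∈ R, Gd R n D k p
    · exact ⟨R, Finset.Subset.refl _, fun _ => 0, hall, fun q hq hq' => absurd hq hq'⟩
    · push Not at hall
      obtain ⟨q0, hq0, hbad⟩ := hall
      obtain ⟨P', hP', τ, hgood, hdel⟩ := ih (R.erase q0).card (by
        rw [← hc]
        exact Finset.card_erase_lt_of_mem hq0) (R.erase q0) rfl
      have hq0P : q0 ∉ P' := fun h => by
        have := hP' h
        exact (Finset.mem_erase.1 this).1 rfl
      refine ⟨P', hP'.trans (Finset.erase_subset _ _), fun z => if z = q0 then 0 else τ z + 1,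
        hgood, ?_⟩
      intro q hq hqP S hS
      by_cases hqq : q = q0
      · subst hqq
        have hSR : S = R := by
          ext z
          rw [hS z]
          constructor
          · rintro (h | h)
            · exact Finset.mem_of_mem_erase (hP' h)
            · exact h.1
          · intro hz
            by_cases hzP : z ∈ P'
            · exact Or.inl hzP
            · refine Or.inr ⟨hz, hzP, ?_⟩
              simp
        rw [hSR]
        exact hbad
      · refine hdel q (Finset.mem_erase.2 ⟨hqq, hq⟩) hqP S ?_
        intro z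
        rw [hS z]
        constructor
        · rintro (h | ⟨h1, h2, h3⟩)
          · exact Or.inl h
          · right
            have hz0 : z ≠ q0 := by
              rintro rfl
              simp [hqq] at h3
            refine ⟨Finset.mem_erase.2 ⟨hz0, h1⟩, h2, ?_⟩
            simp only [if_neg hqq, if_neg hz0] at h3
            omega
        · rintro (h | ⟨h1, h2, h3⟩)
          · exact Or.inl h
          · right
            refine ⟨Finset.mem_of_mem_erase h1, h2, ?_⟩
            simp only [if_neg hqq, if_neg (Finset.mem_erase.1 h1).1]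
            omega

end Pool.Agent.Lib.MP_004b1b_co.DL
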