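import Pool.Agent.Lib.MP_004b1b_co.DL.FD
import Pool.Agent.Lib.MP_004b1b_co.DL.KC

/-!
# Transfer of `kcore`

Transfer: `e x = (x 0, x 1)` is a bijection of `Plane` and `Pt` (inverse `!₂[z.1, z.2]`), `dist x y = √(dsq (e x) (e y))`
(`EuclideanSpace.dist_eq`, `Fin.sum_univ_two`), `√` is injective on nonnegative numbers, lines correspond
(`IsLine (e ⁻¹' L)` iff `Ln L`).
-/

set_option autoImplicit false

namespace Pool.Agent.Lib.MP_004b1b_co.DL

open Finset

theorem fa_inj : Function.Injective ee := by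
  intro x y h
  have h0 : x 0 = y 0 := congrArg Prod.fst h
  have h1 : x 1 = y 1 := congrArg Prod.snd h
  ext i
  fin_cases i
  · exact h0
  · exact h1

theorem fa_surj : Function.Surjective ee := by
  intro z
  refine ⟨!₂[z.1, z.2], ?_⟩
  unfold ee
  ext <;> simp

theorem fa_dsq (x y : Plane) : dsq (ee x) (ee y) = dist x y ^ 2 := by
  rw [EuclideanSpace.dist_eq, Real.sq_sqrt (by positivity), Fin.sum_univ_two, Real.dist_eq,
    Real.dist_eq, sq_abs, sq_abs]
  rfl

theorem fa_pin (P : Finset Plane) (P' : Finset Pt) (hP : ∀ z, z ∈ P' ↔ ∃ x ∈ P, ee x = z)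
    (q : Plane) : (pin P' (ee q)).card ≤ (distsFrom P q).card := by
  classical
  have h1 : pin P' (ee q) ⊆ (distsFrom P q).image (fun t => t ^ 2) := by
    intro t ht
    unfold pin at ht
    simp only [mem_image, mem_erase] at ht
    obtain ⟨z, ⟨hz, hz'⟩, rfl⟩ := ht
    obtain ⟨x, hx, rfl⟩ := (hP z).mp hz'
    refine mem_image.mpr ⟨dist q x, ?_, (fa_dsq q x).symm⟩
    unfold distsFrom
    simp only [mem_image, mem_erase]
    exact ⟨x, ⟨fun h => hz (by rw [h]), hx⟩, rfl⟩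
  exact (card_le_card h1).trans card_image_le

theorem fa_line {L : Set Pt} (hL : Ln L) : IsLine (ee ⁻¹' L) := by
  obtain ⟨a, b, c, h, rfl⟩ := hL
  exact ⟨a, b, c, h, rfl⟩

/-- (1) in the Euclidean plane -/
theorem fin_core (P : Finset Plane) (hn : 2 ≤ P.card) (D : ℕ) (hD : ∀ q ∈ P, (distsFrom P q).card ≤ D)
    (k : ℕ) (hk : 1 ≤ k) :
    ∃ P' ⊆ P, (P.card - P'.card) * P.card ≤ 67108864 * k * D ^ 2 ∧
      ∀ p ∈ P', ∃ 𝓛 : Finset (Set Plane), (∀ L ∈ 𝓛, IsLine L ∧ p ∈ L ∧ k < onLine P' L) ∧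
        P.card ≤ 16 * D * 𝓛.card := by
  classical
  have hcP : (P.image ee).card = P.card := card_image_of_injective P fa_inj
  obtain ⟨P1, hP1, h1, h2⟩ := kcore (P.image ee) (by rw [hcP]; exact hn) D
    (fun z hz => by
      obtain ⟨x, hx, rfl⟩ := mem_image.mp hz
      exact (fa_pin P (P.image ee) (fun z => mem_image) x).trans (hD x hx)) k hk
  have himg : (P.filter fun x => ee x ∈ P1).image ee = P1 := by
    ext z
    simp only [mem_image, mem_filter]
    constructor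
    · rintro ⟨x, ⟨-, hx⟩, rfl⟩
      exact hx
    · intro hz
      obtain ⟨x, hx, rfl⟩ := mem_image.mp (hP1 hz)
      exact ⟨x, ⟨hx, hz⟩, rfl⟩
  have hcard : P1.card = (P.filter fun x => ee x ∈ P1).card := by
    conv_lhs => rw [← himg]
    exact card_image_of_injective _ fa_inj
  rw [hcP, hcard] at h1
  refine ⟨P.filter fun x => ee x ∈ P1, filter_subset _ _, h1, ?_⟩
  intro p hp
  obtain ⟨𝓛, h3, h4⟩ := h2 (ee p) (mem_filter.mp hp).2
  refine ⟨𝓛.image fun L => ee ⁻¹' L, ?_, ?_⟩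
  · intro L hL
    obtain ⟨L1, hL1, rfl⟩ := mem_image.mp hL
    obtain ⟨h5, h6, F, hF, hFL, hFk⟩ := h3 L1 hL1
    refine ⟨fa_line h5, h6, hFk.trans_le ?_⟩
    unfold onLine
    have h7 : F ⊆ ((P.filter fun x => ee x ∈ P1).filter fun z => z ∈ ee ⁻¹' L1).image ee := by
      intro z hz
      have h8 := hF hz
      rw [← himg] at h8
      obtain ⟨x, hx, rfl⟩ := mem_image.mp h8
      exact mem_image.mpr ⟨x, mem_filter.mpr ⟨hx, hFL _ hz⟩, rfl⟩
    exact (card_le_card h7).trans card_image_le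
  · rw [card_image_of_injective _ (Set.preimage_injective.mpr fa_surj)]
    rw [hcP] at h4
    exact h4

end Pool.Agent.Lib.MP_004b1b_co.DL
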