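import Pool.Agent.Lib.MP_004b1b_co.DL.RL
import Pool.Agent.Lib.MP_004b1b_co.DL.Del

/-!
# The deletion argument, main step, inside a subset `Q0` of `P`

`kcoreQ`: if `n < 16 D` take `P' = ∅`.  Otherwise `Q = P \ P'`, `P_q = P' ∪ {q' ∈ Q | τ q ≤ τ q'}`,
`E = {t ∈ arcs P Q | bis t.2.1 t.2.2 contains at most k points of P_{t.1}}`.  For `q ∈ Q` the finset of the lines
`bis a b`, `(q, a, b)` an arc, with more than `k` points of `P_q` has less than `n / (16 D)` elements, each is the bisector
of at most `2 D` arcs (`narc_line`), so at least `n - 1 - 2 D - n / 8 ≥ n / 4` arcs with centre `q` are in `E`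
(`narc`; `D ≤ n / 16`).  The arcs of `E` over `(a, b)` have different centres, all on `bis a b`; let `q0` be the centre
with the smallest `τ`; all the centres are in `P_{q0}` and on `bis a b`, so there are at most `k`.  `core`.
-/

set_option autoImplicit false

namespace Pool.Agent.Lib.MP_004b1b_co.DL

open Finset

private lemma KCQ_mem {P Q : Finset Pt} {t : Tr} :
    t ∈ arcs P Q ↔ t.1 ∈ Q ∧ t.2.1 ∈ P ∧ t.2.2 ∈ P ∧ IsArc P t.1 t.2.1 t.2.2 := by
  classical
  unfold arcs
  rw [Finset.mem_filter, Finset.mem_product, Finset.mem_product]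
  tauto

theorem kcoreQ (P : Finset Pt) (hn : 2 ≤ P.card) (D : ℕ) (hD : ∀ q ∈ P, (pin P q).card ≤ D)
    (Q0 : Finset Pt) (hQ0 : Q0 ⊆ P) (k : ℕ) (hk : 1 ≤ k) :
    ∃ P' ⊆ Q0, (Q0.card - P'.card) * P.card ≤ 67108864 * k * D ^ 2 ∧
      ∀ p ∈ P', Gd P' P.card D k p := by
  classical
  set n := P.card with hnn
  rcases lt_or_ge n (16 * D) with hlt | hge
  · refine ⟨∅, Finset.empty_subset _, ?_, fun p hp => absurd hp (Finset.notMem_empty p)⟩
    rw [Finset.card_empty, Nat.sub_zero]
    calc Q0.card * n ≤ (16 * D) * (16 * D) :=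
          Nat.mul_le_mul ((Finset.card_le_card hQ0).trans hlt.le) hlt.le
      _ = 256 * 1 * D ^ 2 := by ring
      _ ≤ 67108864 * k * D ^ 2 :=
        Nat.mul_le_mul_right _ (Nat.mul_le_mul (by norm_num) hk)
  obtain ⟨P', hP', τ, hgd, hbad⟩ := del n D k Q0
  refine ⟨P', hP', ?_, hgd⟩
  set Q := Q0 \ P' with hQ
  have hQQ : Q ⊆ Q0 := Finset.sdiff_subset
  have hQP : Q ⊆ P := hQQ.trans hQ0
  have hQc : Q.card = Q0.card - P'.card := by rw [hQ, Finset.card_sdiff_of_subset hP']
  rw [← hQc]
  let R : Pt → Finset Pt := fun q => P' ∪ Q.filter (fun z => τ q ≤ τ z)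
  have hR : ∀ q z, z ∈ R q ↔ z ∈ P' ∨ (z ∈ Q0 ∧ z ∉ P' ∧ τ q ≤ τ z) := by
    intro q z
    simp only [R, Finset.mem_union, Finset.mem_filter, hQ, Finset.mem_sdiff]
    tauto
  let E : Finset Tr := (arcs P Q).filter
    (fun t => ((R t.1).filter (fun z => z ∈ bis t.2.1 t.2.2)).card ≤ k)
  have hE : E ⊆ arcs P Q := Finset.filter_subset _ _
  refine core P Q hQP hn D hD E hE k hk ?_ ?_
  · intro a b F hF hab
    rcases F.eq_empty_or_nonempty with h0 | hne
    · rw [h0, Finset.card_empty]; exact Nat.zero_le _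
    obtain ⟨t0, ht0, hmin⟩ := Finset.exists_min_image F (fun t => τ t.1) hne
    have hinj : Set.InjOn (fun t : Tr => t.1) F := by
      intro s hs t ht hst
      obtain ⟨h1, h2⟩ := hab s hs
      obtain ⟨h3, h4⟩ := hab t ht
      exact Prod.ext hst (Prod.ext (h1.trans h3.symm) (h2.trans h4.symm))
    have hsub : F.image (fun t : Tr => t.1) ⊆ (R t0.1).filter (fun z => z ∈ bis t0.2.1 t0.2.2) := by
      intro z hz
      obtain ⟨t, ht, rfl⟩ := Finset.mem_image.mp hz
      obtain ⟨h1, h2⟩ := hab t ht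
      obtain ⟨h3, h4⟩ := hab t0 ht0
      obtain ⟨h5, -, h6⟩ := arc_bis (hE (hF ht))
      rw [Finset.mem_filter]
      refine ⟨?_, ?_⟩
      · rw [hR]
        right
        have h7 := Finset.mem_sdiff.mp (hQ ▸ h5 : t.1 ∈ Q0 \ P')
        exact ⟨h7.1, h7.2, hmin t ht⟩
      · rw [h3, h4, ← h1, ← h2]; exact h6
    calc F.card = (F.image (fun t : Tr => t.1)).card := (Finset.card_image_of_injOn hinj).symm
      _ ≤ _ := Finset.card_le_card hsub
      _ ≤ k := (Finset.mem_filter.mp (hF ht0)).2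
  · have hc : Q.card * ((n + 3) / 4) ≤ E.card := by
      refine card_arcs P Q E (fun t ht => (arc_bis (hE ht)).1) ((n + 3) / 4) ?_
      intro q hq
      have hqP : q ∈ P := hQP hq
      have hqP' : q ∉ P' := (Finset.mem_sdiff.mp (hQ ▸ hq : q ∈ Q0 \ P')).2
      refine ⟨E.filter (fun t => t.1 = q), Finset.filter_subset _ _,
        fun t ht => (Finset.mem_filter.mp ht).2, ?_⟩
      have hna := narc P q D (hD q hqP)
      set A := arcs P {q} with hA
      let B : Finset Tr := A.filter
        (fun t => ¬ ((R t.1).filter (fun z => z ∈ bis t.2.1 t.2.2)).card ≤ k)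
      have hAq : ∀ t ∈ A, t.1 = q := fun t ht => Finset.mem_singleton.mp (KCQ_mem.mp ht).1
      have hAB : A \ B ⊆ E.filter (fun t => t.1 = q) := by
        intro t ht
        obtain ⟨h1, h2⟩ := Finset.mem_sdiff.mp ht
        have h3 := hAq t h1
        have h4 : ((R t.1).filter (fun z => z ∈ bis t.2.1 t.2.2)).card ≤ k := by
          by_contra hc
          exact h2 (Finset.mem_filter.mpr ⟨h1, hc⟩)
        rw [Finset.mem_filter, Finset.mem_filter]
        refine ⟨⟨?_, h4⟩, h3⟩
        have h5 := KCQ_mem.mp h1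
        exact KCQ_mem.mpr ⟨by rw [h3]; exact hq, h5.2⟩
      let 𝓛 : Finset (Set Pt) := B.image (fun t => bis t.2.1 t.2.2)
      have hB : B.card ≤ 2 * D * 𝓛.card := by
        refine Finset.card_le_mul_card_image B (2 * D) ?_
        intro L hL
        obtain ⟨t, ht, rfl⟩ := Finset.mem_image.mp hL
        have htA : t ∈ A := (Finset.mem_filter.mp ht).1
        have h1 := arc_bis htA
        refine narc_line P q D (hD q hqP) (bis t.2.1 t.2.2) (bis_ln h1.2.1) _ ?_ ?_
        · intro s hs
          exact (Finset.mem_filter.mp (Finset.mem_filter.mp hs).1).1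
        · intro s hs
          exact (Finset.mem_filter.mp hs).2
      have hnot : ¬ n ≤ 16 * D * 𝓛.card := by
        intro hle
        refine hbad q (hQQ hq) hqP' (R q) (hR q) ⟨𝓛, ?_, hle⟩
        intro L hL
        obtain ⟨t, ht, rfl⟩ := Finset.mem_image.mp hL
        obtain ⟨htA, htk⟩ := Finset.mem_filter.mp ht
        have h1 := arc_bis htA
        have h2 := hAq t htA
        refine ⟨bis_ln h1.2.1, by rw [← h2]; exact h1.2.2,
          (R q).filter (fun z => z ∈ bis t.2.1 t.2.2), Finset.filter_subset _ _,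
          fun z hz => (Finset.mem_filter.mp hz).2, ?_⟩
        rw [h2] at htk
        exact not_le.mp htk
      have h3 : 16 * D * 𝓛.card = 8 * (2 * D * 𝓛.card) := by ring
      have h4 : (A \ B).card + B.card = A.card := by
        rw [Finset.card_sdiff_add_card_eq_card (Finset.filter_subset _ _)]
      have h5 := Finset.card_le_card hAB
      rw [h3] at hnot
      omega
    have h1 : n ≤ 4 * ((n + 3) / 4) := by omega
    calc Q.card * n ≤ Q.card * (4 * ((n + 3) / 4)) := Nat.mul_le_mul_left _ h1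
      _ = 4 * (Q.card * ((n + 3) / 4)) := by ring
      _ ≤ 4 * E.card := Nat.mul_le_mul_left _ hc

end Pool.Agent.Lib.MP_004b1b_co.DL
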