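import Pool.Agent.Lib.MP_004b1b_co.DL.FD
import Pool.Agent.Lib.MP_004b1b_co.DL.FA
import Pool.Agent.Lib.MP_004b1b_co.DL.KCQ

/-!
# Transfer of `kcoreQ`
-/

set_option autoImplicit false

namespace Pool.Agent.Lib.MP_004b1b_co.DL

open Finset

/-- the hereditary form of (1) in the Euclidean plane -/
theorem fin_coreQ (P : Finset Plane) (hn : 2 ≤ P.card) (D : ℕ) (hD : ∀ q ∈ P, (distsFrom P q).card ≤ D)
    (Q : Finset Plane) (hQ : Q ⊆ P) (k : ℕ) (hk : 1 ≤ k) :
    ∃ P' ⊆ Q, (Q.card - P'.card) * P.card ≤ 67108864 * k * D ^ 2 ∧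
      ∀ p ∈ P', ∃ 𝓛 : Finset (Set Plane), (∀ L ∈ 𝓛, IsLine L ∧ p ∈ L ∧ k < onLine P' L) ∧
        P.card ≤ 16 * D * 𝓛.card := by
  classical
  have hcP : (P.image ee).card = P.card := card_image_of_injective P fa_inj
  have hcQ : (Q.image ee).card = Q.card := card_image_of_injective Q fa_inj
  obtain ⟨P1, hP1, h1, h2⟩ := kcoreQ (P.image ee) (by rw [hcP]; exact hn) D
    (fun z hz => by
      obtain ⟨x, hx, rfl⟩ := mem_image.mp hz
      exact (fa_pin P (P.image ee) (fun z => mem_image) x).trans (hD x hx)) (Q.image ee)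
    (image_subset_image hQ) k hk
  have himg : (Q.filter fun x => ee x ∈ P1).image ee = P1 := by
    ext z
    simp only [mem_image, mem_filter]
    constructor
    · rintro ⟨x, ⟨-, hx⟩, rfl⟩
      exact hx
    · intro hz
      obtain ⟨x, hx, rfl⟩ := mem_image.mp (hP1 hz)
      exact ⟨x, ⟨hx, hz⟩, rfl⟩
  have hcard : P1.card = (Q.filter fun x => ee x ∈ P1).card := by
    conv_lhs => rw [← himg]
    exact card_image_of_injective _ fa_inj
  rw [hcP, hcQ, hcard] at h1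
  refine ⟨Q.filter fun x => ee x ∈ P1, filter_subset _ _, h1, ?_⟩
  intro p hp
  obtain ⟨𝓛, h3, h4⟩ := h2 (ee p) (mem_filter.mp hp).2
  refine ⟨𝓛.image fun L => ee ⁻¹' L, ?_, ?_⟩
  · intro L hL
    obtain ⟨L1, hL1, rfl⟩ := mem_image.mp hL
    obtain ⟨h5, h6, F, hF, hFL, hFk⟩ := h3 L1 hL1
    refine ⟨fa_line h5, h6, hFk.trans_le ?_⟩
    unfold onLine
    have h7 : F ⊆ ((Q.filter fun x => ee x ∈ P1).filter fun z => z ∈ ee ⁻¹' L1).image ee := by
      intro z hz
      have h8 := hF hz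
      rw [← himg] at h8
      obtain ⟨x, hx, rfl⟩ := mem_image.mp h8
      exact mem_image.mpr ⟨x, mem_filter.mpr ⟨hx, hFL _ hz⟩, rfl⟩
    exact (card_le_card h7).trans card_image_le
  · rw [card_image_of_injective _ (Set.preimage_injective.mpr fa_surj)]
    rw [hcP] at h4
    exact h4

end Pool.Agent.Lib.MP_004b1b_co.DL
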