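import Pool.Agent.Lib.MP_004b1b_co.DL.Circ

/-!
# The number of arcs with a given centre

`narc`: every `a ∈ P.erase q` is either the left end of an arc with centre `q` (take `b` with smallest abscissa among
the points of `P` on the same half circle to the right of `a`), or the rightmost point of its half circle; there are at
most `2 D` points of the second kind (injective map to `pin P q × Bool`: equal radius, equal half, both rightmost, so
equal abscissa, so equal by `af_eq`).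
-/

set_option autoImplicit false

namespace Pool.Agent.Lib.MP_004b1b_co.DL

open Finset

private lemma na_mem {P Q : Finset Pt} {t : Tr} : t ∈ arcs P Q ↔ t.1 ∈ Q ∧ t.2.1 ∈ P ∧ t.2.2 ∈ P ∧
    IsArc P t.1 t.2.1 t.2.2 := by
  classical
  unfold arcs
  rw [Finset.mem_filter, Finset.mem_product, Finset.mem_product]
  constructor
  · rintro ⟨⟨h1, h2, h3⟩, h4⟩
    exact ⟨h1, h2, h3, h4⟩
  · rintro ⟨h1, h2, h3, h4⟩
    exact ⟨⟨h1, h2, h3⟩, h4⟩

/-- not the left end of an arc: rightmost on its half circle -/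
private lemma na_right {P : Finset Pt} {q a : Pt} (ha : a ∈ P)
    (h : ∀ t ∈ arcs P {q}, t.2.1 ≠ a) {c : Pt} (hc : c ∈ P) (h1 : dsq q c = dsq q a)
    (h2 : q.2 ≤ c.2 ↔ q.2 ≤ a.2) : c.1 ≤ a.1 := by
  classical
  by_contra hlt
  rw [not_le] at hlt
  obtain ⟨S, hS⟩ : ∃ S, (P.filter fun c => dsq q c = dsq q a ∧ (q.2 ≤ c.2 ↔ q.2 ≤ a.2) ∧ a.1 < c.1) = S :=
    ⟨_, rfl⟩
  have hne : S.Nonempty := ⟨c, by rw [← hS, Finset.mem_filter]; exact ⟨hc, h1, h2, hlt⟩⟩
  obtain ⟨b, hb, hmin⟩ := Finset.exists_min_image S (fun c => c.1) hne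
  rw [← hS, Finset.mem_filter] at hb
  obtain ⟨hbP, hb1, hb2, hb3⟩ := hb
  refine h (q, a, b) (na_mem.2 ⟨Finset.mem_singleton_self q, ha, hbP, ha, hbP, hb1.symm, hb2.symm, hb3, ?_⟩) rfl
  intro d hd hd1 hd2 hd3 hd4
  have hdS : d ∈ S := by
    rw [← hS, Finset.mem_filter]
    exact ⟨hd, hd1, hd2, hd3⟩
  have := hmin d hdS
  simp only at this hd4
  linarith

private lemma na_eq {q a a' : Pt} (h1 : dsq q a = dsq q a') (h2 : q.2 ≤ a.2 ↔ q.2 ≤ a'.2)
    (h3 : a.1 = a'.1) : a = a' := by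
  unfold dsq at h1
  rw [h3] at h1
  have h4 : (q.2 - a.2) ^ 2 = (q.2 - a'.2) ^ 2 := by linarith
  refine Prod.ext h3 ?_
  rcases sq_eq_sq_iff_eq_or_eq_neg.1 h4 with h5 | h5
  · linarith
  · by_cases h6 : q.2 ≤ a.2
    · have := h2.1 h6
      linarith
    · have h7 : ¬ q.2 ≤ a'.2 := fun h => h6 (h2.2 h)
      rw [not_le] at h6 h7
      linarith

theorem narc (P : Finset Pt) (q : Pt) (D : ℕ) (hD : (pin P q).card ≤ D) :
    P.card ≤ (arcs P {q}).card + 1 + 2 * D := by
  classical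
  obtain ⟨A1, hA1⟩ : ∃ A, ((P.erase q).filter fun a => ∃ t ∈ arcs P {q}, t.2.1 = a) = A := ⟨_, rfl⟩
  obtain ⟨A2, hA2⟩ : ∃ A, ((P.erase q).filter fun a => ¬ ∃ t ∈ arcs P {q}, t.2.1 = a) = A := ⟨_, rfl⟩
  have h0 : A1.card + A2.card = (P.erase q).card := by
    rw [← hA1, ← hA2]
    exact Finset.card_filter_add_card_filter_not _
  have h1 : A1.card ≤ (arcs P {q}).card := by
    refine (Finset.card_le_card (t := (arcs P {q}).image fun t => t.2.1) ?_).trans Finset.card_image_le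
    intro a ha
    rw [← hA1, Finset.mem_filter] at ha
    obtain ⟨-, t, ht, hta⟩ := ha
    exact Finset.mem_image.2 ⟨t, ht, hta⟩
  have hmem : ∀ a ∈ A2, a ∈ P ∧ a ≠ q ∧ ∀ t ∈ arcs P {q}, t.2.1 ≠ a := by
    intro a ha
    rw [← hA2, Finset.mem_filter, Finset.mem_erase] at ha
    exact ⟨ha.1.2, ha.1.1, fun t ht hta => ha.2 ⟨t, ht, hta⟩⟩
  have h2 : A2.card ≤ ((pin P q) ×ˢ (Finset.univ : Finset Bool)).card := by
    refine Finset.card_le_card_of_injOn (fun a => (dsq q a, decide (q.2 ≤ a.2))) ?_ ?_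
    · intro a ha
      obtain ⟨h3, h4, -⟩ := hmem a ha
      rw [Finset.mem_coe, Finset.mem_product]
      refine ⟨?_, Finset.mem_univ _⟩
      unfold pin
      exact Finset.mem_image.2 ⟨a, Finset.mem_erase.2 ⟨h4, h3⟩, rfl⟩
    · intro a ha a' ha' h
      obtain ⟨h3, -, h4⟩ := hmem a ha
      obtain ⟨h3', -, h4'⟩ := hmem a' ha'
      simp only [Prod.mk.injEq, decide_eq_decide] at h
      have l1 := na_right h3 h4 h3' h.1.symm h.2.symm
      have l2 := na_right h3' h4' h3 h.1 h.2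
      exact na_eq h.1 h.2 (le_antisymm l2 l1)
  rw [Finset.card_product, Finset.card_univ, Fintype.card_bool] at h2
  have h3 : P.card ≤ (P.erase q).card + 1 := by
    have := Finset.pred_card_le_card_erase (s := P) (a := q)
    omega
  omega

end Pool.Agent.Lib.MP_004b1b_co.DL
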