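import Pool.Agent.Lib.MP_004b1b_co.DL.Circ

/-!
# Arcs with a given centre and a given bisector

`narc_line`: the arcs with centre `q` whose bisector is `L` (a line through `q`): choose `q' ∈ L`, `q' ≠ q`;
`cr q q' a + cr q q' b = 0` and `≠ 0` (`circ2`: `a ≠ b` have the same distance from `q` and from `q'`), so by `arc_hit`
with `x0 = a.1`, `x1 = b.1` the arc meets the line `q q'`; `hit_uniq`: at most one arc for each radius and half.
-/

set_option autoImplicit false

namespace Pool.Agent.Lib.MP_004b1b_co.DL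

open Finset

private lemma nl_mem {P Q : Finset Pt} {t : Tr} (h : t ∈ arcs P Q) : t.1 ∈ Q ∧ t.2.1 ∈ P ∧
    IsArc P t.1 t.2.1 t.2.2 := by
  classical
  unfold arcs at h
  rw [Finset.mem_filter, Finset.mem_product, Finset.mem_product] at h
  exact ⟨h.1.1, h.1.2.1, h.2⟩

private lemma nl_pin {P : Finset Pt} {q a b : Pt} (h : IsArc P q a b) : dsq q a ∈ pin P q := by
  classical
  unfold pin
  refine Finset.mem_image.2 ⟨a, Finset.mem_erase.2 ⟨?_, h.1⟩, rfl⟩
  rintro rfl
  have h1 := h.2.2.1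
  have h2 := h.2.2.2.2.1
  unfold dsq at h1
  have h3 : 0 < (a.1 - b.1) ^ 2 := by
    have : a.1 - b.1 ≠ 0 := by linarith
    positivity
  have h4 : 0 ≤ (a.2 - b.2) ^ 2 := sq_nonneg _
  nlinarith

/-- the arc meets every line through the centre which is its bisector -/
private lemma nl_hit {P : Finset Pt} {t : Tr} (h : IsArc P t.1 t.2.1 t.2.2) {q' : Pt} (hq : t.1 ≠ q')
    (hb : dsq q' t.2.1 = dsq q' t.2.2) :
    ∃ y, t.2.1.1 < y ∧ y < t.2.2.1 ∧ cr t.1 q' (y, af t y) = 0 := by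
  have hlt := h.2.2.2.2.1
  have hne : t.2.1 ≠ t.2.2 := by
    intro e
    rw [e] at hlt
    exact lt_irrefl _ hlt
  rcases circ2 hq h.2.2.1 hb with h1 | ⟨h1, h2⟩
  · exact absurd h1 hne
  · have e1 : ((t.2.1.1, af t t.2.1.1) : Pt) = t.2.1 := by rw [af_l h]
    have e2 : ((t.2.2.1, af t t.2.2.1) : Pt) = t.2.2 := by rw [af_r h]
    refine arc_hit h le_rfl hlt le_rfl ?_ ?_
    · rw [e1, e2]
      exact h1
    · rw [e1]
      exact h2

theorem narc_line (P : Finset Pt) (q : Pt) (D : ℕ) (hD : (pin P q).card ≤ D) (L : Set Pt) (hL : Ln L)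
    (E : Finset Tr) (hE : E ⊆ arcs P {q}) (hb : ∀ t ∈ E, bis t.2.1 t.2.2 = L) : E.card ≤ 2 * D := by
  classical
  rcases E.eq_empty_or_nonempty with rfl | ⟨t0, ht0⟩
  · simp
  have hcen : ∀ t ∈ E, t.1 = q := fun t ht => Finset.mem_singleton.1 (nl_mem (hE ht)).1
  have harc : ∀ t ∈ E, IsArc P t.1 t.2.1 t.2.2 := fun t ht => (nl_mem (hE ht)).2.2
  obtain ⟨a, b, c, hab, rfl⟩ := hL
  have hqL : q ∈ ln a b c := by
    rw [← hb t0 ht0]
    have := (harc t0 ht0).2.2.1
    rw [hcen t0 ht0] at this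
    exact this
  obtain ⟨q', hq'L, hqq'⟩ : ∃ q' : Pt, q' ∈ ln a b c ∧ q ≠ q' := by
    refine ⟨(q.1 - b, q.2 + a), ?_, ?_⟩
    · have h1 : a * q.1 + b * q.2 = c := hqL
      change a * (q.1 - b) + b * (q.2 + a) = c
      linarith
    · intro e
      have h1 := congrArg Prod.fst e
      have h2 := congrArg Prod.snd e
      simp only at h1 h2
      rcases hab with h3 | h3
      · exact h3 (by linarith)
      · exact h3 (by linarith)
  have hhit : ∀ t ∈ E, ∃ y, t.2.1.1 < y ∧ y < t.2.2.1 ∧ cr t.1 q' (y, af t y) = 0 := by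
    intro t ht
    refine nl_hit (harc t ht) (by rw [hcen t ht]; exact hqq') ?_
    have : q' ∈ bis t.2.1 t.2.2 := by
      rw [hb t ht]
      exact hq'L
    exact this
  have h2 : E.card ≤ ((pin P q) ×ˢ (Finset.univ : Finset Bool)).card := by
    refine Finset.card_le_card_of_injOn (fun t => (dsq t.1 t.2.1, decide (t.1.2 ≤ t.2.1.2))) ?_ ?_
    · intro t ht
      rw [Finset.mem_coe, Finset.mem_product]
      refine ⟨?_, Finset.mem_univ _⟩
      have := nl_pin (harc t ht)
      rw [hcen t ht] at this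
      simp only [hcen t ht]
      exact this
    · intro s hs t ht h
      simp only [Prod.mk.injEq, decide_eq_decide] at h
      obtain ⟨x, hx1, hx2, hx3⟩ := hhit s hs
      obtain ⟨y, hy1, hy2, hy3⟩ := hhit t ht
      exact hit_uniq (harc s hs) (harc t ht) ((hcen s hs).trans (hcen t ht).symm) h.1 h.2
        (by rw [hcen s hs]; exact hqq') hx1 hx2 hx3 hy1 hy2 hy3
  rw [Finset.card_product, Finset.card_univ, Fintype.card_bool] at h2
  omega

/-- the bisector of two points is a line -/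
theorem bis_ln {a b : Pt} (h : a ≠ b) : Ln (bis a b) := by
  refine ⟨2 * (b.1 - a.1), 2 * (b.2 - a.2), b.1 ^ 2 + b.2 ^ 2 - a.1 ^ 2 - a.2 ^ 2, ?_, ?_⟩
  · by_contra hcon
    rw [not_or, not_not, not_not] at hcon
    exact h (Prod.ext (by linarith [hcon.1]) (by linarith [hcon.2]))
  · ext z
    change dsq z a = dsq z b ↔ 2 * (b.1 - a.1) * z.1 + 2 * (b.2 - a.2) * z.2 = _
    unfold dsq
    constructor
    · intro h1
      linarith
    · intro h1
      linarith

/-- the centre of an arc lies on the bisector of its ends -/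
theorem arc_bis {P Q : Finset Pt} {t : Tr} (h : t ∈ arcs P Q) :
    t.1 ∈ Q ∧ t.2.1 ≠ t.2.2 ∧ t.1 ∈ bis t.2.1 t.2.2 := by
  obtain ⟨h1, -, h2⟩ := nl_mem h
  refine ⟨h1, ?_, h2.2.2.1⟩
  intro e
  have hlt := h2.2.2.2.2.1
  rw [e] at hlt
  exact lt_irrefl _ hlt

end Pool.Agent.Lib.MP_004b1b_co.DL
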