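import Pool.Agent.Lib.MP_004b1b_co.DL.Core
import Pool.Agent.Lib.MP_004b1b_co.DL.NA
import Pool.Agent.Lib.MP_004b1b_co.DL.NL

/-!
# Rich lines in every subset

`E = arcs P Q`.  The arcs over `(a, b)` have different centres on `bis a b` (`bis_ln`, `arc_bis`), so at most `k`.
`arcs P Q` is the disjoint union of the `arcs P {q}`, each with at least `n - 1 - 2 D` elements; if `8 D ≤ n` and `n ≥ 2`
this is `≥ n / 4` and `core` applies; otherwise `m n ≤ n^2 ≤ 64 D^2`.
-/

set_option autoImplicit false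

namespace Pool.Agent.Lib.MP_004b1b_co.DL

open Finset

/-- the arcs with centre in `Q` -/
theorem card_arcs (P Q : Finset Pt) (E : Finset Tr) (hE : ∀ t ∈ E, t.1 ∈ Q)
    (c : ℕ) (h : ∀ q ∈ Q, ∃ F ⊆ E, (∀ t ∈ F, t.1 = q) ∧ c ≤ F.card) : Q.card * c ≤ E.card := by
  classical
  rw [Finset.card_eq_sum_card_fiberwise (f := fun t : Tr => t.1) (t := Q) (fun t ht => hE t ht)]
  rw [← smul_eq_mul]
  refine Finset.card_nsmul_le_sum _ _ _ ?_
  intro q hq
  obtain ⟨F, hF, hFq, hc⟩ := h q hq
  refine hc.trans (Finset.card_le_card ?_)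
  intro t ht
  exact Finset.mem_filter.2 ⟨hF ht, hFq t ht⟩

theorem rich (P Q : Finset Pt) (hQ : Q ⊆ P) (hn : 2 ≤ P.card) (D : ℕ)
    (hD : ∀ q ∈ P, (pin P q).card ≤ D) (k : ℕ) (hk : 1 ≤ k)
    (h : ∀ L, Ln L → ∀ F ⊆ Q, (∀ z ∈ F, z ∈ L) → F.card ≤ k) :
    Q.card * P.card ≤ 67108864 * k * D ^ 2 := by
  classical
  rcases le_or_gt (8 * D) P.card with h8 | h8
  · refine core P Q hQ hn D hD (arcs P Q) (Finset.Subset.refl _) k hk ?_ ?_
    · intro a b F hF hFab
      rcases F.eq_empty_or_nonempty with hF0 | ⟨t0, ht0⟩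
      · rw [hF0]; simp
      have hne : a ≠ b := by
        have h1 := (arc_bis (hF ht0)).2.1
        rw [(hFab t0 ht0).1, (hFab t0 ht0).2] at h1
        exact h1
      have hinj : Set.InjOn (fun t : Tr => t.1) F := by
        intro s hs t ht hst
        have h1 := hFab s hs
        have h2 := hFab t ht
        refine Prod.ext hst (Prod.ext ?_ ?_)
        · rw [h1.1, h2.1]
        · rw [h1.2, h2.2]
      have hcard : (F.image (fun t : Tr => t.1)).card = F.card := Finset.card_image_of_injOn hinj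
      rw [← hcard]
      refine h (bis a b) (bis_ln hne) _ ?_ ?_
      · intro z hz
        obtain ⟨t, ht, rfl⟩ := Finset.mem_image.1 hz
        exact (arc_bis (hF ht)).1
      · intro z hz
        obtain ⟨t, ht, rfl⟩ := Finset.mem_image.1 hz
        have h1 := (arc_bis (hF ht)).2.2
        rw [(hFab t ht).1, (hFab t ht).2] at h1
        exact h1
    · have hc := card_arcs P Q (arcs P Q) (fun t ht => (arc_bis ht).1) (P.card - 1 - 2 * D) (by
        intro q hq
        refine ⟨arcs P {q}, ?_, ?_, ?_⟩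
        · intro t ht
          unfold arcs at ht ⊢
          rw [Finset.mem_filter] at ht ⊢
          refine ⟨?_, ht.2⟩
          have h1 := ht.1
          rw [Finset.mem_product] at h1 ⊢
          refine ⟨?_, h1.2⟩
          rw [Finset.mem_singleton.1 h1.1]
          exact hq
        · intro t ht
          exact Finset.mem_singleton.1 (arc_bis ht).1
        · have := narc P q D (hD q (hQ hq))
          omega)
      have h2 : P.card ≤ 4 * (P.card - 1 - 2 * D) := by omega
      calc Q.card * P.card ≤ Q.card * (4 * (P.card - 1 - 2 * D)) := Nat.mul_le_mul_left _ h2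
        _ = 4 * (Q.card * (P.card - 1 - 2 * D)) := by ring
        _ ≤ 4 * (arcs P Q).card := Nat.mul_le_mul_left _ hc
  · have h1 : Q.card * P.card ≤ P.card * P.card := Nat.mul_le_mul_right _ (Finset.card_le_card hQ)
    have h2 : P.card * P.card ≤ (8 * D) * (8 * D) := Nat.mul_le_mul h8.le h8.le
    have h3 : D ^ 2 * 1 ≤ D ^ 2 * k := Nat.mul_le_mul_left _ hk
    nlinarith

end Pool.Agent.Lib.MP_004b1b_co.DL
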