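import Pool.Agent.Lib.MP_004b1b_co.DL.FD
import Pool.Agent.Lib.MP_004b1b_co.DL.RL

/-!
# Transfer of `rich`

`k` = the largest number of points of `Q` on a line (at least 1).  Transfer: `e x = (x 0, x 1)` is a bijection of `Plane` and `Pt` (inverse `!₂[z.1, z.2]`), `dist x y = √(dsq (e x) (e y))`
(`EuclideanSpace.dist_eq`, `Fin.sum_univ_two`), `√` is injective on nonnegative numbers, lines correspond
(`IsLine (e ⁻¹' L)` iff `Ln L`).
-/

set_option autoImplicit false

namespace Pool.Agent.Lib.MP_004b1b_co.DL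

open Finset

theorem fb_inj : Function.Injective ee := by
  intro x y h
  have h0 : x 0 = y 0 := congrArg Prod.fst h
  have h1 : x 1 = y 1 := congrArg Prod.snd h
  ext i
  fin_cases i
  · exact h0
  · exact h1

theorem fb_dsq (x y : Plane) : dsq (ee x) (ee y) = dist x y ^ 2 := by
  rw [EuclideanSpace.dist_eq, Real.sq_sqrt (by positivity), Fin.sum_univ_two, Real.dist_eq,
    Real.dist_eq, sq_abs, sq_abs]
  rfl

theorem fb_pin (P : Finset Plane) (P' : Finset Pt) (hP : ∀ z, z ∈ P' ↔ ∃ x ∈ P, ee x = z)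
    (q : Plane) : (pin P' (ee q)).card ≤ (distsFrom P q).card := by
  classical
  have h1 : pin P' (ee q) ⊆ (distsFrom P q).image (fun t => t ^ 2) := by
    intro t ht
    unfold pin at ht
    simp only [mem_image, mem_erase] at ht
    obtain ⟨z, ⟨hz, hz'⟩, rfl⟩ := ht
    obtain ⟨x, hx, rfl⟩ := (hP z).mp hz'
    refine mem_image.mpr ⟨dist q x, ?_, (fb_dsq q x).symm⟩
    unfold distsFrom
    simp only [mem_image, mem_erase]
    exact ⟨x, ⟨fun h => hz (by rw [h]), hx⟩, rfl⟩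
  exact (card_le_card h1).trans card_image_le

theorem fb_line {L : Set Pt} (hL : Ln L) : IsLine (ee ⁻¹' L) := by
  obtain ⟨a, b, c, h, rfl⟩ := hL
  exact ⟨a, b, c, h, rfl⟩

/-- (2) in the Euclidean plane -/
theorem fin_rich (P : Finset Plane) (hn : 2 ≤ P.card) (D : ℕ) (hD : ∀ q ∈ P, (distsFrom P q).card ≤ D)
    (Q : Finset Plane) (hQ : Q ⊆ P) (hQ0 : Q.Nonempty) :
    ∃ L, IsLine L ∧ Q.card * P.card ≤ 67108864 * onLine Q L * D ^ 2 := by
  classical
  have hb : ∀ L, onLine Q L ≤ Q.card := by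
    intro L
    unfold onLine
    exact card_filter_le _ _
  obtain ⟨q, hq⟩ := hQ0
  have hq1 : IsLine {z : Plane | 1 * z 0 + 0 * z 1 = q 0} := ⟨1, 0, q 0, Or.inl one_ne_zero, rfl⟩
  have hmem := Nat.sSup_mem (s := {n | ∃ L, IsLine L ∧ onLine Q L = n})
    ⟨_, _, hq1, rfl⟩ ⟨Q.card, by rintro n ⟨L, -, rfl⟩; exact hb L⟩
  obtain ⟨L0, hL0, hk⟩ := hmem
  have hmax : ∀ L, IsLine L → onLine Q L ≤ onLine Q L0 := by
    intro L hL
    rw [hk]
    exact le_csSup ⟨Q.card, by rintro n ⟨L, -, rfl⟩; exact hb L⟩ ⟨L, hL, rfl⟩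
  refine ⟨L0, hL0, ?_⟩
  have hk1 : 1 ≤ onLine Q L0 := by
    refine le_trans ?_ (hmax _ hq1)
    unfold onLine
    refine Nat.succ_le_of_lt (card_pos.mpr ⟨q, mem_filter.mpr ⟨hq, ?_⟩⟩)
    change 1 * q 0 + 0 * q 1 = q 0
    ring
  have hcP : (P.image ee).card = P.card := card_image_of_injective P fb_inj
  have hcQ : (Q.image ee).card = Q.card := card_image_of_injective Q fb_inj
  have h := rich (P.image ee) (Q.image ee) (image_subset_image hQ) (by rw [hcP]; exact hn) D
    (fun z hz => by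
      obtain ⟨x, hx, rfl⟩ := mem_image.mp hz
      exact (fb_pin P (P.image ee) (fun z => mem_image) x).trans (hD x hx))
    (onLine Q L0) hk1 (fun L hL F hF hFL => by
      refine le_trans ?_ (hmax _ (fb_line hL))
      unfold onLine
      have h1 : F ⊆ (Q.filter fun z => z ∈ ee ⁻¹' L).image ee := by
        intro z hz
        obtain ⟨x, hx, rfl⟩ := mem_image.mp (hF hz)
        exact mem_image.mpr ⟨x, mem_filter.mpr ⟨hx, hFL _ hz⟩, rfl⟩
      exact (card_le_card h1).trans card_image_le)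
  rw [hcP, hcQ] at h
  exact h

end Pool.Agent.Lib.MP_004b1b_co.DL
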