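import Pool.Agent.Lib.MP_004b1b_co.DL.Defs

/-!
# Greedy covering by lines

Strong induction on `|Q|`.  If `μ |Q| ≤ 1`: one line through every point.  Otherwise take a line `L` with at least `μ |Q|` points
of `Q`, `Q' = Q \ L`.  If `μ |Q'| ≤ 1`: `1 + |Q'| ≤ 1 + 1/μ ≤ 2/μ`.  Otherwise `|Q'| ≤ (1 - μ) |Q|`, so `μ < 1`, and
`1 + (1/μ) (2 + log (μ |Q'|)) ≤ 1 + (1/μ) (2 + log (μ |Q|) + log (1 - μ)) ≤ (1/μ) (2 + log (μ |Q|))` as `log (1 - μ) ≤ - μ`.
-/

set_option autoImplicit false

namespace Pool.Agent.Lib.MP_004b1b_co.DL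

open Finset

private theorem Grd_line (p : Pt) : ∃ L, Ln L ∧ p ∈ L :=
  ⟨ln 1 0 p.1, ⟨1, 0, p.1, Or.inl one_ne_zero, rfl⟩, by simp [ln]⟩

private theorem Grd_triv (Q : Finset Pt) :
    ∃ 𝓛 : Finset (Set Pt), (∀ L ∈ 𝓛, Ln L) ∧ (∀ p ∈ Q, ∃ L ∈ 𝓛, p ∈ L) ∧ 𝓛.card ≤ Q.card := by
  classical
  choose f hf using Grd_line
  refine ⟨Q.image f, ?_, ?_, card_image_le⟩
  · intro L hL
    obtain ⟨p, _, rfl⟩ := mem_image.1 hL
    exact (hf p).1
  · intro p hp
    exact ⟨f p, mem_image_of_mem f hp, (hf p).2⟩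

theorem greedy (P : Finset Pt) (μ : ℝ) (h0 : 0 < μ) (h1 : μ ≤ 1)
    (h : ∀ Q ⊆ P, Q.Nonempty → ∃ L, Ln L ∧ ∃ F ⊆ Q, (∀ z ∈ F, z ∈ L) ∧ μ * Q.card ≤ F.card) :
    ∃ 𝓛 : Finset (Set Pt), (∀ L ∈ 𝓛, Ln L) ∧ (∀ p ∈ P, ∃ L ∈ 𝓛, p ∈ L) ∧
      (𝓛.card : ℝ) ≤ (1 / μ) * (2 + Real.log (max 1 (μ * P.card))) := by
  classical
  have key : ∀ n : ℕ, ∀ Q ⊆ P, Q.card = n →
      ∃ 𝓛 : Finset (Set Pt), (∀ L ∈ 𝓛, Ln L) ∧ (∀ p ∈ Q, ∃ L ∈ 𝓛, p ∈ L) ∧
      (𝓛.card : ℝ) ≤ (1 / μ) * (2 + Real.log (max 1 (μ * Q.card))) ∧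
      (μ * Q.card ≤ 1 → (𝓛.card : ℝ) ≤ 1 / μ) := by
    intro n
    induction n using Nat.strong_induction_on with
    | _ n ih =>
      intro Q hQP hQn
      have hμ1 : 1 ≤ 1 / μ := by
        rw [le_div_iff₀ h0]; linarith
      rcases le_or_gt (μ * Q.card) 1 with hs | hs
      · obtain ⟨𝓛, a, b, c⟩ := Grd_triv Q
        have hc : (𝓛.card : ℝ) ≤ 1 / μ := by
          rw [le_div_iff₀ h0]
          have : (𝓛.card : ℝ) ≤ Q.card := by exact_mod_cast c
          nlinarith
        refine ⟨𝓛, a, b, ?_, fun _ => hc⟩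
        rw [max_eq_left hs, Real.log_one]
        nlinarith
      · have hne : Q.Nonempty := by
          rw [← card_pos]
          by_contra hcon
          have : Q.card = 0 := by omega
          rw [this] at hs
          norm_num at hs
        obtain ⟨L, hL, F, hFQ, hFL, hcard⟩ := h Q hQP hne
        have hFpos : 0 < F.card := by
          have : (0 : ℝ) < F.card := by linarith
          exact_mod_cast this
        have hQ' : (Q \ F).card < n := by
          rw [card_sdiff_of_subset hFQ]
          have := card_le_card hFQ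
          omega
        obtain ⟨𝓛, a, b, c, d⟩ := ih _ hQ' (Q \ F) (sdiff_subset.trans hQP) rfl
        have hcr : ((Q \ F).card : ℝ) = Q.card - F.card := by
          rw [card_sdiff_of_subset hFQ, Nat.cast_sub (card_le_card hFQ)]
        have hins : ((insert L 𝓛).card : ℝ) ≤ 𝓛.card + 1 := by
          exact_mod_cast card_insert_le L 𝓛
        refine ⟨insert L 𝓛, ?_, ?_, ?_, fun hh => absurd hh (not_le.2 hs)⟩
        · intro L' hL'
          rcases mem_insert.1 hL' with rfl | h'
          · exact hL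
          · exact a L' h'
        · intro p hp
          by_cases hpF : p ∈ F
          · exact ⟨L, mem_insert_self _ _, hFL p hpF⟩
          · obtain ⟨L', hL', hpL'⟩ := b p (mem_sdiff.2 ⟨hp, hpF⟩)
            exact ⟨L', mem_insert_of_mem hL', hpL'⟩
        · rw [max_eq_right hs.le]
          have hlogQ : 0 ≤ Real.log (μ * Q.card) := Real.log_nonneg hs.le
          rcases le_or_gt (μ * (Q \ F).card) 1 with hs' | hs'
          · have hd := d hs'
            have : 1 / μ * (2 + Real.log (μ * Q.card)) ≥ 1 / μ * 2 := by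
              gcongr
              linarith
            linarith
          · rw [max_eq_right hs'.le] at c
            have hle : ((Q \ F).card : ℝ) ≤ (1 - μ) * Q.card := by rw [hcr]; linarith
            have hQpos : (0 : ℝ) < Q.card := by exact_mod_cast card_pos.2 hne
            have hQ'pos : (0 : ℝ) < (Q \ F).card := by
              by_contra hcon
              have : ((Q \ F).card : ℝ) ≤ 0 := not_lt.1 hcon
              nlinarith
            have h1μ : 0 < 1 - μ := by
              by_contra hcon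
              have : 1 - μ ≤ 0 := not_lt.1 hcon
              nlinarith
            have hlog : Real.log (μ * (Q \ F).card) ≤ Real.log (μ * Q.card) - μ := by
              have h5 : Real.log (μ * (Q \ F).card) ≤ Real.log ((1 - μ) * (μ * Q.card)) := by
                apply Real.log_le_log (by positivity)
                nlinarith
              rw [Real.log_mul h1μ.ne' (by positivity)] at h5
              have h6 : Real.log (1 - μ) ≤ -μ := by
                have := Real.log_le_sub_one_of_pos h1μ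
                linarith
              linarith
            have h7 : 1 / μ * (2 + Real.log (μ * (Q \ F).card)) ≤
                1 / μ * (2 + (Real.log (μ * Q.card) - μ)) := by
              gcongr
            have h8 : 1 / μ * (2 + (Real.log (μ * Q.card) - μ)) =
                1 / μ * (2 + Real.log (μ * Q.card)) - 1 := by
              field_simp
              ring
            linarith
  obtain ⟨𝓛, a, b, c, _⟩ := key _ P subset_rfl rfl
  exact ⟨𝓛, a, b, c⟩

end Pool.Agent.Lib.MP_004b1b_co.DL
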