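import Pool.Agent.Lib.MP_004b1b_co.DL.FD
import Pool.Agent.Lib.MP_004b1b_co.DL.FB
import Pool.Agent.Lib.MP_004b1b_co.DL.Grd
import Pool.Agent.Lib.MP_004b1b_co.DL.Tri

/-!
# Covering in the Euclidean plane

`greedy` with `μ = 1 / T` and `fin_rich`; `T ≥ 1` by `tri`.  Transfer: `e x = (x 0, x 1)` is a bijection of `Plane` and `Pt` (inverse `!₂[z.1, z.2]`), `dist x y = √(dsq (e x) (e y))`
(`EuclideanSpace.dist_eq`, `Fin.sum_univ_two`), `√` is injective on nonnegative numbers, lines correspond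
(`IsLine (e ⁻¹' L)` iff `Ln L`).
-/

set_option autoImplicit false

namespace Pool.Agent.Lib.MP_004b1b_co.DL

open Finset

theorem fc_sel (P : Finset Plane) (hn : 2 ≤ P.card) (D : ℕ)
    (hD : ∀ q ∈ P, (distsFrom P q).card ≤ D) (T : ℝ) (hT0 : 0 < T)
    (hT : 67108864 * (D : ℝ) ^ 2 / P.card ≤ T) (P' : Finset Pt)
    (hP : ∀ z, z ∈ P' ↔ ∃ x ∈ P, ee x = z) (Q : Finset Pt) (hQ : Q ⊆ P') (hQ0 : Q.Nonempty) :
    ∃ L, Ln L ∧ ∃ F ⊆ Q, (∀ z ∈ F, z ∈ L) ∧ 1 / T * Q.card ≤ F.card := by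
  classical
  have himg : (P.filter fun x => ee x ∈ Q).image ee = Q := by
    ext z
    simp only [mem_image, mem_filter]
    constructor
    · rintro ⟨x, ⟨-, hx⟩, rfl⟩
      exact hx
    · intro hz
      obtain ⟨x, hx, rfl⟩ := (hP z).mp (hQ hz)
      exact ⟨x, ⟨hx, hz⟩, rfl⟩
  have hcard : (P.filter fun x => ee x ∈ Q).card = Q.card := by
    conv_rhs => rw [← himg]
    exact (card_image_of_injective _ fb_inj).symm
  obtain ⟨L, ⟨a, b, c, hab, rfl⟩, h1⟩ := fin_rich P hn D hD (P.filter fun x => ee x ∈ Q)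
    (filter_subset _ _) (by
      obtain ⟨z, hz⟩ := hQ0
      obtain ⟨x, hx, rfl⟩ := (hP z).mp (hQ hz)
      exact ⟨x, mem_filter.mpr ⟨hx, hz⟩⟩)
  refine ⟨ln a b c, ⟨a, b, c, hab, rfl⟩, Q.filter fun z => z ∈ ln a b c, filter_subset _ _,
    fun z hz => (mem_filter.mp hz).2, ?_⟩
  have h2 : onLine (P.filter fun x => ee x ∈ Q) {z | a * z 0 + b * z 1 = c} ≤
      (Q.filter fun z => z ∈ ln a b c).card := by
    unfold onLine
    refine card_le_card_of_injOn ee (fun x hx => ?_) fb_inj.injOn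
    have hx1 := mem_filter.mp hx
    have hx2 := mem_filter.mp hx1.1
    exact mem_filter.mpr ⟨hx2.2, hx1.2⟩
  have hnpos : (0 : ℝ) < P.card := by
    have : 0 < P.card := by omega
    exact_mod_cast this
  rw [hcard] at h1
  have h3 : (Q.card : ℝ) * P.card ≤ 67108864 *
      (onLine (P.filter fun x => ee x ∈ Q) {z | a * z 0 + b * z 1 = c} : ℝ) * (D : ℝ) ^ 2 := by
    exact_mod_cast h1
  have h4 : (onLine (P.filter fun x => ee x ∈ Q) {z | a * z 0 + b * z 1 = c} : ℝ) ≤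
      (Q.filter fun z => z ∈ ln a b c).card := by exact_mod_cast h2
  rw [div_le_iff₀ hnpos] at hT
  rw [one_div, inv_mul_le_iff₀ hT0]
  have h5 : (Q.card : ℝ) * P.card ≤ T * (Q.filter fun z => z ∈ ln a b c).card * P.card := by
    calc (Q.card : ℝ) * P.card ≤ 67108864 *
          (onLine (P.filter fun x => ee x ∈ Q) {z | a * z 0 + b * z 1 = c} : ℝ) * (D : ℝ) ^ 2 := h3
      _ ≤ 67108864 * ((Q.filter fun z => z ∈ ln a b c).card : ℝ) * (D : ℝ) ^ 2 := by gcongr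
      _ = (67108864 * (D : ℝ) ^ 2) * (Q.filter fun z => z ∈ ln a b c).card := by ring
      _ ≤ (T * P.card) * (Q.filter fun z => z ∈ ln a b c).card := by gcongr
      _ = T * (Q.filter fun z => z ∈ ln a b c).card * P.card := by ring
  exact le_of_mul_le_mul_right h5 hnpos

/-- (3) in the Euclidean plane: `μ = n / (67108864 D^2)`, `μ ≤ 1` by `tri` -/
theorem fin_cover (P : Finset Plane) (hn : 2 ≤ P.card) (D : ℕ)
    (hD : ∀ q ∈ P, (distsFrom P q).card ≤ D) (T : ℝ) (hT : 67108864 * (D : ℝ) ^ 2 / P.card ≤ T) :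
    ∃ 𝓛 : Finset (Set Plane), (∀ L ∈ 𝓛, IsLine L) ∧ (∀ p ∈ P, ∃ L ∈ 𝓛, p ∈ L) ∧
      (𝓛.card : ℝ) ≤ T * (2 + Real.log (max 1 (P.card / T))) := by
  classical
  have hcP : (P.image ee).card = P.card := card_image_of_injective P fb_inj
  obtain ⟨hD1, hn4⟩ := tri (P.image ee) (by rw [hcP]; exact hn) D (fun z hz => by
    obtain ⟨x, hx, rfl⟩ := mem_image.mp hz
    exact (fb_pin P (P.image ee) (fun z => mem_image) x).trans (hD x hx))
  rw [hcP] at hn4
  have hnpos : (0 : ℝ) < P.card := by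
    have : 0 < P.card := by omega
    exact_mod_cast this
  have hT1 : 1 ≤ T := by
    refine le_trans ?_ hT
    rw [le_div_iff₀ hnpos]
    have h1 : (P.card : ℝ) ≤ 4 * (D : ℝ) ^ 2 := by exact_mod_cast hn4
    nlinarith [sq_nonneg (D : ℝ)]
  have hT0 : 0 < T := by linarith
  obtain ⟨𝓛, h1, h2, h3⟩ := greedy (P.image ee) (1 / T) (by positivity)
    ((div_le_one hT0).mpr hT1)
    (fun Q hQ hQ0 => fc_sel P hn D hD T hT0 hT (P.image ee) (fun z => mem_image) Q hQ hQ0)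
  refine ⟨𝓛.image fun L => ee ⁻¹' L, ?_, ?_, ?_⟩
  · intro L hL
    obtain ⟨L1, hL1, rfl⟩ := mem_image.mp hL
    exact fb_line (h1 L1 hL1)
  · intro p hp
    obtain ⟨L, hL, hpL⟩ := h2 (ee p) (mem_image_of_mem ee hp)
    exact ⟨ee ⁻¹' L, mem_image_of_mem _ hL, hpL⟩
  · have h4 : ((𝓛.image fun L => ee ⁻¹' L).card : ℝ) ≤ 𝓛.card := by
      exact_mod_cast card_image_le
    refine h4.trans (h3.trans (le_of_eq ?_))
    rw [hcP, one_div_one_div, one_div, inv_mul_eq_div]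

end Pool.Agent.Lib.MP_004b1b_co.DL
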