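import Pool.Agent.Lib.MP_004b1b_co.DL.Defs

/-!
# The Euclidean plane, definitions
-/

set_option autoImplicit false

namespace Pool.Agent.Lib.MP_004b1b_co.DL

open Finset

/-- the Euclidean plane -/
abbrev Plane : Type := EuclideanSpace ℝ (Fin 2)

/-- `L` is a line -/
def IsLine (L : Set Plane) : Prop := ∃ a b c : ℝ, (a ≠ 0 ∨ b ≠ 0) ∧ L = {z | a * z 0 + b * z 1 = c}

/-- the set of distances of a finite set -/
noncomputable def dists (P : Finset Plane) : Finset ℝ := P.offDiag.image (fun x => dist x.1 x.2)

/-- the set of distances from `q` to the other points of `P` -/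
noncomputable def distsFrom (P : Finset Plane) (q : Plane) : Finset ℝ := by
  classical exact (P.erase q).image (dist q)

/-- `P` is extremal: no set of the same size has fewer distances -/
def Extremal (P : Finset Plane) : Prop :=
  ∀ P' : Finset Plane, P'.card = P.card → (dists P).card ≤ (dists P').card

/-- number of points of `P` on `L` -/
noncomputable def onLine (P : Finset Plane) (L : Set Plane) : ℕ := by
  classical exact (P.filter (fun z => z ∈ L)).card

/-- the bijection -/
def ee (x : Plane) : Pt := (x 0, x 1)

end Pool.Agent.Lib.MP_004b1b_co.DL
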