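import Pool.Agent.Lib.MP_004b1b_co.DL.Defs
import Pool.Agent.Lib.MP_1a9bf8_co.UPP

/-!
# A set with few distances

`N = Nat.sqrt n + 1`, `P` = the image in the plane of `n` points of `DG.box N` (`N^2 ≥ n`; exists_subset_card_eq).  The squared
distances are the numbers `nq (a - b)`, so at most `C N^2 / √(log N)` (`DG.upp`), and `N^2 ≤ 4 n`, `log N ≥ (log n) / 2`.
-/

set_option autoImplicit false

namespace Pool.Agent.Lib.MP_004b1b_co.DL

open Finset

theorem grid : ∃ A : ℝ, 1 ≤ A ∧ ∀ n : ℕ, 2 ≤ n → ∃ P : Finset Pt, P.card = n ∧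
    ∃ S : Finset ℝ, (∀ p ∈ P, ∀ q ∈ P, p ≠ q → dsq p q ∈ S) ∧
      (S.card : ℝ) ≤ A * n / √(Real.log n) := by
  classical
  obtain ⟨C, hC, hupp⟩ := DG.upp
  refine ⟨1 + 8 * C, by linarith, fun n hn => ?_⟩
  have hn2 : (2 : ℝ) ≤ n := by exact_mod_cast hn
  have hlog : 0 < Real.log n := Real.log_pos (by linarith)
  set s := Nat.sqrt n with hs
  have hs1 : 1 ≤ s := Nat.le_sqrt.2 (by omega)
  have hss : s * s ≤ n := Nat.sqrt_le n
  have hlt : n < (s + 1) * (s + 1) := Nat.lt_succ_sqrt n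
  have hboxcard : (DG.box (s + 1)).card = (s + 1) * (s + 1) := by
    unfold DG.box
    rw [card_product, Int.card_Ico]
    simp
  obtain ⟨T, hT, hTc⟩ := exists_subset_card_eq (s := DG.box (s + 1)) (n := n) (by omega)
  have hinj : Function.Injective (fun z : ℤ × ℤ => (((z.1 : ℝ), (z.2 : ℝ)) : Pt)) := by
    intro a b hab
    have h1 := congrArg Prod.fst hab
    have h2 := congrArg Prod.snd hab
    simp only at h1 h2
    exact Prod.ext (by exact_mod_cast h1) (by exact_mod_cast h2)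
  refine ⟨T.image (fun z : ℤ × ℤ => (((z.1 : ℝ), (z.2 : ℝ)) : Pt)), ?_, ?_⟩
  · rw [card_image_of_injective _ hinj, hTc]
  refine ⟨((DG.box (s + 1) ×ˢ DG.box (s + 1)).image (fun x => DG.nq (x.1 - x.2))).image
    (fun m : ℕ => (m : ℝ)), ?_, ?_⟩
  · intro p hp q hq _
    obtain ⟨a, ha, rfl⟩ := mem_image.1 hp
    obtain ⟨b, hb, rfl⟩ := mem_image.1 hq
    refine mem_image.2 ⟨DG.nq (a - b), mem_image.2 ⟨(a, b), mem_product.2 ⟨hT ha, hT hb⟩, rfl⟩, ?_⟩
    unfold dsq DG.nq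
    have e : ∀ z : ℤ, ((z.natAbs : ℕ) : ℝ) ^ 2 = (z : ℝ) ^ 2 := by
      intro z
      have h := Int.natAbs_sq z
      have h2 : (((z.natAbs : ℕ) : ℤ) : ℝ) ^ 2 = (z : ℝ) ^ 2 := by exact_mod_cast h
      rw [← h2]
      simp
    push_cast
    rw [e, e]
    show (((a.1 - b.1 : ℤ) : ℝ)) ^ 2 + (((a.2 - b.2 : ℤ) : ℝ)) ^ 2 = _
    push_cast
    ring
  · have h1 : ((((DG.box (s + 1) ×ˢ DG.box (s + 1)).image (fun x => DG.nq (x.1 - x.2))).image
        (fun m : ℕ => (m : ℝ))).card : ℝ) ≤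
        (((DG.box (s + 1) ×ˢ DG.box (s + 1)).image (fun x => DG.nq (x.1 - x.2))).card : ℝ) := by
      exact_mod_cast card_image_le
    refine h1.trans ((hupp (s + 1) (by omega)).trans ?_)
    have hN2 : ((s + 1 : ℕ) : ℝ) ^ 2 ≤ 4 * n := by
      have : (s + 1) ^ 2 ≤ 4 * n := by nlinarith
      exact_mod_cast this
    have hlogN : Real.log n / 2 ≤ Real.log ((s + 1 : ℕ) : ℝ) := by
      have h2 : Real.log n ≤ Real.log (((s + 1 : ℕ) : ℝ) ^ 2) := by
        apply Real.log_le_log (by linarith)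
        have : n ≤ (s + 1) ^ 2 := by nlinarith
        exact_mod_cast this
      rw [Real.log_pow] at h2
      push_cast at h2 ⊢
      linarith
    have hsq : √(Real.log n) / 2 ≤ √(Real.log ((s + 1 : ℕ) : ℝ)) := by
      have h3 : √(Real.log n) / 2 ≤ √(Real.log n / 2) := by
        apply Real.le_sqrt_of_sq_le
        rw [div_pow, Real.sq_sqrt hlog.le]
        linarith
      exact h3.trans (Real.sqrt_le_sqrt hlogN)
    have hsp : 0 < √(Real.log n) := Real.sqrt_pos.2 hlog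
    have hsp2 : 0 < √(Real.log ((s + 1 : ℕ) : ℝ)) := by linarith
    rw [div_le_div_iff₀ hsp2 hsp]
    calc C * ((s + 1 : ℕ) : ℝ) ^ 2 * √(Real.log n) ≤ C * (4 * n) * √(Real.log n) := by gcongr
      _ = (8 * C) * n * (√(Real.log n) / 2) := by ring
      _ ≤ (1 + 8 * C) * n * √(Real.log ((s + 1 : ℕ) : ℝ)) := by
          gcongr
          linarith

end Pool.Agent.Lib.MP_004b1b_co.DL
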