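import Pool.Agent.Lib.MP_004b1b_co.DL.FD
import Pool.Agent.Lib.MP_004b1b_co.DL.Grid

/-!
# Extremal sets have few distances

`grid`; the distances of the transferred set are the square roots of elements of `S`.  Transfer: `e x = (x 0, x 1)` is a bijection of `Plane` and `Pt` (inverse `!₂[z.1, z.2]`), `dist x y = √(dsq (e x) (e y))`
(`EuclideanSpace.dist_eq`, `Fin.sum_univ_two`), `√` is injective on nonnegative numbers, lines correspond
(`IsLine (e ⁻¹' L)` iff `Ln L`).
-/

set_option autoImplicit false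

namespace Pool.Agent.Lib.MP_004b1b_co.DL

open Finset

private theorem FE_dist (z w : Pt) :
    dist (!₂[z.1, z.2] : Plane) (!₂[w.1, w.2] : Plane) = √(dsq z w) := by
  rw [EuclideanSpace.dist_eq, Fin.sum_univ_two]
  unfold dsq
  congr 1
  simp [Real.dist_eq, sq_abs]

private theorem FE_inj : Function.Injective (fun z : Pt => (!₂[z.1, z.2] : Plane)) := by
  intro z w h
  have h0 := congrArg (fun x : Plane => x 0) h
  have h1 := congrArg (fun x : Plane => x 1) h
  simp at h0 h1
  exact Prod.ext h0 h1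

/-- few distances for extremal sets -/
theorem fin_ext : ∃ A : ℝ, 1 ≤ A ∧ ∀ P : Finset Plane, 2 ≤ P.card → Extremal P →
    ((dists P).card : ℝ) ≤ A * P.card / √(Real.log P.card) := by
  classical
  obtain ⟨A, hA, hgrid⟩ := grid
  refine ⟨A, hA, fun P hP hE => ?_⟩
  obtain ⟨G, hG, S, hS, hSc⟩ := hgrid P.card hP
  set P' : Finset Plane := G.image (fun z : Pt => (!₂[z.1, z.2] : Plane)) with hP'
  have hcard : P'.card = P.card := by
    rw [hP', card_image_of_injective _ FE_inj, hG]
  have h1 := hE P' hcard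
  have h2 : dists P' ⊆ S.image (fun x => √x) := by
    intro d hd
    unfold dists at hd
    obtain ⟨⟨x, y⟩, hxy, rfl⟩ := mem_image.1 hd
    obtain ⟨hx, hy, hne⟩ := mem_offDiag.1 hxy
    obtain ⟨z, hz, rfl⟩ := mem_image.1 hx
    obtain ⟨w, hw, rfl⟩ := mem_image.1 hy
    have hzw : z ≠ w := fun h => hne (by rw [h])
    exact mem_image.2 ⟨dsq z w, hS z hz w hw hzw, (FE_dist z w).symm⟩
  have h3 : (dists P).card ≤ S.card := h1.trans ((card_le_card h2).trans card_image_le)
  have h4 : ((dists P).card : ℝ) ≤ S.card := by exact_mod_cast h3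
  exact h4.trans hSc

end Pool.Agent.Lib.MP_004b1b_co.DL
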