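import Pool.Agent.Lib.MP_004b1b_co.DL.FD

/-!
# The function `v`
-/

set_option autoImplicit false

namespace Pool.Agent.Lib.MP_004b1b_co.DL

open Finset

/-- the minimum number of distances determined by `n` points in the plane -/
noncomputable def v (n : ℕ) : ℕ := sInf {m | ∃ P : Finset Plane, P.card = n ∧ (dists P).card = m}

/-- `q` lies on at least `N` lines which contain more than `k` points of `Q` each -/
def ManyRich (Q : Finset Plane) (k : ℕ) (N : ℝ) (q : Plane) : Prop :=
  ∃ 𝓛 : Finset (Set Plane), (∀ L ∈ 𝓛, IsLine L ∧ q ∈ L ∧ k < onLine Q L) ∧ N ≤ 𝓛.card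

theorem extremal_of_v {P : Finset Plane} (h : (dists P).card = v P.card) : Extremal P := by
  intro P' hP'
  rw [h]
  exact Nat.sInf_le ⟨P', hP', rfl⟩

theorem distsFrom_le {P : Finset Plane} {q : Plane} (hq : q ∈ P) :
    (distsFrom P q).card ≤ (dists P).card := by
  classical
  refine card_le_card ?_
  intro t ht
  unfold distsFrom at ht
  unfold dists
  obtain ⟨x, hx, rfl⟩ := mem_image.1 ht
  obtain ⟨h1, h2⟩ := mem_erase.1 hx
  exact mem_image.2 ⟨(q, x), mem_offDiag.2 ⟨hq, h2, fun h => h1 h.symm⟩, rfl⟩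

end Pool.Agent.Lib.MP_004b1b_co.DL
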