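import Pool.Agent.Lib.MP_004b1b_co.DL.WR
import Pool.Agent.Lib.MP_004b1b_co.DL.FB
import Pool.Agent.Lib.MP_004b1b_co.DL.FA

/-!
# Weighted lines in the Euclidean plane and fractional covers
-/

set_option autoImplicit false

namespace Pool.Agent.Lib.MP_004b1b_co.DL

open Finset

/-- the weight of a line -/
noncomputable def wL (P : Finset Plane) (w : Plane → ℕ) (L : Set Plane) : ℕ := by
  classical exact ∑ p ∈ P with p ∈ L, w p

theorem wL_le (P : Finset Plane) (w : Plane → ℕ) (L : Set Plane) : wL P w L ≤ ∑ p ∈ P, w p := by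
  classical
  unfold wL
  exact sum_le_sum_of_subset (filter_subset _ _)

/-- (2) with weights in the Euclidean plane -/
theorem fin_wrich (P : Finset Plane) (hn : 2 ≤ P.card) (D : ℕ) (hD : ∀ q ∈ P, (distsFrom P q).card ≤ D)
    (w : Plane → ℕ) :
    ∃ L, IsLine L ∧ (∑ p ∈ P, w p) * P.card ≤ 1073741824 * wL P w L * D ^ 2 := by
  classical
  have hq1 : IsLine {z : Plane | 1 * z 0 + 0 * z 1 = 0} := ⟨1, 0, 0, Or.inl one_ne_zero, rfl⟩
  rcases Nat.eq_zero_or_pos (∑ p ∈ P, w p) with h0 | h0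
  · refine ⟨_, hq1, ?_⟩
    rw [h0, zero_mul]
    exact Nat.zero_le _
  have hmem := Nat.sSup_mem (s := {n | ∃ L, IsLine L ∧ wL P w L = n})
    ⟨_, _, hq1, rfl⟩ ⟨∑ p ∈ P, w p, by rintro n ⟨L, -, rfl⟩; exact wL_le P w L⟩
  obtain ⟨L0, hL0, hk⟩ := hmem
  have hmax : ∀ L, IsLine L → wL P w L ≤ wL P w L0 := by
    intro L hL
    rw [hk]
    exact le_csSup ⟨∑ p ∈ P, w p, by rintro n ⟨L, -, rfl⟩; exact wL_le P w L⟩ ⟨L, hL, rfl⟩
  refine ⟨L0, hL0, ?_⟩
  have hk1 : 1 ≤ wL P w L0 := by
    obtain ⟨p, hp, hwp⟩ : ∃ p ∈ P, 0 < w p := by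
      by_contra hc
      push Not at hc
      have : ∑ p ∈ P, w p = 0 := sum_eq_zero fun p hp => by
        have := hc p hp
        omega
      omega
    have hpl : IsLine {z : Plane | 1 * z 0 + 0 * z 1 = p 0} := ⟨1, 0, p 0, Or.inl one_ne_zero, rfl⟩
    refine le_trans ?_ (hmax _ hpl)
    have hmemp : p ∈ P.filter (fun q => q ∈ {z : Plane | 1 * z 0 + 0 * z 1 = p 0}) := by
      refine mem_filter.2 ⟨hp, ?_⟩
      change 1 * p 0 + 0 * p 1 = p 0
      ring
    have h1 : w p ≤ wL P w {z : Plane | 1 * z 0 + 0 * z 1 = p 0} := by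
      unfold wL
      exact single_le_sum (f := w) (fun q _ => Nat.zero_le _) hmemp
    omega
  have hinv : ∀ p : Plane, (!₂[(ee p).1, (ee p).2] : Plane) = p := by
    intro p
    ext i
    fin_cases i <;> simp [ee]
  have hcP : (P.image ee).card = P.card := card_image_of_injective P fb_inj
  have hsumP : ∑ z ∈ P.image ee, w (!₂[z.1, z.2] : Plane) = ∑ p ∈ P, w p := by
    rw [sum_image (fun x _ y _ h => fb_inj h)]
    exact sum_congr rfl fun p _ => by rw [hinv]
  have h := wrich (P.image ee) (by rw [hcP]; exact hn) D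
    (fun z hz => by
      obtain ⟨x, hx, rfl⟩ := mem_image.mp hz
      exact (fb_pin P (P.image ee) (fun z => mem_image) x).trans (hD x hx))
    (fun z => w (!₂[z.1, z.2] : Plane)) (wL P w L0) hk1 (fun L hL F hF hFL => by
      refine le_trans ?_ (hmax _ (fb_line hL))
      unfold wL
      have h1 : F ⊆ (P.filter fun z => z ∈ ee ⁻¹' L).image ee := by
        intro z hz
        obtain ⟨x, hx, rfl⟩ := mem_image.mp (hF hz)
        exact mem_image.mpr ⟨x, mem_filter.mpr ⟨hx, hFL _ hz⟩, rfl⟩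
      refine (sum_le_sum_of_subset h1).trans (le_of_eq ?_)
      rw [sum_image (fun x _ y _ h => fb_inj h)]
      exact sum_congr rfl fun p _ => by rw [hinv])
  rw [hcP, hsumP] at h
  exact h

/-- number of the indices `i < N` with `p ∈ L i` -/
noncomputable def cv (L : ℕ → Set Plane) (N : ℕ) (p : Plane) : ℕ := by
  classical exact ((range N).filter (fun i => p ∈ L i)).card

theorem cv_le (L : ℕ → Set Plane) (N : ℕ) (p : Plane) : cv L N p ≤ N := by
  classical
  unfold cv
  exact (card_filter_le _ _).trans (le_of_eq (card_range N))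

/-- multiplicative weights -/
theorem mwu (P : Finset Plane) (μ : ℝ)
    (h : ∀ w : Plane → ℕ, ∃ L, IsLine L ∧ μ * (∑ p ∈ P, w p : ℕ) ≤ wL P w L) (hμ2 : μ ≤ 1) (N : ℕ) :
    ∃ L : ℕ → Set Plane, (∀ i, IsLine (L i)) ∧
      ∑ p ∈ P, (1 / 2 : ℝ) ^ cv L N p ≤ P.card * (1 - μ / 2) ^ N := by
  classical
  induction N with
  | zero =>
    refine ⟨fun _ => {z : Plane | 1 * z 0 + 0 * z 1 = 0}, fun _ => ⟨1, 0, 0, Or.inl one_ne_zero, rfl⟩, ?_⟩
    have h0 : ∀ p : Plane, cv (fun _ => {z : Plane | 1 * z 0 + 0 * z 1 = 0}) 0 p = 0 := by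
      intro p
      have := cv_le (fun _ => {z : Plane | 1 * z 0 + 0 * z 1 = 0}) 0 p
      omega
    rw [sum_congr rfl (fun p _ => by rw [h0 p])]
    simp
  | succ N ih =>
    obtain ⟨L, hL, hS⟩ := ih
    obtain ⟨M, hM, hw⟩ := h (fun p => 2 ^ (N - cv L N p))
    refine ⟨fun i => if i = N then M else L i, ?_, ?_⟩
    · intro i
      by_cases hi : i = N
      · simp only [hi, if_true]
        exact hM
      · simp only [hi, if_false]
        exact hL i
    have hcv : ∀ p, cv (fun i => if i = N then M else L i) (N + 1) p =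
        cv L N p + if p ∈ M then 1 else 0 := by
      intro p
      unfold cv
      rw [range_add_one, filter_insert]
      have e1 : (range N).filter (fun i => p ∈ if i = N then M else L i) =
          (range N).filter (fun i => p ∈ L i) := by
        refine filter_congr ?_
        intro i hi
        have : i ≠ N := by
          have := mem_range.1 hi
          omega
        rw [if_neg this]
      by_cases hp : p ∈ M
      · have hp' : p ∈ if N = N then M else L N := by rw [if_pos rfl]; exact hp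
        rw [if_pos hp', card_insert_of_notMem (by simp), e1, if_pos hp]
      · have hp' : p ∉ if N = N then M else L N := by rw [if_pos rfl]; exact hp
        rw [if_neg hp', e1, if_neg hp, add_zero]
    have hx : ∀ p, (1 / 2 : ℝ) ^ cv (fun i => if i = N then M else L i) (N + 1) p =
        (1 / 2 : ℝ) ^ cv L N p - (if p ∈ M then (1 / 2 : ℝ) * (1 / 2 : ℝ) ^ cv L N p else 0) := by
      intro p
      rw [hcv]
      by_cases hp : p ∈ M
      · rw [if_pos hp, if_pos hp, pow_succ]
        ring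
      · rw [if_neg hp, if_neg hp, add_zero, sub_zero]
    have hw2 : ∀ p, (1 / 2 : ℝ) ^ cv L N p = ((2 ^ (N - cv L N p) : ℕ) : ℝ) / 2 ^ N := by
      intro p
      have h1 := cv_le L N p
      have h2 : (2 : ℝ) ^ N = 2 ^ (N - cv L N p) * 2 ^ cv L N p := by
        rw [← pow_add]
        congr 1
        omega
      rw [h2]
      push_cast
      rw [one_div, inv_pow]
      field_simp
    have hMsum : μ * ∑ p ∈ P, (1 / 2 : ℝ) ^ cv L N p ≤ ∑ p ∈ P with p ∈ M, (1 / 2 : ℝ) ^ cv L N p := by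
      have e1 : ∑ p ∈ P, (1 / 2 : ℝ) ^ cv L N p = ((∑ p ∈ P, 2 ^ (N - cv L N p) : ℕ) : ℝ) / 2 ^ N := by
        rw [Nat.cast_sum, sum_div]
        exact sum_congr rfl fun p _ => hw2 p
      have e2 : ∑ p ∈ P with p ∈ M, (1 / 2 : ℝ) ^ cv L N p =
          ((wL P (fun p => 2 ^ (N - cv L N p)) M : ℕ) : ℝ) / 2 ^ N := by
        unfold wL
        rw [Nat.cast_sum, sum_div]
        exact sum_congr rfl fun p _ => hw2 p
      rw [e1, e2, ← mul_div_assoc]
      exact div_le_div_of_nonneg_right hw (by positivity)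
    have hsum : ∑ p ∈ P, (1 / 2 : ℝ) ^ cv (fun i => if i = N then M else L i) (N + 1) p =
        ∑ p ∈ P, (1 / 2 : ℝ) ^ cv L N p - (1 / 2) * ∑ p ∈ P with p ∈ M, (1 / 2 : ℝ) ^ cv L N p := by
      rw [sum_congr rfl (fun p _ => hx p), sum_sub_distrib, mul_sum, sum_filter]
    rw [hsum]
    have h3 : (0 : ℝ) ≤ 1 - μ / 2 := by linarith
    calc ∑ p ∈ P, (1 / 2 : ℝ) ^ cv L N p - (1 / 2) * ∑ p ∈ P with p ∈ M, (1 / 2 : ℝ) ^ cv L N p
        ≤ ∑ p ∈ P, (1 / 2 : ℝ) ^ cv L N p - (1 / 2) * (μ * ∑ p ∈ P, (1 / 2 : ℝ) ^ cv L N p) := by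
          linarith
      _ = (1 - μ / 2) * ∑ p ∈ P, (1 / 2 : ℝ) ^ cv L N p := by ring
      _ ≤ (1 - μ / 2) * (P.card * (1 - μ / 2) ^ N) := mul_le_mul_of_nonneg_left hS h3
      _ = P.card * (1 - μ / 2) ^ (N + 1) := by rw [pow_succ]; ring

/-- a fractional cover by lines -/
theorem frac (P : Finset Plane) (hP : P.Nonempty) (μ : ℝ) (h0 : 0 < μ) (hμ : μ ≤ 1)
    (h : ∀ w : Plane → ℕ, ∃ L, IsLine L ∧ μ * (∑ p ∈ P, w p : ℕ) ≤ wL P w L) :
    ∃ 𝓛 : Finset (Set Plane), ∃ x : Set Plane → ℝ, (∀ L ∈ 𝓛, IsLine L ∧ 0 ≤ x L) ∧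
      ∑ L ∈ 𝓛, x L ≤ 4 / μ ∧ ∀ p ∈ P, 1 ≤ ∑ L ∈ 𝓛, L.indicator (fun _ => x L) p := by
  classical
  have hn : (0 : ℝ) < P.card := by exact_mod_cast card_pos.2 hP
  obtain ⟨N, hN⟩ : ∃ N : ℕ, N = ⌈4 * Real.log P.card / μ⌉₊ + 1 := ⟨_, rfl⟩
  have hN1 : 1 ≤ N := by omega
  have hNr : 4 * Real.log P.card / μ ≤ N := by
    rw [hN]
    push_cast
    have := Nat.le_ceil (4 * Real.log P.card / μ)
    linarith
  have hN0 : (0 : ℝ) < N := by exact_mod_cast hN1
  obtain ⟨L, hL, hS⟩ := mwu P μ h hμ N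
  have hc : ∀ p ∈ P, μ * N / 4 ≤ cv L N p := by
    intro p hp
    have h1 : (1 / 2 : ℝ) ^ cv L N p ≤ P.card * (1 - μ / 2) ^ N :=
      (single_le_sum (f := fun p => (1 / 2 : ℝ) ^ cv L N p) (fun q _ => by positivity) hp).trans hS
    have h2 : (1 - μ / 2) ^ N ≤ Real.exp (-(μ * N / 2)) := by
      have h3 : 1 - μ / 2 ≤ Real.exp (-(μ / 2)) := by
        have := Real.add_one_le_exp (-(μ / 2))
        linarith
      calc (1 - μ / 2) ^ N ≤ (Real.exp (-(μ / 2))) ^ N := pow_le_pow_left₀ (by linarith) h3 N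
        _ = Real.exp (-(μ * N / 2)) := by
          rw [← Real.exp_nat_mul]
          congr 1
          ring
    have h3 : (P.card : ℝ) ≤ Real.exp (μ * N / 4) := by
      rw [← Real.exp_log hn]
      apply Real.exp_le_exp.2
      rw [div_le_iff₀ h0] at hNr
      linarith
    have h4 : (1 / 2 : ℝ) ^ cv L N p ≤ Real.exp (-(μ * N / 4)) := by
      calc (1 / 2 : ℝ) ^ cv L N p ≤ P.card * (1 - μ / 2) ^ N := h1
        _ ≤ Real.exp (μ * N / 4) * Real.exp (-(μ * N / 2)) :=
          mul_le_mul h3 h2 (pow_nonneg (by linarith) N) (Real.exp_pos _).le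
        _ = Real.exp (-(μ * N / 4)) := by
          rw [← Real.exp_add]
          congr 1
          ring
    have h5 : Real.exp (-(cv L N p : ℝ)) ≤ (1 / 2 : ℝ) ^ cv L N p := by
      have h6 : Real.exp (-1) ≤ 1 / 2 := by
        rw [Real.exp_neg, one_div]
        apply inv_anti₀ (by norm_num)
        have := Real.add_one_le_exp (1 : ℝ)
        linarith
      calc Real.exp (-(cv L N p : ℝ)) = (Real.exp (-1)) ^ cv L N p := by
            rw [← Real.exp_nat_mul]
            congr 1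
            ring
        _ ≤ _ := pow_le_pow_left₀ (Real.exp_pos _).le h6 _
    have h7 := Real.exp_le_exp.1 (h5.trans h4)
    linarith
  have hcv : ∀ p, (cv L N p : ℝ) = ∑ i ∈ range N, (L i).indicator (fun _ => (1 : ℝ)) p := by
    intro p
    unfold cv
    rw [card_filter]
    push_cast
    refine sum_congr rfl ?_
    intro i _
    rw [Set.indicator_apply]
  refine ⟨(range N).image L, fun M => (4 / (μ * N)) * ((range N).filter (fun i => L i = M)).card, ?_, ?_, ?_⟩
  · intro M hM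
    obtain ⟨i, _, rfl⟩ := mem_image.1 hM
    exact ⟨hL i, by positivity⟩
  · rw [← mul_sum]
    have h1 : ∑ M ∈ (range N).image L, (((range N).filter (fun i => L i = M)).card : ℝ) = N := by
      have := card_eq_sum_card_image L (range N)
      rw [card_range] at this
      exact_mod_cast this.symm
    rw [h1]
    refine le_of_eq ?_
    field_simp
  · intro p hp
    have h1 : ∑ M ∈ (range N).image L, M.indicator
        (fun _ => (4 / (μ * N)) * (((range N).filter (fun i => L i = M)).card : ℝ)) p =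
        (4 / (μ * N)) * cv L N p := by
      rw [hcv, mul_sum, ← sum_fiberwise_of_maps_to (s := range N) (t := (range N).image L) (g := L)
        (fun i hi => mem_image_of_mem L hi)]
      refine sum_congr rfl ?_
      intro M _
      have h2 : ∑ i ∈ range N with L i = M, (4 / (μ * N)) * (L i).indicator (fun _ => (1 : ℝ)) p =
          ∑ i ∈ range N with L i = M, (4 / (μ * N)) * M.indicator (fun _ => (1 : ℝ)) p := by
        refine sum_congr rfl ?_
        intro i hi
        rw [(mem_filter.1 hi).2]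
      rw [h2, sum_const, nsmul_eq_mul]
      by_cases hpM : p ∈ M
      · rw [Set.indicator_of_mem hpM, Set.indicator_of_mem hpM]
        ring
      · rw [Set.indicator_of_notMem hpM, Set.indicator_of_notMem hpM]
        ring
    rw [h1]
    have h2 := hc p hp
    have h3 : (4 / (μ * N)) * (μ * N / 4) = 1 := by field_simp
    calc (1 : ℝ) = (4 / (μ * N)) * (μ * N / 4) := h3.symm
      _ ≤ _ := mul_le_mul_of_nonneg_left h2 (by positivity)

end Pool.Agent.Lib.MP_004b1b_co.DL
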