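import Pool.Agent.Lib.MP_004b1b_co.DL.FV
import Pool.Agent.Lib.MP_004b1b_co.DL.FAQ
import Pool.Agent.Lib.MP_004b1b_co.DL.FB
import Pool.Agent.Lib.MP_004b1b_co.DL.FC
import Pool.Agent.Lib.MP_004b1b_co.DL.FE
import Pool.Agent.Lib.MP_004b1b_co.DL.WF

/-!
# Extremal sets
-/

set_option autoImplicit false

namespace Pool.Agent.Lib.MP_004b1b_co.DL

open Finset

theorem fx_sq : ∃ A : ℝ, 1 ≤ A ∧ ∀ P : Finset Plane, 2 ≤ P.card → Extremal P →
    ((dists P).card : ℝ) ≤ A * P.card / √(Real.log P.card) ∧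
    ((dists P).card : ℝ) ^ 2 * Real.log P.card ≤ A ^ 2 * (P.card : ℝ) ^ 2 := by
  obtain ⟨A, hA, h⟩ := fin_ext
  refine ⟨A, hA, fun P hP hE => ⟨h P hP hE, ?_⟩⟩
  have h1 := h P hP hE
  have hn : (1 : ℝ) < P.card := by
    have : 1 < P.card := by omega
    exact_mod_cast this
  have hl : 0 < Real.log P.card := Real.log_pos hn
  have hs : 0 < √(Real.log P.card) := Real.sqrt_pos.2 hl
  rw [le_div_iff₀ hs] at h1
  have h2 := pow_le_pow_left₀ (by positivity) h1 2
  rw [mul_pow, mul_pow, Real.sq_sqrt hl.le] at h2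
  exact h2

theorem fx_nonneg (P : Finset Plane) (hP : 2 ≤ P.card) : 0 < Real.log P.card ∧ (0 : ℝ) < P.card ∧
    Real.log P.card ≤ P.card := by
  have hn : (1 : ℝ) < P.card := by
    have : 1 < P.card := by omega
    exact_mod_cast this
  refine ⟨Real.log_pos hn, by linarith, ?_⟩
  have := Real.log_le_sub_one_of_pos (show (0 : ℝ) < P.card by linarith)
  linarith

/-- partial covers -/
theorem part (P : Finset Plane) (μ : ℝ) (hμ : μ ≤ 1)
    (h : ∀ Q ⊆ P, Q.Nonempty → ∃ L, IsLine L ∧ μ * Q.card ≤ onLine Q L) (N : ℕ) :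
    ∃ 𝓛 : Finset (Set Plane), 𝓛.card ≤ N ∧ (∀ L ∈ 𝓛, IsLine L) ∧ ∃ R ⊆ P,
      (R.card : ℝ) ≤ P.card * (1 - μ) ^ N ∧ ∀ p ∈ P, p ∉ R → ∃ L ∈ 𝓛, p ∈ L := by
  classical
  induction N with
  | zero =>
    refine ⟨∅, by simp, by simp, P, Finset.Subset.refl _, by simp, fun p hp hp' => absurd hp hp'⟩
  | succ N ih =>
    obtain ⟨𝓛, h1, h2, R, hR, h3, h4⟩ := ih
    rcases R.eq_empty_or_nonempty with h0 | hne
    · refine ⟨𝓛, by omega, h2, ∅, empty_subset _, ?_, ?_⟩
      · rw [card_empty, Nat.cast_zero]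
        have : (0 : ℝ) ≤ 1 - μ := by linarith
        positivity
      · intro p hp _
        exact h4 p hp (by rw [h0]; exact notMem_empty p)
    · obtain ⟨L, hL, hc⟩ := h R hR hne
      refine ⟨insert L 𝓛, (card_insert_le _ _).trans (by omega), ?_, R.filter (fun z => z ∉ L),
        (filter_subset _ _).trans hR, ?_, ?_⟩
      · intro M hM
        rcases mem_insert.1 hM with rfl | hM
        · exact hL
        · exact h2 M hM
      · have h5 : onLine R L + (R.filter (fun z => z ∉ L)).card = R.card := by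
          unfold onLine
          exact card_filter_add_card_filter_not _
        have h6 : (onLine R L : ℝ) + (R.filter (fun z => z ∉ L)).card = R.card := by exact_mod_cast h5
        have h7 : (0 : ℝ) ≤ 1 - μ := by linarith
        calc ((R.filter (fun z => z ∉ L)).card : ℝ) ≤ (1 - μ) * R.card := by linarith
          _ ≤ (1 - μ) * (P.card * (1 - μ) ^ N) := mul_le_mul_of_nonneg_left h3 h7
          _ = P.card * (1 - μ) ^ (N + 1) := by rw [pow_succ]; ring
      · intro p hp hpR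
        by_cases hpL : p ∈ L
        · exact ⟨L, mem_insert_self _ _, hpL⟩
        · have : p ∉ R := fun hpR' => hpR (mem_filter.2 ⟨hpR', hpL⟩)
          obtain ⟨M, hM, hpM⟩ := h4 p hp this
          exact ⟨M, mem_insert_of_mem hM, hpM⟩

/-- rich lines of subsets of extremal sets -/
theorem fx_rich {A : ℝ} (hA : 1 ≤ A) {P : Finset Plane} (hP : 2 ≤ P.card)
    (h : ((dists P).card : ℝ) ^ 2 * Real.log P.card ≤ A ^ 2 * (P.card : ℝ) ^ 2) (Q : Finset Plane)
    (hQ : Q ⊆ P) (hQ0 : Q.Nonempty) :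
    ∃ L, IsLine L ∧ Real.log P.card / (67108864 * A ^ 2 * P.card) * Q.card ≤ onLine Q L := by
  obtain ⟨hl, hn, hln⟩ := fx_nonneg P hP
  obtain ⟨L, hL, h1⟩ := fin_rich P hP (dists P).card (fun q hq => distsFrom_le hq) Q hQ hQ0
  refine ⟨L, hL, ?_⟩
  have h2 : (Q.card : ℝ) * P.card ≤ 67108864 * onLine Q L * ((dists P).card : ℝ) ^ 2 := by
    exact_mod_cast h1
  rw [div_mul_eq_mul_div, div_le_iff₀ (by positivity)]
  have h3 : Real.log P.card * ((Q.card : ℝ) * P.card) ≤
      Real.log P.card * (67108864 * onLine Q L * ((dists P).card : ℝ) ^ 2) :=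
    mul_le_mul_of_nonneg_left h2 hl.le
  have h4 : 67108864 * (onLine Q L : ℝ) * (((dists P).card : ℝ) ^ 2 * Real.log P.card) ≤
      67108864 * (onLine Q L : ℝ) * (A ^ 2 * (P.card : ℝ) ^ 2) :=
    mul_le_mul_of_nonneg_left h (by positivity)
  have h5 : (Real.log P.card * Q.card) * P.card ≤
      ((onLine Q L : ℝ) * (67108864 * A ^ 2 * P.card)) * P.card := by
    calc (Real.log P.card * Q.card) * P.card = Real.log P.card * ((Q.card : ℝ) * P.card) := by ring
      _ ≤ Real.log P.card * (67108864 * onLine Q L * ((dists P).card : ℝ) ^ 2) := h3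
      _ = 67108864 * (onLine Q L : ℝ) * (((dists P).card : ℝ) ^ 2 * Real.log P.card) := by ring
      _ ≤ 67108864 * (onLine Q L : ℝ) * (A ^ 2 * (P.card : ℝ) ^ 2) := h4
      _ = ((onLine Q L : ℝ) * (67108864 * A ^ 2 * P.card)) * P.card := by ring
  exact le_of_mul_le_mul_right h5 hn

/-- lines of large weight in extremal sets -/
theorem fx_wrich {A : ℝ} (hA : 1 ≤ A) {P : Finset Plane} (hP : 2 ≤ P.card)
    (h : ((dists P).card : ℝ) ^ 2 * Real.log P.card ≤ A ^ 2 * (P.card : ℝ) ^ 2) (w : Plane → ℕ) :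
    ∃ L, IsLine L ∧ Real.log P.card / (1073741824 * A ^ 2 * P.card) * (∑ p ∈ P, w p : ℕ) ≤ wL P w L := by
  obtain ⟨hl, hn, hln⟩ := fx_nonneg P hP
  obtain ⟨L, hL, h1⟩ := fin_wrich P hP (dists P).card (fun q hq => distsFrom_le hq) w
  refine ⟨L, hL, ?_⟩
  obtain ⟨W, hW⟩ : ∃ W : ℕ, W = ∑ p ∈ P, w p := ⟨_, rfl⟩
  rw [← hW] at h1 ⊢
  have h2 : (W : ℝ) * P.card ≤ 1073741824 * wL P w L * ((dists P).card : ℝ) ^ 2 := by
    exact_mod_cast h1
  rw [div_mul_eq_mul_div, div_le_iff₀ (by positivity)]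
  have h3 : Real.log P.card * ((W : ℝ) * P.card) ≤
      Real.log P.card * (1073741824 * wL P w L * ((dists P).card : ℝ) ^ 2) :=
    mul_le_mul_of_nonneg_left h2 hl.le
  have h4 : 1073741824 * (wL P w L : ℝ) * (((dists P).card : ℝ) ^ 2 * Real.log P.card) ≤
      1073741824 * (wL P w L : ℝ) * (A ^ 2 * (P.card : ℝ) ^ 2) :=
    mul_le_mul_of_nonneg_left h (by positivity)
  have h5 : (Real.log P.card * W) * P.card ≤
      ((wL P w L : ℝ) * (1073741824 * A ^ 2 * P.card)) * P.card := by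
    calc (Real.log P.card * W) * P.card = Real.log P.card * ((W : ℝ) * P.card) := by ring
      _ ≤ Real.log P.card * (1073741824 * wL P w L * ((dists P).card : ℝ) ^ 2) := h3
      _ = 1073741824 * (wL P w L : ℝ) * (((dists P).card : ℝ) ^ 2 * Real.log P.card) := by ring
      _ ≤ 1073741824 * (wL P w L : ℝ) * (A ^ 2 * (P.card : ℝ) ^ 2) := h4
      _ = ((wL P w L : ℝ) * (1073741824 * A ^ 2 * P.card)) * P.card := by ring
  exact le_of_mul_le_mul_right h5 hn

/-- many rich lines through the points of a large part of every subset of an extremal set -/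
theorem fx_core {A : ℝ} (hA : 1 ≤ A) {P : Finset Plane} (hP : 2 ≤ P.card)
    (h0 : ((dists P).card : ℝ) ≤ A * P.card / √(Real.log P.card))
    (h : ((dists P).card : ℝ) ^ 2 * Real.log P.card ≤ A ^ 2 * (P.card : ℝ) ^ 2) (Q : Finset Plane)
    (hQ : Q ⊆ P) (k : ℕ) (hk : 1 ≤ k) :
    ∃ Q' ⊆ Q, (Q.card : ℝ) - Q'.card ≤ 67108864 * A ^ 2 * k * (P.card / Real.log P.card) ∧
      ∀ q ∈ Q', ManyRich Q' k (1 / (16 * A) * √(Real.log P.card)) q := by
  obtain ⟨hl, hn, hln⟩ := fx_nonneg P hP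
  obtain ⟨Q', hQ', h1, h2⟩ := fin_coreQ P hP (dists P).card (fun q hq => distsFrom_le hq) Q hQ k hk
  refine ⟨Q', hQ', ?_, ?_⟩
  · have h3 : (((Q.card - Q'.card) * P.card : ℕ) : ℝ) ≤ 67108864 * k * ((dists P).card : ℝ) ^ 2 := by
      exact_mod_cast h1
    rw [Nat.cast_mul, Nat.cast_sub (card_le_card hQ')] at h3
    rw [← mul_div_assoc, le_div_iff₀ hl]
    have h4 : ((Q.card : ℝ) - Q'.card) * Real.log P.card * P.card ≤
        67108864 * A ^ 2 * k * P.card * P.card := by
      calc ((Q.card : ℝ) - Q'.card) * Real.log P.card * P.card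
          = Real.log P.card * (((Q.card : ℝ) - Q'.card) * P.card) := by ring
        _ ≤ Real.log P.card * (67108864 * k * ((dists P).card : ℝ) ^ 2) :=
          mul_le_mul_of_nonneg_left h3 hl.le
        _ = 67108864 * k * (((dists P).card : ℝ) ^ 2 * Real.log P.card) := by ring
        _ ≤ 67108864 * k * (A ^ 2 * (P.card : ℝ) ^ 2) := mul_le_mul_of_nonneg_left h (by positivity)
        _ = 67108864 * A ^ 2 * k * P.card * P.card := by ring
    exact le_of_mul_le_mul_right h4 hn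
  · intro q hq
    obtain ⟨𝓛, h3, h4⟩ := h2 q hq
    refine ⟨𝓛, h3, ?_⟩
    have h5 : (P.card : ℝ) ≤ 16 * (dists P).card * 𝓛.card := by exact_mod_cast h4
    have hs : 0 < √(Real.log P.card) := Real.sqrt_pos.2 hl
    have hs2 : √(Real.log P.card) * √(Real.log P.card) = Real.log P.card := Real.mul_self_sqrt hl.le
    rw [le_div_iff₀ hs] at h0
    rw [div_mul_eq_mul_div, one_mul, div_le_iff₀ (by positivity)]
    have h6 : √(Real.log P.card) * P.card ≤ (𝓛.card * (16 * A)) * P.card := by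
      calc √(Real.log P.card) * P.card ≤ √(Real.log P.card) * (16 * (dists P).card * 𝓛.card) :=
            mul_le_mul_of_nonneg_left h5 hs.le
        _ = 16 * 𝓛.card * ((dists P).card * √(Real.log P.card)) := by ring
        _ ≤ 16 * 𝓛.card * (A * P.card) := mul_le_mul_of_nonneg_left h0 (by positivity)
        _ = (𝓛.card * (16 * A)) * P.card := by ring
    exact le_of_mul_le_mul_right h6 hn

end Pool.Agent.Lib.MP_004b1b_co.DL
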