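import Pool.Agent.Lib.MP_004b1b_co.DL.PlDefs

/-!
# injectivity for type 0
-/

set_option autoImplicit false

namespace Pool.Agent.Lib.MP_004b1b_co.DL

open Finset

/-- constant sign on the common range of two arcs -/
theorem PA_sign {ι : Type*} {A : Finset ι} {V : Finset Pt} {l r : ι → Pt} {f : ι → ℝ → ℝ}
    (h : PlSys A V l r f) {i j : ι} (hi : i ∈ A) (hj : j ∈ A) (hij : i ≠ j) {x0 x1 y : ℝ}
    (h0 : (l i).1 ≤ x0) (h0' : (l j).1 ≤ x0) (h1 : x1 ≤ (r i).1) (h1' : x1 ≤ (r j).1)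
    (hy0 : x0 < y) (hy1 : y ≤ x1) (hlt : f i y < f j y) :
    ∀ x, x0 < x → x < x1 → f i x < f j x :=
  bet_sign (h.cont i hi) (h.cont j hj)
    (fun x hx0 hx1 => h.noX i hi j hj hij x (by linarith) (by linarith) (by linarith) (by linarith))
    hy0 hy1 hlt

/-- no arc is strictly inside a wedge to the left of the first vertex -/
theorem PA_core {ι : Type*} {A : Finset ι} {V : Finset Pt} {l r : ι → Pt} {f : ι → ℝ → ℝ}
    (h : PlSys A V l r f) {i j k : ι} (hw : Wdg A l r f i j) (hk : k ∈ A) (hki : k ≠ i) (hkj : k ≠ j)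
    {x1 : ℝ} (hx : (l i).1 < x1) (hkx : (l k).1 < x1) (hxi : x1 ≤ (r i).1) (hxj : x1 ≤ (r j).1)
    (hxk : x1 ≤ (r k).1)
    (hb : ∀ x, (l i).1 < x → (l k).1 < x → x < x1 → f i x < f k x ∧ f k x < f j x)
    (he : ∀ w ∈ V, (l i).1 < w.1 → w.1 < x1 → f i w.1 < w.2 → w.2 < f j w.1 → False) : False := by
  obtain ⟨hi, hj, hij, ⟨hl, hab⟩, hmax⟩ := hw
  have hlk : l k = l i := by
    apply bet (h.cont i hi) (h.cont j hj) (h.cont k hk) hx hkx (h.fl i hi)
      (by rw [hl]; exact h.fl j hj) (h.fl k hk) hb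
    · intro hlt hcon
      exact he _ (h.lV k hk) hlt hkx hcon.1 hcon.2
    · intro hlt
      exact h.noV i hi _ (h.lV k hk) hlt (by linarith)
    · intro hlt
      exact h.noV j hj _ (h.lV k hk) (by rw [← hl]; exact hlt) (by linarith)
    · intro hlt
      exact h.noV k hk _ (h.lV i hi) hlt (by linarith)
  obtain ⟨y, hy0, hy1⟩ := exists_between hx
  obtain ⟨b1, b2⟩ := hb y hy0 (by rw [hlk]; exact hy0) hy1
  refine hmax k hk hki hkj ⟨hlk.symm, ?_⟩ ⟨hlk.trans hl, ?_⟩
  · intro x hx0 hxi' hxk'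
    have hm : y ≤ min (r i).1 (r k).1 := le_min (by linarith) (by linarith)
    exact PA_sign h hi hk hki.symm (x1 := min (r i).1 (r k).1) le_rfl (by rw [hlk])
      (min_le_left _ _) (min_le_right _ _) hy0 hm b1 x hx0 (lt_min hxi' hxk')
  · intro x hx0 hxk' hxj'
    have hm : y ≤ min (r k).1 (r j).1 := le_min (by linarith) (by linarith)
    refine PA_sign h hk hj hkj (x0 := (l k).1) (x1 := min (r k).1 (r j).1) le_rfl
      (by rw [hlk, hl]) (min_le_left _ _) (min_le_right _ _) (by rw [hlk]; exact hy0) hm b2 x hx0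
      (lt_min hxk' hxj')

private theorem PA_half {ι : Type*} {A : Finset ι} {V : Finset Pt} {l r : ι → Pt} {f : ι → ℝ → ℝ}
    (h : PlSys A V l r f) {i j i' j' : ι} (hw : Wdg A l r f i j) (hw' : Wdg A l r f i' j') {u : Pt}
    (hu : Ty0 V l r f i j u) (hu' : Ty0 V l r f i' j' u) (hne : i ≠ i')
    (hlt : f i u.1 < f i' u.1) : False := by
  obtain ⟨huV, h1, h2, h3, h4, h5, h6⟩ := hu
  obtain ⟨-, h1', h2', h3', h4', h5', h6'⟩ := hu'
  have hi := hw.1
  have hj := hw.2.1
  have hi' := hw'.1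
  have hl : l i = l j := hw.2.2.2.1.1
  have hji : i' ≠ j := by
    rintro rfl
    linarith
  refine PA_core h hw hi' hne.symm hji h1 h1' h2.le h3.le h2'.le ?_ h6
  intro x hx0 hx0' hx1
  constructor
  · exact PA_sign h hi hi' hne (x0 := max (l i).1 (l i').1) (le_max_left _ _) (le_max_right _ _)
      h2.le h2'.le (max_lt h1 h1') le_rfl hlt x (max_lt hx0 hx0') hx1
  · refine PA_sign h hi' hj hji (x0 := max (l i).1 (l i').1) (le_max_right _ _)
      (by rw [← hl]; exact le_max_left _ _) h2'.le h3.le (max_lt h1 h1') le_rfl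
      (by linarith) x (max_lt hx0 hx0') hx1

/-- a vertex is of type 0 for at most one wedge.  Suppose `i ≠ i'`, say `f i u.1 < f i' u.1` (they are different by
`noX`); then `i'` is strictly between `i` and `j` at `u.1`, hence (`bet_sign`, `noX`; `i' ≠ j` because of the values at
`u.1`) on the whole common range to the left of `u.1`; `bet` with `x1 = u.1` gives `l i' = l i`, and then
`Abv i i'`, `Abv i' j` contradict `Wdg i j`. -/
theorem planar_inj0 {ι : Type*} {A : Finset ι} {V : Finset Pt} {l r : ι → Pt} {f : ι → ℝ → ℝ}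
    (h : PlSys A V l r f) {i j i' j' : ι} (hw : Wdg A l r f i j) (hw' : Wdg A l r f i' j') {u : Pt}
    (hu : Ty0 V l r f i j u) (hu' : Ty0 V l r f i' j' u) : i = i' := by
  by_contra hne
  have hd : f i u.1 ≠ f i' u.1 :=
    h.noX i hw.1 i' hw'.1 hne u.1 hu.2.1 hu.2.2.1 hu'.2.1 hu'.2.2.1
  rcases lt_or_gt_of_ne hd with h1 | h1
  · exact PA_half h hw hw' hu hu' hne h1
  · exact PA_half h hw' hw hu' hu (Ne.symm hne) h1

end Pool.Agent.Lib.MP_004b1b_co.DL
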