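import Pool.Agent.Lib.MP_004b1b_co.DL.PlDefs
import Pool.Agent.Lib.MP_004b1b_co.DL.PA

/-!
# injectivity for type 1
-/

set_option autoImplicit false

namespace Pool.Agent.Lib.MP_004b1b_co.DL

open Finset

private theorem PB_half {ι : Type*} {A : Finset ι} {V : Finset Pt} {l r : ι → Pt} {f : ι → ℝ → ℝ}
    (h : PlSys A V l r f) {i j i' j' : ι} (hw : Wdg A l r f i j) (hw' : Wdg A l r f i' j') {u : Pt}
    (hu : Ty1 V l r f i j u) (hu' : Ty1 V l r f i' j' u) (hne : i ≠ i') {y : ℝ}
    (hy0 : (l i).1 < y) (hy0' : (l i').1 < y) (hy1 : y < u.1)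
    (hlt : f i y < f i' y) : False := by
  obtain ⟨hui, h2, h6⟩ := hu
  obtain ⟨hui', h2', h6'⟩ := hu'
  have hi := hw.1
  have hj := hw.2.1
  have hi' := hw'.1
  have hl : l i = l j := hw.2.2.2.1.1
  have hrx : (r i).1 = u.1 := by rw [hui]
  have hrx' : (r i').1 = u.1 := by rw [hui']
  have hix : (l i).1 < u.1 := by linarith
  have hix' : (l i').1 < u.1 := by linarith
  have huV : u ∈ V := by rw [hui]; exact h.rV i hi
  have hfi : f i u.1 = u.2 := by
    have := h.fr i hi
    rw [← hui] at this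
    exact this
  have hfi' : f i' u.1 = u.2 := by
    have := h.fr i' hi'
    rw [← hui'] at this
    exact this
  -- `u` is strictly below `j`
  have hle : f i u.1 ≤ f j u.1 := (bet_le (h.cont i hi) (h.cont j hj) hix
    (fun x hx0 hx1 => hw.2.2.2.1.2 x hx0 (by linarith) (by linarith))).2
  have hju : u.2 < f j u.1 := by
    refine lt_of_le_of_ne (by rw [← hfi]; exact hle) ?_
    intro heq
    rcases lt_or_eq_of_le h2 with h3 | h3
    · exact h.noV j hj u huV (by rw [← hl]; exact hix) (by linarith) heq.symm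
    · apply hw.2.2.1
      apply h.simple i hi j hj hl
      rw [← hui]
      have h4 := h.fr j hj
      have h5 : (r j).1 = u.1 := by linarith
      rw [h5, ← heq] at h4
      exact Prod.ext h5.symm h4
  have hji : i' ≠ j := by
    intro hc
    rw [← hc, hfi'] at hju
    exact lt_irrefl _ hju
  refine PA_core h hw hi' hne.symm hji hix hix' hrx.ge (by linarith) hrx'.ge ?_ h6
  intro x hx0 hx0' hx1
  constructor
  · exact PA_sign h hi hi' hne (x0 := max (l i).1 (l i').1) (le_max_left _ _) (le_max_right _ _)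
      hrx.ge hrx'.ge (max_lt hy0 hy0') hy1.le hlt x (max_lt hx0 hx0') hx1
  · refine PA_sign h hi' hj hji (x0 := max (l i).1 (l i').1) (le_max_right _ _)
      (by rw [← hl]; exact le_max_left _ _) hrx'.ge (by linarith) (max_lt hix hix') le_rfl
      (by rw [hfi']; exact hju) x (max_lt hx0 hx0') hx1

/-- the same for type 1: `i`, `i'` both end at `u`.  If `i ≠ i'`, say `f i < f i'` to the left of `u.1` (`bet_sign`).
`f j u.1 > u.2`: if `u.1 < (r j).1` by `noV` and `bet_le`; if `u.1 = (r j).1` then `r j ≠ u` by `simple` and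
`f j u.1 = (r j).2 ≥ u.2` by `bet_le`.  So `i'` is below `j` near `u.1`, hence everywhere to the left. -/
theorem planar_inj1 {ι : Type*} {A : Finset ι} {V : Finset Pt} {l r : ι → Pt} {f : ι → ℝ → ℝ}
    (h : PlSys A V l r f) {i j i' j' : ι} (hw : Wdg A l r f i j) (hw' : Wdg A l r f i' j') {u : Pt}
    (hu : Ty1 V l r f i j u) (hu' : Ty1 V l r f i' j' u) : i = i' := by
  by_contra hne
  have h1 := h.lt i hw.1
  have h2 := h.lt i' hw'.1
  rw [← hu.1] at h1
  rw [← hu'.1] at h2
  obtain ⟨y, hy0, hy1⟩ := exists_between (max_lt h1 h2)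
  have hy2 := lt_of_le_of_lt (le_max_left _ _) hy0
  have hy3 := lt_of_le_of_lt (le_max_right _ _) hy0
  have hd : f i y ≠ f i' y := h.noX i hw.1 i' hw'.1 hne y hy2 (by rw [← hu.1]; exact hy1) hy3
    (by rw [← hu'.1]; exact hy1)
  rcases lt_or_gt_of_ne hd with h3 | h3
  · exact PB_half h hw hw' hu hu' hne hy2 hy3 hy1 h3
  · exact PB_half h hw' hw hu' hu (Ne.symm hne) hy3 hy2 hy1 h3

end Pool.Agent.Lib.MP_004b1b_co.DL
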