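import Pool.Agent.Lib.MP_004b1b_co.DL.PlDefs
import Pool.Agent.Lib.MP_004b1b_co.DL.PA

/-!
# injectivity for type 2
-/

set_option autoImplicit false

namespace Pool.Agent.Lib.MP_004b1b_co.DL

open Finset

private theorem PC_half {ι : Type*} {A : Finset ι} {V : Finset Pt} {l r : ι → Pt} {f : ι → ℝ → ℝ}
    (h : PlSys A V l r f) {i j i' j' : ι} (hw : Wdg A l r f i j) (hw' : Wdg A l r f i' j') {u : Pt}
    (hu : Ty2 V l r f i j u) (hu' : Ty2 V l r f i' j' u) (hne : j ≠ j') {y : ℝ}
    (hy0 : (l j).1 < y) (hy0' : (l j').1 < y) (hy1 : y < u.1)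
    (hlt : f j' y < f j y) : False := by
  obtain ⟨huj, h2, h6⟩ := hu
  obtain ⟨huj', h2', h6'⟩ := hu'
  have hi := hw.1
  have hj := hw.2.1
  have hj' := hw'.2.1
  have hl : l i = l j := hw.2.2.2.1.1
  have hrx : (r j).1 = u.1 := by rw [huj]
  have hrx' : (r j').1 = u.1 := by rw [huj']
  have hix : (l i).1 < u.1 := by rw [hl]; linarith
  have hix' : (l j').1 < u.1 := by linarith
  have huV : u ∈ V := by rw [huj]; exact h.rV j hj
  have hfj : f j u.1 = u.2 := by
    have := h.fr j hj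
    rw [← huj] at this
    exact this
  have hfj' : f j' u.1 = u.2 := by
    have := h.fr j' hj'
    rw [← huj'] at this
    exact this
  -- `u` is strictly above `i`
  have hle : f i u.1 ≤ f j u.1 := (bet_le (h.cont i hi) (h.cont j hj) hix
    (fun x hx0 hx1 => hw.2.2.2.1.2 x hx0 (by linarith) (by linarith))).2
  have hiu : f i u.1 < u.2 := by
    refine lt_of_le_of_ne (by rw [← hfj]; exact hle) ?_
    exact h.noV i hi u huV hix (by linarith)
  have hji : j' ≠ i := by
    intro hc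
    rw [← hc, hfj'] at hiu
    exact lt_irrefl _ hiu
  refine PA_core h hw hj' hji hne.symm hix hix' (by linarith) hrx.ge hrx'.ge ?_ h6
  intro x hx0 hx0' hx1
  constructor
  · refine PA_sign h hi hj' hji.symm (x0 := max (l i).1 (l j').1) (le_max_left _ _)
      (le_max_right _ _) (by linarith) hrx'.ge (max_lt hix hix') le_rfl
      (by rw [hfj']; exact hiu) x (max_lt hx0 hx0') hx1
  · refine PA_sign h hj' hj hne.symm (x0 := max (l i).1 (l j').1) (le_max_right _ _)
      (by rw [← hl]; exact le_max_left _ _) hrx'.ge hrx.ge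
      (max_lt (by rw [hl]; exact hy0) hy0') hy1.le hlt x (max_lt hx0 hx0') hx1

/-- the same for type 2: `j`, `j'` end at `u`, `u` is strictly above `i` and `i'`.  If `j ≠ j'`, say `f j' < f j` to the
left of `u.1`, then `j'` is strictly between `i` and `j`.  So `j = j'`, and then `l i = l j = l i'` and the two wedges
below `j` are equal (`Abv i i'` or `Abv i' i` would contradict `Wdg`; totality by `bet_sign`). -/
theorem planar_inj2 {ι : Type*} {A : Finset ι} {V : Finset Pt} {l r : ι → Pt} {f : ι → ℝ → ℝ}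
    (h : PlSys A V l r f) {i j i' j' : ι} (hw : Wdg A l r f i j) (hw' : Wdg A l r f i' j') {u : Pt}
    (hu : Ty2 V l r f i j u) (hu' : Ty2 V l r f i' j' u) : i = i' := by
  have hjj : j = j' := by
    by_contra hne
    have h1 := h.lt j hw.2.1
    have h2 := h.lt j' hw'.2.1
    rw [← hu.1] at h1
    rw [← hu'.1] at h2
    obtain ⟨y, hy0, hy1⟩ := exists_between (max_lt h1 h2)
    have hy2 := lt_of_le_of_lt (le_max_left _ _) hy0
    have hy3 := lt_of_le_of_lt (le_max_right _ _) hy0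
    have hd : f j y ≠ f j' y := h.noX j hw.2.1 j' hw'.2.1 hne y hy2 (by rw [← hu.1]; exact hy1) hy3
      (by rw [← hu'.1]; exact hy1)
    rcases lt_or_gt_of_ne hd with h3 | h3
    · exact PC_half h hw' hw hu' hu (Ne.symm hne) hy3 hy2 hy1 h3
    · exact PC_half h hw hw' hu hu' hne hy2 hy3 hy1 h3
  subst hjj
  by_contra hne
  have hi := hw.1
  have hi' := hw'.1
  have hl : l i = l j := hw.2.2.2.1.1
  have hl' : l i' = l j := hw'.2.2.2.1.1
  have hll : l i = l i' := hl.trans hl'.symm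
  have h1 := h.lt i hi
  have h2 := h.lt i' hi'
  obtain ⟨y, hy0, hy1⟩ := exists_between (lt_min h1 (by rw [hll]; exact h2))
  have hy2 := lt_of_lt_of_le hy1 (min_le_left _ _)
  have hy3 := lt_of_lt_of_le hy1 (min_le_right _ _)
  have hd : f i y ≠ f i' y := h.noX i hi i' hi' hne y hy0 hy2 (by rw [← hll]; exact hy0) hy3
  rcases lt_or_gt_of_ne hd with h3 | h3
  · refine hw.2.2.2.2 i' hi' (Ne.symm hne) hw'.2.2.1 ⟨hll, fun x hx0 hx1 hx2 => ?_⟩ hw'.2.2.2.1
    exact PA_sign h hi hi' hne (x1 := min (r i).1 (r i').1) le_rfl (by rw [hll])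
      (min_le_left _ _) (min_le_right _ _) hy0 hy1.le h3 x hx0 (lt_min hx1 hx2)
  · refine hw'.2.2.2.2 i hi hne hw.2.2.1 ⟨hll.symm, fun x hx0 hx1 hx2 => ?_⟩ hw.2.2.2.1
    exact PA_sign h hi' hi (Ne.symm hne) (x0 := (l i').1) (x1 := min (r i).1 (r i').1) le_rfl
      (by rw [hll]) (min_le_right _ _) (min_le_left _ _) (by rw [← hll]; exact hy0) hy1.le h3 x hx0
      (lt_min hx2 hx1)

end Pool.Agent.Lib.MP_004b1b_co.DL
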