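import Pool.Agent.Lib.MP_004b1b_co.DL.PlDefs

/-!
# types of wedges
-/

set_option autoImplicit false

namespace Pool.Agent.Lib.MP_004b1b_co.DL

open Finset

/-- every wedge has a vertex of type 0, 1 or 2 -/
theorem planar_types {ι : Type*} {A : Finset ι} {V : Finset Pt} {l r : ι → Pt} {f : ι → ℝ → ℝ}
    (h : PlSys A V l r f) {i j : ι} (hw : Wdg A l r f i j) :
    ∃ u ∈ V, Ty0 V l r f i j u ∨ Ty1 V l r f i j u ∨ Ty2 V l r f i j u := by
  classical
  have hi := hw.1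
  have hj := hw.2.1
  let S : Finset Pt := V.filter (fun u => (l i).1 < u.1 ∧ u.1 < (r i).1 ∧ u.1 < (r j).1 ∧
    f i u.1 < u.2 ∧ u.2 < f j u.1)
  rcases S.eq_empty_or_nonempty with hS | hS
  · have he : ∀ w ∈ V, (l i).1 < w.1 → w.1 < (r i).1 → w.1 < (r j).1 → f i w.1 < w.2 →
        w.2 < f j w.1 → False := by
      intro w hwV h1 h2 h3 h4 h5
      have : w ∈ S := mem_filter.mpr ⟨hwV, h1, h2, h3, h4, h5⟩
      rw [hS] at this
      exact notMem_empty _ this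
    rcases le_or_gt (r i).1 (r j).1 with hle | hlt
    · exact ⟨r i, h.rV i hi, Or.inr (Or.inl ⟨rfl, hle, fun w hwV h1 h2 h3 h4 =>
        he w hwV h1 h2 (by linarith) h3 h4⟩)⟩
    · exact ⟨r j, h.rV j hj, Or.inr (Or.inr ⟨rfl, hlt, fun w hwV h1 h2 h3 h4 =>
        he w hwV h1 (by linarith) h2 h3 h4⟩)⟩
  · obtain ⟨u, huS, hmin⟩ := exists_min_image S (fun u => u.1) hS
    obtain ⟨huV, h1, h2, h3, h4, h5⟩ := mem_filter.mp huS
    refine ⟨u, huV, Or.inl ⟨huV, h1, h2, h3, h4, h5, ?_⟩⟩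
    intro w hwV h6 h7 h8 h9
    have : w ∈ S := mem_filter.mpr ⟨hwV, h6, by linarith, by linarith, h8, h9⟩
    have h10 := hmin w this
    linarith

end Pool.Agent.Lib.MP_004b1b_co.DL
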