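import Pool.Agent.Lib.MP_004b1b_co.DL.PW
import Pool.Agent.Lib.MP_004b1b_co.DL.PT
import Pool.Agent.Lib.MP_004b1b_co.DL.PA
import Pool.Agent.Lib.MP_004b1b_co.DL.PB
import Pool.Agent.Lib.MP_004b1b_co.DL.PC

/-!
# the planarity lemma
-/

set_option autoImplicit false

namespace Pool.Agent.Lib.MP_004b1b_co.DL

open Finset

/-- the planarity lemma: `B` is covered by three sets (types) on each of which `i ↦ u` is injective into `V` -/
theorem planar {ι : Type*} {A : Finset ι} {V : Finset Pt} {l r : ι → Pt} {f : ι → ℝ → ℝ}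
    (h : PlSys A V l r f) : A.card ≤ 4 * V.card := by
  classical
  obtain ⟨B, hBA, hcard, s, hs⟩ := planar_wedges h
  have hty : ∀ i ∈ B, ∃ u ∈ V, Ty0 V l r f i (s i) u ∨ Ty1 V l r f i (s i) u ∨ Ty2 V l r f i (s i) u :=
    fun i hi => planar_types h (hs i hi)
  let B0 := B.filter (fun i => ∃ u ∈ V, Ty0 V l r f i (s i) u)
  let B1 := B.filter (fun i => ∃ u ∈ V, Ty1 V l r f i (s i) u)
  let B2 := B.filter (fun i => ∃ u ∈ V, Ty2 V l r f i (s i) u)
  have hcov : B ⊆ B0 ∪ B1 ∪ B2 := by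
    intro i hi
    obtain ⟨u, huV, h0 | h1 | h2⟩ := hty i hi
    · exact mem_union_left _ (mem_union_left _ (mem_filter.mpr ⟨hi, u, huV, h0⟩))
    · exact mem_union_left _ (mem_union_right _ (mem_filter.mpr ⟨hi, u, huV, h1⟩))
    · exact mem_union_right _ (mem_filter.mpr ⟨hi, u, huV, h2⟩)
  -- a general counting step
  have key : ∀ (T : ι → Pt → Prop), (∀ i ∈ B, ∀ i' ∈ B, ∀ u, T i u → T i' u → i = i') →
      (B.filter (fun i => ∃ u ∈ V, T i u)).card ≤ V.card := by
    intro T hT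
    have hex : ∀ i : ι, ∃ u : Pt, (∃ u ∈ V, T i u) → u ∈ V ∧ T i u := by
      intro i
      by_cases hi : ∃ u ∈ V, T i u
      · obtain ⟨u, hu⟩ := hi
        exact ⟨u, fun _ => hu⟩
      · exact ⟨(0, 0), fun hc => absurd hc hi⟩
    choose g hg using hex
    apply card_le_card_of_injOn g
    · intro i hi
      exact (hg i (mem_filter.mp hi).2).1
    · intro i hi i' hi' hgg
      have h1 := (hg i (mem_filter.mp hi).2).2
      have h2 := (hg i' (mem_filter.mp hi').2).2
      rw [← hgg] at h2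
      exact hT i (mem_filter.mp hi).1 i' (mem_filter.mp hi').1 (g i) h1 h2
  have c0 : B0.card ≤ V.card := key (fun i u => Ty0 V l r f i (s i) u)
    (fun i hi i' hi' u h1 h2 => planar_inj0 h (hs i hi) (hs i' hi') h1 h2)
  have c1 : B1.card ≤ V.card := key (fun i u => Ty1 V l r f i (s i) u)
    (fun i hi i' hi' u h1 h2 => planar_inj1 h (hs i hi) (hs i' hi') h1 h2)
  have c2 : B2.card ≤ V.card := key (fun i u => Ty2 V l r f i (s i) u)
    (fun i hi i' hi' u h1 h2 => planar_inj2 h (hs i hi) (hs i' hi') h1 h2)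
  have h3 := card_le_card hcov
  have h4 := card_union_le (B0 ∪ B1) B2
  have h5 := card_union_le B0 B1
  omega

end Pool.Agent.Lib.MP_004b1b_co.DL
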