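import Pool.Agent.Lib.MP_004b1b_co.DL.PlDefs

/-!
# wedges
-/

set_option autoImplicit false

namespace Pool.Agent.Lib.MP_004b1b_co.DL

open Finset

theorem pw_abv {ι : Type*} {A : Finset ι} {V : Finset Pt} {l r : ι → Pt} {f : ι → ℝ → ℝ}
    (h : PlSys A V l r f) {i j : ι} (hi : i ∈ A) (hj : j ∈ A) (hl : l i = l j) {x0 : ℝ}
    (h0 : (l i).1 < x0) (h1 : x0 < (r i).1) (h2 : x0 < (r j).1) (hlt : f i x0 < f j x0) :
    Abv l r f i j := by
  refine ⟨hl, fun x hx1 hx2 hx3 => ?_⟩
  have hij : i ≠ j := by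
    rintro rfl
    exact lt_irrefl _ hlt
  have hne : ∀ y, (l i).1 < y → y < min (r i).1 (r j).1 → f i y ≠ f j y := fun y hy1 hy2 =>
    h.noX i hi j hj hij y hy1 (hy2.trans_le (min_le_left _ _)) (hl ▸ hy1)
      (hy2.trans_le (min_le_right _ _))
  exact bet_sign (h.cont i hi) (h.cont j hj) hne h0 (lt_min h1 h2).le hlt x hx1 (lt_min hx2 hx3)

theorem pw_one {ι : Type*} {A : Finset ι} {V : Finset Pt} {l r : ι → Pt} {f : ι → ℝ → ℝ}
    (h : PlSys A V l r f) {i j : ι} (hi : i ∈ A) (hj : j ∈ A) (hl : l i = l j) {x0 : ℝ}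
    (h0 : (l i).1 < x0) (hx : ∀ k ∈ A, l k = l i → x0 < (r k).1) (hlt : f i x0 < f j x0) :
    ∃ k, Wdg A l r f i k := by
  classical
  obtain ⟨k, hk, hmin⟩ := (A.filter fun k => l k = l i ∧ f i x0 < f k x0).exists_min_image
    (fun k => f k x0) ⟨j, by simp only [mem_filter]; exact ⟨hj, hl.symm, hlt⟩⟩
  simp only [mem_filter] at hk
  refine ⟨k, hi, hk.1, ?_, pw_abv h hi hk.1 hk.2.1.symm h0 (hx i hi rfl) (hx k hk.1 hk.2.1)
    hk.2.2, ?_⟩
  · intro hik
    rw [← hik] at hk
    exact lt_irrefl _ hk.2.2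
  · intro m hm hmi hmk h1 h2
    have e1 : l m = l i := h1.1.symm
    have h3 : f i x0 < f m x0 := h1.2 x0 h0 (hx i hi rfl) (hx m hm e1)
    have h4 : f m x0 < f k x0 := h2.2 x0 (by rw [e1]; exact h0) (hx m hm e1)
      (hx k hk.1 hk.2.1)
    have h5 := hmin m (by simp only [mem_filter]; exact ⟨hm, e1, h3⟩)
    linarith

theorem pw_two {ι : Type*} {A : Finset ι} {V : Finset Pt} {l r : ι → Pt} {f : ι → ℝ → ℝ}
    (h : PlSys A V l r f) {i j : ι} (hi : i ∈ A) (hj : j ∈ A) (hl : l i = l j) (hij : i ≠ j) :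
    (∃ k, Wdg A l r f i k) ∨ ∃ k, Wdg A l r f j k := by
  classical
  obtain ⟨k, hk, hmin⟩ := (A.filter fun k => l k = l i).exists_min_image
    (fun k => (r k).1) ⟨i, mem_filter.mpr ⟨hi, rfl⟩⟩
  simp only [mem_filter] at hk
  have h1 := h.lt k hk.1
  rw [hk.2] at h1
  obtain ⟨x0, h2, h3⟩ := exists_between h1
  have hx : ∀ m ∈ A, l m = l i → x0 < (r m).1 := fun m hm e =>
    h3.trans_le (hmin m (by simp only [mem_filter]; exact ⟨hm, e⟩))
  have h4 : f i x0 ≠ f j x0 := h.noX i hi j hj hij x0 h2 (hx i hi rfl) (hl ▸ h2)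
    (hx j hj hl.symm)
  rcases lt_or_gt_of_ne h4 with h5 | h5
  · exact Or.inl (pw_one h hi hj hl h2 hx h5)
  · exact Or.inr (pw_one h hj hi hl.symm (hl ▸ h2) (fun m hm e => hx m hm (e.trans hl.symm)) h5)

/-- all but at most `|V|` arcs have a next arc above them: for each left end `v` the relation `Abv` is a strict total
order on the arcs with left end `v` (`bet_sign` for totality; transitivity: evaluate close to `v`); an arc that is not
the maximum has a successor. -/
theorem planar_wedges {ι : Type*} {A : Finset ι} {V : Finset Pt} {l r : ι → Pt} {f : ι → ℝ → ℝ}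
    (h : PlSys A V l r f) :
    ∃ B ⊆ A, A.card ≤ B.card + V.card ∧ ∃ s : ι → ι, ∀ i ∈ B, Wdg A l r f i (s i) := by
  classical
  refine ⟨A.filter fun i => ∃ k, Wdg A l r f i k, filter_subset _ _, ?_,
    fun i => if hi : ∃ k, Wdg A l r f i k then hi.choose else i, ?_⟩
  · have h1 := card_filter_add_card_filter_not (s := A) (fun i => ∃ k, Wdg A l r f i k)
    have h2 : (A.filter fun i => ¬ ∃ k, Wdg A l r f i k).card ≤ V.card := by
      refine card_le_card_of_injOn l (fun i hi => ?_) (fun i hi j hj hl => ?_)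
      · exact h.lV i (mem_filter.mp hi).1
      · by_contra hij
        have hi' := mem_filter.mp hi
        have hj' := mem_filter.mp hj
        rcases pw_two h hi'.1 hj'.1 hl hij with h3 | h3
        · exact hi'.2 h3
        · exact hj'.2 h3
    omega
  · intro i hi
    have h1 := (mem_filter.mp hi).2
    simp only [dif_pos h1]
    exact h1.choose_spec

end Pool.Agent.Lib.MP_004b1b_co.DL
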