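import Pool.Agent.Lib.MP_004b1b_co.DL.Bet

/-!
# Plane systems of arcs, wedges and types (definitions)
-/

set_option autoImplicit false

namespace Pool.Agent.Lib.MP_004b1b_co.DL

open Finset

/-- a plane system of `x`-monotone arcs -/
structure PlSys {ι : Type*} (A : Finset ι) (V : Finset Pt) (l r : ι → Pt) (f : ι → ℝ → ℝ) : Prop where
  cont : ∀ i ∈ A, Continuous (f i)
  lt : ∀ i ∈ A, (l i).1 < (r i).1
  fl : ∀ i ∈ A, f i (l i).1 = (l i).2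
  fr : ∀ i ∈ A, f i (r i).1 = (r i).2
  lV : ∀ i ∈ A, l i ∈ V
  rV : ∀ i ∈ A, r i ∈ V
  noV : ∀ i ∈ A, ∀ v ∈ V, (l i).1 < v.1 → v.1 < (r i).1 → f i v.1 ≠ v.2
  noX : ∀ i ∈ A, ∀ j ∈ A, i ≠ j → ∀ x, (l i).1 < x → x < (r i).1 → (l j).1 < x → x < (r j).1 →
    f i x ≠ f j x
  simple : ∀ i ∈ A, ∀ j ∈ A, l i = l j → r i = r j → i = j

/-- `j` is above `i`, both start at the same point -/
def Abv {ι : Type*} (l r : ι → Pt) (f : ι → ℝ → ℝ) (i j : ι) : Prop :=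
  l i = l j ∧ ∀ x, (l i).1 < x → x < (r i).1 → x < (r j).1 → f i x < f j x

/-- consecutive arcs at their common left end -/
def Wdg {ι : Type*} (A : Finset ι) (l r : ι → Pt) (f : ι → ℝ → ℝ) (i j : ι) : Prop :=
  i ∈ A ∧ j ∈ A ∧ i ≠ j ∧ Abv l r f i j ∧
    ∀ k ∈ A, k ≠ i → k ≠ j → Abv l r f i k → Abv l r f k j → False

/-- type 0: `u` strictly inside the wedge `(i, j)`, no vertex inside the wedge to the left of `u` -/
def Ty0 {ι : Type*} (V : Finset Pt) (l r : ι → Pt) (f : ι → ℝ → ℝ) (i j : ι) (u : Pt) : Prop :=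
  u ∈ V ∧ (l i).1 < u.1 ∧ u.1 < (r i).1 ∧ u.1 < (r j).1 ∧ f i u.1 < u.2 ∧ u.2 < f j u.1 ∧
    ∀ w ∈ V, (l i).1 < w.1 → w.1 < u.1 → f i w.1 < w.2 → w.2 < f j w.1 → False

/-- type 1: `u` is the right end of `i`, which is not to the right of the right end of `j`, nothing inside the wedge -/
def Ty1 {ι : Type*} (V : Finset Pt) (l r : ι → Pt) (f : ι → ℝ → ℝ) (i j : ι) (u : Pt) : Prop :=
  u = r i ∧ (r i).1 ≤ (r j).1 ∧
    ∀ w ∈ V, (l i).1 < w.1 → w.1 < u.1 → f i w.1 < w.2 → w.2 < f j w.1 → False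

/-- type 2: `u` is the right end of `j`, to the left of the right end of `i`, nothing inside the wedge -/
def Ty2 {ι : Type*} (V : Finset Pt) (l r : ι → Pt) (f : ι → ℝ → ℝ) (i j : ι) (u : Pt) : Prop :=
  u = r j ∧ (r j).1 < (r i).1 ∧
    ∀ w ∈ V, (l i).1 < w.1 → w.1 < u.1 → f i w.1 < w.2 → w.2 < f j w.1 → False

end Pool.Agent.Lib.MP_004b1b_co.DL
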