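import Pool.Agent.Lib.MP_004b1b_co.DL.Defs

/-!
# Labels

On each fibre of `(l, r)` (at most `k` elements) an injective map to `Fin k`, e.g. `Finset.equivFin` of the fibre followed by
`Fin.castLE`; the fibre of `i` is the filter at `a = l i`, `b = r i`.
-/

set_option autoImplicit false

namespace Pool.Agent.Lib.MP_004b1b_co.DL

open Finset

/-- labels: on the fibre of `(l, r)` over every pair an injective map to `Fin k` -/
theorem samp_lab {α ι : Type*} [DecidableEq α] [Fintype ι] (l r : ι → α) (k : ℕ)
    (hk : 1 ≤ k)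
    (hmul : ∀ a b, (univ.filter (fun i => l i = a ∧ r i = b)).card ≤ k) :
    ∃ lab : ι → Fin k, ∀ i j, l i = l j → r i = r j → lab i = lab j → i = j := by
  classical
  have hex : ∀ a b : α, ∃ f : ι → Fin k, ∀ i j, (l i = a ∧ r i = b) → (l j = a ∧ r j = b) →
      f i = f j → i = j := by
    intro a b
    set F := univ.filter (fun i => l i = a ∧ r i = b) with hF
    have hc := hmul a b
    refine ⟨fun i => if h : i ∈ F then Fin.castLE hc (F.equivFin ⟨i, h⟩) else ⟨0, hk⟩, ?_⟩
    intro i j hi hj hij
    have hi' : i ∈ F := by rw [hF, mem_filter]; exact ⟨mem_univ _, hi⟩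
    have hj' : j ∈ F := by rw [hF, mem_filter]; exact ⟨mem_univ _, hj⟩
    simp only [hi', hj', dif_pos] at hij
    have h2 := Fin.castLE_injective hc hij
    have h3 := F.equivFin.injective h2
    exact congrArg Subtype.val h3
  choose f hf using hex
  refine ⟨fun i => f (l i) (r i) i, ?_⟩
  intro i j hl hr hij
  apply hf (l i) (r i) i j ⟨rfl, rfl⟩ ⟨hl.symm, hr.symm⟩
  have : f (l i) (r i) i = f (l j) (r j) j := hij
  rw [this, hl, hr]

end Pool.Agent.Lib.MP_004b1b_co.DL
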