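import Pool.Agent.Lib.MP_004b1b_co.DL.Cnt
import Pool.Agent.Lib.MP_004b1b_co.DL.SL

/-!
# The sampling inequality

`α` vertices, `ι` arcs, `l`, `r` ends, at most `k` arcs over a pair of ends, `X` crossing relation.
Choose `ω₁ : α → Fin s` and `ω₂ : α × α → Fin k` uniformly, `V = {a | ω₁ a = 0}`,
`B = {i | ω₁ (l i) = 0, ω₁ (r i) = 0, ω₂ (l i, r i) = lab i}` where `lab : ι → Fin k` is injective on the arcs over a
pair of ends (`samp_lab`).  `B` is simple.  Sum the hypothesis `hpl V B` over all `(ω₁, ω₂)` and use `cnt_fix`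
(`T` = the set of ends, with 2, 3 or 4 elements, and the set of the one or two pairs of ends):
sum of `|V|` is `|α| s^(|α|-1) k^(|α|^2)`; sum of `|B|` is `|ι| s^(|α|-2) k^(|α|^2-1)`; the crossing pairs without
common end contribute `s^(|α|-4) k^(|α|^2-2)` each, those with a common end (exactly one, by `hX`)
`s^(|α|-3) k^(|α|^2-2)` each.  Divide by `s^|α| k^(|α|^2)` and multiply by `s`.
-/

set_option autoImplicit false

namespace Pool.Agent.Lib.MP_004b1b_co.DL

open Finset

private theorem samp_cnt {α : Type*} [Fintype α] [DecidableEq α] (s k : ℕ) (hs : 1 ≤ s) (hk : 1 ≤ k)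
    (T : Finset α) (U : Finset (α × α)) (g : α → Fin s) (h : α × α → Fin k) :
    ((univ.filter (fun ω : (α → Fin s) × (α × α → Fin k) =>
      (∀ j ∈ T, ω.1 j = g j) ∧ ∀ j ∈ U, ω.2 j = h j)).card : ℝ) =
      (s : ℝ) ^ Fintype.card α * (k : ℝ) ^ Fintype.card (α × α) /
        ((s : ℝ) ^ T.card * (k : ℝ) ^ U.card) := by
  have h1 := cnt_fix s T g
  have h2 := cnt_fix k U h
  have e : (univ.filter (fun ω : (α → Fin s) × (α × α → Fin k) =>
      (∀ j ∈ T, ω.1 j = g j) ∧ ∀ j ∈ U, ω.2 j = h j)) =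
      (univ.filter (fun ω : α → Fin s => ∀ j ∈ T, ω j = g j)) ×ˢ
      (univ.filter (fun ω : α × α → Fin k => ∀ j ∈ U, ω j = h j)) := by
    ext ω
    simp only [mem_filter, mem_univ, true_and, mem_product]
  have h1' : ((univ.filter (fun ω : α → Fin s => ∀ j ∈ T, ω j = g j)).card : ℝ) *
      (s : ℝ) ^ T.card = (s : ℝ) ^ Fintype.card α := by exact_mod_cast h1
  have h2' : ((univ.filter (fun ω : α × α → Fin k => ∀ j ∈ U, ω j = h j)).card : ℝ) *
      (k : ℝ) ^ U.card = (k : ℝ) ^ Fintype.card (α × α) := by exact_mod_cast h2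
  have hs0 : (s : ℝ) ≠ 0 := by positivity
  have hk0 : (k : ℝ) ≠ 0 := by positivity
  rw [e, card_product, Nat.cast_mul, ← h1', ← h2', eq_div_iff (by positivity)]
  ring

private theorem samp_three {α : Type*} [DecidableEq α] {a b c d : α} (hab : a ≠ b) (hcd : c ≠ d)
    (h1 : ¬ (a = c ∧ b = d)) (h2 : ¬ (a = d ∧ b = c)) : 3 ≤ ({a, b, c, d} : Finset α).card := by
  have h3 : ∃ x ∈ ({c, d} : Finset α), x ≠ a ∧ x ≠ b := by
    by_contra hcon
    push Not at hcon
    have hc := hcon c (by simp)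
    have hd := hcon d (by simp)
    by_cases ca : c = a
    · by_cases da : d = a
      · exact hcd (ca.trans da.symm)
      · exact h1 ⟨ca.symm, (hd da).symm⟩
    · have cb := hc ca
      by_cases da : d = a
      · exact h2 ⟨da.symm, cb.symm⟩
      · exact hcd (cb.trans (hd da).symm)
  obtain ⟨x, hx, hxa, hxb⟩ := h3
  have h4 : ({a, b, x} : Finset α).card = 3 := card_eq_three.2 ⟨a, b, x, hab, hxa.symm, hxb.symm, rfl⟩
  rw [← h4]
  refine card_le_card ?_
  intro y hy
  simp only [mem_insert, mem_singleton] at hy hx ⊢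
  rcases hy with rfl | rfl | rfl
  · exact Or.inl rfl
  · exact Or.inr (Or.inl rfl)
  · rcases hx with rfl | rfl
    · exact Or.inr (Or.inr (Or.inl rfl))
    · exact Or.inr (Or.inr (Or.inr rfl))

private theorem samp_four {α : Type*} [DecidableEq α] {a b c d : α} (hab : a ≠ b) (hcd : c ≠ d)
    (h : ¬ (a = c ∨ a = d ∨ b = c ∨ b = d)) : ({a, b, c, d} : Finset α).card = 4 := by
  push Not at h
  obtain ⟨h1, h2, h3, h4⟩ := h
  rw [card_insert_of_notMem (by simp [hab, h1, h2]), card_insert_of_notMem (by simp [h3, h4]),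
    card_insert_of_notMem (by simp [hcd]), card_singleton]

theorem samp {α ι : Type*} [Fintype α] [DecidableEq α] [Fintype ι] [DecidableEq ι] (l r : ι → α)
    (hne : ∀ i, l i ≠ r i) (k s : ℕ) (hk : 1 ≤ k) (hs : 1 ≤ s)
    (hmul : ∀ a b, (univ.filter (fun i => l i = a ∧ r i = b)).card ≤ k)
    (X : ι → ι → Prop) [DecidableRel X]
    (hX : ∀ i j, X i j → ¬ (l i = l j ∧ r i = r j) ∧ ¬ (l i = r j ∧ r i = l j))
    (hpl : ∀ (V : Finset α) (B : Finset ι), (∀ i ∈ B, l i ∈ V ∧ r i ∈ V) →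
      (∀ i ∈ B, ∀ j ∈ B, l i = l j → r i = r j → i = j) →
      B.card ≤ 4 * V.card + ((B ×ˢ B).filter (fun x => X x.1 x.2)).card)
    (X3 X4 : ℕ)
    (h3 : (univ.filter (fun x : ι × ι => X x.1 x.2 ∧
      (l x.1 = l x.2 ∨ l x.1 = r x.2 ∨ r x.1 = l x.2 ∨ r x.1 = r x.2))).card ≤ X3)
    (h4 : (univ.filter (fun x : ι × ι => X x.1 x.2)).card ≤ X4) :
    (Fintype.card ι : ℝ) / (k * s) ≤ 4 * Fintype.card α + X3 / ((k : ℝ) ^ 2 * (s : ℝ) ^ 2) +
      X4 / ((k : ℝ) ^ 2 * (s : ℝ) ^ 3) := by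
  classical
  obtain ⟨lab, hlab⟩ := samp_lab l r k hk hmul
  have hs1 : (1 : ℝ) ≤ s := by exact_mod_cast hs
  have hk1 : (1 : ℝ) ≤ k := by exact_mod_cast hk
  have hs0 : (0 : ℝ) < s := by linarith
  have hk0 : (0 : ℝ) < k := by linarith
  set z : Fin s := ⟨0, hs⟩ with hz
  set N : ℝ := (s : ℝ) ^ Fintype.card α * (k : ℝ) ^ Fintype.card (α × α) with hN
  have hN0 : 0 < N := by positivity
  set V : (α → Fin s) × (α × α → Fin k) → Finset α := fun ω => univ.filter fun a => ω.1 a = z with hV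
  set B : (α → Fin s) × (α × α → Fin k) → Finset ι := fun ω => univ.filter fun i =>
    ω.1 (l i) = z ∧ ω.1 (r i) = z ∧ ω.2 (l i, r i) = lab i with hB
  have hmain : ∀ ω, (B ω).card ≤ 4 * (V ω).card + ((B ω ×ˢ B ω).filter (fun x => X x.1 x.2)).card := by
    intro ω
    refine hpl (V ω) (B ω) ?_ ?_
    · intro i hi
      simp only [hB, hV, mem_filter, mem_univ, true_and] at hi ⊢
      exact ⟨hi.1, hi.2.1⟩
    · intro i hi j hj hl hr
      simp only [hB, mem_filter, mem_univ, true_and] at hi hj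
      refine hlab i j hl hr ?_
      rw [← hi.2.2, ← hj.2.2, hl, hr]
  -- the three sums
  have sV : ((∑ ω, (V ω).card : ℕ) : ℝ) = Fintype.card α * (N / s) := by
    have e1 : ∑ ω, (V ω).card = ∑ a : α, (univ.filter fun ω : (α → Fin s) × (α × α → Fin k) =>
        ω.1 a = z).card := by
      simp only [hV, card_filter]
      exact sum_comm
    rw [e1, Nat.cast_sum]
    have e2 : ∀ a : α, ((univ.filter fun ω : (α → Fin s) × (α × α → Fin k) => ω.1 a = z).card : ℝ) =
        N / s := by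
      intro a
      have h := samp_cnt s k hs hk {a} ∅ (fun _ => z) (fun _ => ⟨0, hk⟩)
      simp only [mem_singleton, forall_eq, notMem_empty, false_imp_iff, implies_true, and_true,
        card_singleton, pow_one, card_empty, pow_zero, mul_one] at h
      exact h
    rw [sum_congr rfl fun a _ => e2 a, sum_const, card_univ, nsmul_eq_mul]
  have sB : ((∑ ω, (B ω).card : ℕ) : ℝ) = Fintype.card ι * (N / (s ^ 2 * k)) := by
    have e1 : ∑ ω, (B ω).card = ∑ i : ι, (univ.filter fun ω : (α → Fin s) × (α × α → Fin k) =>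
        ω.1 (l i) = z ∧ ω.1 (r i) = z ∧ ω.2 (l i, r i) = lab i).card := by
      simp only [hB, card_filter]
      exact sum_comm
    rw [e1, Nat.cast_sum]
    have e2 : ∀ i : ι, ((univ.filter fun ω : (α → Fin s) × (α × α → Fin k) =>
        ω.1 (l i) = z ∧ ω.1 (r i) = z ∧ ω.2 (l i, r i) = lab i).card : ℝ) = N / (s ^ 2 * k) := by
      intro i
      have h := samp_cnt s k hs hk {l i, r i} {(l i, r i)} (fun _ => z) (fun _ => lab i)
      rw [card_pair (hne i), card_singleton, pow_one] at h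
      rw [← h]
      congr 2
      ext ω
      simp only [mem_filter, mem_univ, true_and, mem_insert, mem_singleton, forall_eq_or_imp,
        forall_eq]
      exact ⟨fun h => ⟨⟨h.1, h.2.1⟩, h.2.2⟩, fun h => ⟨h.1.1, h.1.2, h.2⟩⟩
    rw [sum_congr rfl fun a _ => e2 a, sum_const, card_univ, nsmul_eq_mul]
  have sX : ((∑ ω, ((B ω ×ˢ B ω).filter (fun x => X x.1 x.2)).card : ℕ) : ℝ) ≤
      X3 * (N / (s ^ 3 * k ^ 2)) + X4 * (N / (s ^ 4 * k ^ 2)) := by
    have e1 : ∑ ω, ((B ω ×ˢ B ω).filter (fun x => X x.1 x.2)).card =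
        ∑ x ∈ univ.filter (fun x : ι × ι => X x.1 x.2),
          (univ.filter fun ω : (α → Fin s) × (α × α → Fin k) => x.1 ∈ B ω ∧ x.2 ∈ B ω).card := by
      have e0 : ∀ ω, (B ω ×ˢ B ω).filter (fun x => X x.1 x.2) =
          (univ.filter (fun x : ι × ι => X x.1 x.2)).filter (fun x => x.1 ∈ B ω ∧ x.2 ∈ B ω) := by
        intro ω
        ext x
        simp only [mem_filter, mem_product, mem_univ, true_and]
        tauto
      simp only [e0]
      simp only [card_filter _ (univ.filter (fun x : ι × ι => X x.1 x.2)),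
        card_filter _ (univ : Finset ((α → Fin s) × (α × α → Fin k)))]
      exact sum_comm
    rw [e1, Nat.cast_sum]
    have e2 : ∀ x ∈ univ.filter (fun x : ι × ι => X x.1 x.2),
        ((univ.filter fun ω : (α → Fin s) × (α × α → Fin k) => x.1 ∈ B ω ∧ x.2 ∈ B ω).card : ℝ) ≤
        (if (l x.1 = l x.2 ∨ l x.1 = r x.2 ∨ r x.1 = l x.2 ∨ r x.1 = r x.2) then
          N / (s ^ 3 * k ^ 2) else 0) + N / (s ^ 4 * k ^ 2) := by
      intro x hx
      rw [mem_filter] at hx
      obtain ⟨hX1, hX2⟩ := hX _ _ hx.2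
      have hp : (l x.1, r x.1) ≠ (l x.2, r x.2) := by
        intro h
        rw [Prod.mk.injEq] at h
        exact hX1 h
      have h := samp_cnt s k hs hk {l x.1, r x.1, l x.2, r x.2} {(l x.1, r x.1), (l x.2, r x.2)}
        (fun _ => z) (fun p => if p = (l x.1, r x.1) then lab x.1 else lab x.2)
      rw [card_pair hp] at h
      have e3 : (univ.filter fun ω : (α → Fin s) × (α × α → Fin k) => x.1 ∈ B ω ∧ x.2 ∈ B ω) =
          univ.filter (fun ω : (α → Fin s) × (α × α → Fin k) =>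
            (∀ j ∈ ({l x.1, r x.1, l x.2, r x.2} : Finset α), ω.1 j = z) ∧
            ∀ j ∈ ({(l x.1, r x.1), (l x.2, r x.2)} : Finset (α × α)), ω.2 j =
              if j = (l x.1, r x.1) then lab x.1 else lab x.2) := by
        ext ω
        simp only [hB, mem_filter, mem_univ, true_and, mem_insert, mem_singleton, forall_eq_or_imp,
          forall_eq, if_true, if_neg hp.symm]
        tauto
      rw [e3, h]
      split_ifs with hsh
      · have h5 := samp_three (hne x.1) (hne x.2) hX1 hX2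
        have h6 : (s : ℝ) ^ 3 ≤ (s : ℝ) ^ ({l x.1, r x.1, l x.2, r x.2} : Finset α).card :=
          pow_le_pow_right₀ hs1 h5
        have h7 : N / ((s : ℝ) ^ ({l x.1, r x.1, l x.2, r x.2} : Finset α).card * (k : ℝ) ^ 2) ≤
            N / ((s : ℝ) ^ 3 * (k : ℝ) ^ 2) :=
          div_le_div_of_nonneg_left hN0.le (by positivity)
            (mul_le_mul_of_nonneg_right h6 (by positivity))
        have h8 : 0 ≤ N / ((s : ℝ) ^ 4 * (k : ℝ) ^ 2) := by positivity
        linarith
      · have hsh' : ¬ (l x.1 = l x.2 ∨ l x.1 = r x.2 ∨ r x.1 = l x.2 ∨ r x.1 = r x.2) := hsh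
        rw [samp_four (hne x.1) (hne x.2) hsh', zero_add]
    refine (sum_le_sum e2).trans ?_
    rw [sum_add_distrib, ← sum_filter, filter_filter, sum_const, sum_const, nsmul_eq_mul,
      nsmul_eq_mul]
    refine add_le_add ?_ ?_
    · exact mul_le_mul_of_nonneg_right (by exact_mod_cast h3) (by positivity)
    · exact mul_le_mul_of_nonneg_right (by exact_mod_cast h4) (by positivity)
  have htot : ((∑ ω, (B ω).card : ℕ) : ℝ) ≤ 4 * ((∑ ω, (V ω).card : ℕ) : ℝ) +
      ((∑ ω, ((B ω ×ˢ B ω).filter (fun x => X x.1 x.2)).card : ℕ) : ℝ) := by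
    have h := sum_le_sum fun ω (_ : ω ∈ (univ : Finset ((α → Fin s) × (α × α → Fin k)))) => hmain ω
    rw [sum_add_distrib, ← mul_sum] at h
    exact_mod_cast h
  rw [sV, sB] at htot
  have hfin := htot.trans (add_le_add_right sX _)
  have e4 : (Fintype.card ι : ℝ) / (k * s) = (Fintype.card ι * (N / (s ^ 2 * k))) * (s / N) := by
    field_simp
  have e5 : 4 * (Fintype.card α : ℝ) + X3 / ((k : ℝ) ^ 2 * (s : ℝ) ^ 2) +
      X4 / ((k : ℝ) ^ 2 * (s : ℝ) ^ 3) = (4 * (Fintype.card α * (N / s)) +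
      (X3 * (N / (s ^ 3 * k ^ 2)) + X4 * (N / (s ^ 4 * k ^ 2)))) * (s / N) := by
    field_simp
    ring
  rw [e4, e5]
  exact mul_le_mul_of_nonneg_right hfin (by positivity)

end Pool.Agent.Lib.MP_004b1b_co.DL
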