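import Pool.Agent.Lib.MP_004b1b_co.DL.CS

/-!
# Weighted form of the core inequality, counting

The arc `t` gets `w t.1` copies `(t, i)`, `i < w t.1`.
-/

set_option autoImplicit false

namespace Pool.Agent.Lib.MP_004b1b_co.DL

open Finset

/-- the copies of the arcs of `E` -/
noncomputable def wE (E : Finset Tr) (w : Pt → ℕ) : Finset (Tr × ℕ) := by
  classical exact E.biUnion (fun t => (range (w t.1)).image (fun i => (t, i)))

theorem mem_wE {E : Finset Tr} {w : Pt → ℕ} {x : Tr × ℕ} : x ∈ wE E w ↔ x.1 ∈ E ∧ x.2 < w x.1.1 := by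
  classical
  unfold wE
  rw [mem_biUnion]
  constructor
  · rintro ⟨t, ht, hx⟩
    obtain ⟨i, hi, rfl⟩ := mem_image.1 hx
    exact ⟨ht, mem_range.1 hi⟩
  · rintro ⟨h1, h2⟩
    exact ⟨x.1, h1, mem_image.2 ⟨x.2, mem_range.2 h2, rfl⟩⟩

theorem card_wE_le (F : Finset Tr) (w : Pt → ℕ) (T : Finset (Tr × ℕ))
    (hT : ∀ x ∈ T, x.1 ∈ F ∧ x.2 < w x.1.1) : T.card ≤ ∑ t ∈ F, w t.1 := by
  classical
  have h1 : T.card ≤ (F.sigma (fun t : Tr => range (w t.1))).card := by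
    refine card_le_card_of_injOn (fun x => (⟨x.1, x.2⟩ : Σ _ : Tr, ℕ)) ?_ ?_
    · intro x hx
      have := hT x hx
      exact mem_coe.2 (mem_sigma.2 ⟨this.1, mem_range.2 this.2⟩)
    · intro x _ y _ hxy
      have h1 : x.1 = y.1 := congrArg Sigma.fst hxy
      have h2 : x.2 = y.2 := congrArg (fun z : (Σ _ : Tr, ℕ) => z.2) hxy
      exact Prod.ext h1 h2
  rw [card_sigma] at h1
  simpa using h1

theorem card_wE (E : Finset Tr) (w : Pt → ℕ) : (wE E w).card = ∑ t ∈ E, w t.1 := by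
  classical
  refine le_antisymm (card_wE_le E w _ fun x hx => mem_wE.1 hx) ?_
  have h1 : (E.sigma (fun t : Tr => range (w t.1))).card ≤ (wE E w).card := by
    refine card_le_card_of_injOn (fun x : (Σ _ : Tr, ℕ) => (x.1, x.2)) ?_ ?_
    · intro x hx
      have := mem_sigma.1 (mem_coe.1 hx)
      exact mem_coe.2 (mem_wE.2 ⟨this.1, mem_range.1 this.2⟩)
    · rintro ⟨a, b⟩ _ ⟨c, d⟩ _ hxy
      have h1 : a = c := congrArg Prod.fst hxy
      have h2 : b = d := congrArg Prod.snd hxy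
      subst h1
      subst h2
      rfl
  rw [card_sigma] at h1
  simpa using h1

theorem card_pair_le (W : Finset (Tr × Tr)) (w : Pt → ℕ) (T : Finset ((Tr × ℕ) × (Tr × ℕ)))
    (hT : ∀ x ∈ T, (x.1.1, x.2.1) ∈ W ∧ x.1.2 < w x.1.1.1 ∧ x.2.2 < w x.2.1.1) :
    T.card ≤ ∑ y ∈ W, w y.1.1 * w y.2.1 := by
  classical
  have h1 : T.card ≤ (W.sigma (fun y : Tr × Tr => range (w y.1.1) ×ˢ range (w y.2.1))).card := by
    refine card_le_card_of_injOn
      (fun x => (⟨(x.1.1, x.2.1), (x.1.2, x.2.2)⟩ : Σ _ : Tr × Tr, ℕ × ℕ)) ?_ ?_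
    · intro x hx
      have := hT x hx
      exact mem_coe.2 (mem_sigma.2 ⟨this.1, mem_product.2 ⟨mem_range.2 this.2.1, mem_range.2 this.2.2⟩⟩)
    · intro x _ y _ hxy
      have h1 : (x.1.1, x.2.1) = (y.1.1, y.2.1) := congrArg Sigma.fst hxy
      have h2 : (x.1.2, x.2.2) = (y.1.2, y.2.2) := congrArg (fun z : (Σ _ : Tr × Tr, ℕ × ℕ) => z.2) hxy
      have a1 : x.1.1 = y.1.1 := congrArg (fun z : Tr × Tr => z.1) h1
      have a2 : x.2.1 = y.2.1 := congrArg (fun z : Tr × Tr => z.2) h1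
      have a3 : x.1.2 = y.1.2 := congrArg (fun z : ℕ × ℕ => z.1) h2
      have a4 : x.2.2 = y.2.2 := congrArg (fun z : ℕ × ℕ => z.2) h2
      exact Prod.ext (Prod.ext a1 a3) (Prod.ext a2 a4)
  rw [card_sigma] at h1
  simpa using h1

theorem sum_pair_le (Q : Finset Pt) (w : Pt → ℕ) (W : Finset (Tr × Tr)) (B : ℕ)
    (hW : ∀ x ∈ W, x.1.1 ∈ Q ∧ x.2.1 ∈ Q)
    (hB : ∀ q ∈ Q, ∀ q' ∈ Q, ∀ W' ⊆ W, (∀ x ∈ W', x.1.1 = q ∧ x.2.1 = q') → W'.card ≤ B) :
    ∑ y ∈ W, w y.1.1 * w y.2.1 ≤ B * (∑ q ∈ Q, w q) ^ 2 := by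
  classical
  rw [← sum_fiberwise_of_maps_to (s := W) (t := Q ×ˢ Q) (g := fun x => (x.1.1, x.2.1))
    (fun x hx => mem_product.2 (hW x hx))]
  have h1 : ∀ z ∈ Q ×ˢ Q, ∑ y ∈ W with (y.1.1, y.2.1) = z, w y.1.1 * w y.2.1 ≤ B * (w z.1 * w z.2) := by
    intro z hz
    have hz' := mem_product.1 hz
    have hc : (W.filter (fun y => (y.1.1, y.2.1) = z)).card ≤ B := by
      refine hB z.1 hz'.1 z.2 hz'.2 _ (filter_subset _ _) ?_
      intro x hx
      have h2 := (mem_filter.1 hx).2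
      exact ⟨congrArg Prod.fst h2, congrArg Prod.snd h2⟩
    calc ∑ y ∈ W with (y.1.1, y.2.1) = z, w y.1.1 * w y.2.1
        = ∑ y ∈ W with (y.1.1, y.2.1) = z, w z.1 * w z.2 := by
          refine sum_congr rfl ?_
          intro x hx
          have h2 := (mem_filter.1 hx).2
          have h3 : x.1.1 = z.1 := congrArg Prod.fst h2
          have h4 : x.2.1 = z.2 := congrArg Prod.snd h2
          rw [h3, h4]
      _ = (W.filter (fun y => (y.1.1, y.2.1) = z)).card * (w z.1 * w z.2) := by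
          rw [sum_const, smul_eq_mul]
      _ ≤ B * (w z.1 * w z.2) := Nat.mul_le_mul_right _ hc
  calc ∑ z ∈ Q ×ˢ Q, ∑ y ∈ W with (y.1.1, y.2.1) = z, w y.1.1 * w y.2.1
      ≤ ∑ z ∈ Q ×ˢ Q, B * (w z.1 * w z.2) := sum_le_sum h1
    _ = B * (∑ q ∈ Q, w q) ^ 2 := by
        rw [← mul_sum, sum_product, sq, sum_mul_sum]

end Pool.Agent.Lib.MP_004b1b_co.DL
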