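import Pool.Agent.Lib.MP_004b1b_co.DL.WS
import Pool.Agent.Lib.MP_004b1b_co.DL.RL

/-!
# A line with large weight
-/

set_option autoImplicit false

namespace Pool.Agent.Lib.MP_004b1b_co.DL

open Finset

private theorem wcore_arith (m n D k s e : ℝ) (hm : 0 < m) (hn : 0 ≤ n) (hD : 0 ≤ D) (hk : 1 ≤ k)
    (hs1 : 1 ≤ s) (hsu : 32 * k * s ≤ m) (hsl : m ≤ 64 * k * s) (he : m * n ≤ 4 * e)
    (key : e / (k * s) ≤ 4 * n + 16 * (m ^ 2 * D) / (k ^ 2 * s ^ 2) + 8 * (m * D) ^ 2 / (k ^ 2 * s ^ 3)) :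
    4 * n * m ≤ 65536 * D * m + 2097152 * k * D ^ 2 := by
  have hk0 : 0 < k := by linarith
  have hs0 : 0 < s := by linarith
  have h1 : 8 * n ≤ e / (k * s) := by
    rw [le_div_iff₀ (mul_pos hk0 hs0)]
    have : 32 * k * s * n ≤ m * n := mul_le_mul_of_nonneg_right hsu hn
    nlinarith
  have h2 : 16 * (m ^ 2 * D) / (k ^ 2 * s ^ 2) ≤ 65536 * D := by
    rw [div_le_iff₀ (by positivity)]
    have h3 : m ^ 2 ≤ (64 * k * s) ^ 2 := pow_le_pow_left₀ hm.le hsl 2
    have h4 : m ^ 2 * D ≤ (64 * k * s) ^ 2 * D := mul_le_mul_of_nonneg_right h3 hD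
    nlinarith
  have h3 : 8 * (m * D) ^ 2 / (k ^ 2 * s ^ 3) * m ≤ 2097152 * k * D ^ 2 := by
    rw [div_mul_eq_mul_div, div_le_iff₀ (by positivity)]
    have h4 : m ^ 3 ≤ (64 * k * s) ^ 3 := pow_le_pow_left₀ hm.le hsl 3
    have h5 : m ^ 3 * D ^ 2 ≤ (64 * k * s) ^ 3 * D ^ 2 := mul_le_mul_of_nonneg_right h4 (sq_nonneg D)
    have h6 : 8 * (m * D) ^ 2 * m = 8 * (m ^ 3 * D ^ 2) := by ring
    have h7 : 2097152 * k * D ^ 2 * (k ^ 2 * s ^ 3) = 8 * ((64 * k * s) ^ 3 * D ^ 2) := by ring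
    rw [h6, h7]
    linarith
  have h4 : 4 * n ≤ 65536 * D + 8 * (m * D) ^ 2 / (k ^ 2 * s ^ 3) := by linarith
  have h5 : 4 * n * m ≤ (65536 * D + 8 * (m * D) ^ 2 / (k ^ 2 * s ^ 3)) * m :=
    mul_le_mul_of_nonneg_right h4 hm.le
  calc 4 * n * m ≤ (65536 * D + 8 * (m * D) ^ 2 / (k ^ 2 * s ^ 3)) * m := h5
    _ = 65536 * D * m + 8 * (m * D) ^ 2 / (k ^ 2 * s ^ 3) * m := by ring
    _ ≤ _ := by linarith

theorem wcore (P : Finset Pt) (hn : 2 ≤ P.card) (D : ℕ)
    (hD : ∀ q ∈ P, (pin P q).card ≤ D) (w : Pt → ℕ)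
    (E : Finset Tr) (hE : E ⊆ arcs P P) (k : ℕ) (hk : 1 ≤ k) (hw : ∀ q ∈ P, w q ≤ k)
    (hmul : ∀ (a b : Pt) (F : Finset Tr), F ⊆ E → (∀ t ∈ F, t.2.1 = a ∧ t.2.2 = b) →
      ∑ t ∈ F, w t.1 ≤ k)
    (he : (∑ q ∈ P, w q) * P.card ≤ 4 * ∑ t ∈ E, w t.1) :
    (∑ q ∈ P, w q) * P.card ≤ 1073741824 * k * D ^ 2 := by
  obtain ⟨hD1, hnD⟩ := tri P hn D hD
  obtain ⟨m, hm⟩ : ∃ m, m = ∑ q ∈ P, w q := ⟨_, rfl⟩
  have hmk : m ≤ P.card * k := by
    rw [hm, ← smul_eq_mul]
    exact Finset.sum_le_card_nsmul _ _ _ hw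
  rcases lt_or_ge m (32 * k) with hlt | hge
  · rw [← hm]
    calc m * P.card ≤ (32 * k) * (4 * D ^ 2) := Nat.mul_le_mul hlt.le hnD
      _ = 128 * (k * D ^ 2) := by ring
      _ ≤ 1073741824 * (k * D ^ 2) := Nat.mul_le_mul_right _ (by norm_num)
      _ = 1073741824 * k * D ^ 2 := by ring
  rcases le_or_gt P.card (32768 * D) with hnD2 | hnD2
  · rw [← hm]
    calc m * P.card ≤ (P.card * k) * P.card := Nat.mul_le_mul_right _ hmk
      _ ≤ ((32768 * D) * k) * (32768 * D) := Nat.mul_le_mul (Nat.mul_le_mul_right _ hnD2) hnD2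
      _ = 1073741824 * k * D ^ 2 := by ring
  have hk32 : 0 < 32 * k := by omega
  obtain ⟨s, hs⟩ : ∃ s, s = m / (32 * k) := ⟨_, rfl⟩
  have hs1 : 1 ≤ s := by
    rw [hs]
    exact (Nat.one_le_div_iff hk32).2 hge
  have hsu : 32 * k * s ≤ m := by
    rw [hs]
    exact Nat.mul_div_le _ _
  have hsl : m ≤ 64 * k * s := by
    have h1 : m < 32 * k * (s + 1) := by
      rw [hs]
      exact Nat.lt_mul_div_succ _ hk32
    have h2 : 32 * k * (s + 1) ≤ 32 * k * (2 * s) := Nat.mul_le_mul_left _ (by omega)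
    have h3 : 32 * k * (2 * s) = 64 * k * s := by ring
    omega
  have key := wcore_samp P P D hD w E hE k s hk hs1 hmul
  rw [← hm] at key he ⊢
  have hm0 : (0 : ℝ) < m := by
    have : 0 < m := by omega
    exact_mod_cast this
  have hfin := wcore_arith (m : ℝ) P.card D k s ((∑ t ∈ E, w t.1 : ℕ) : ℝ) hm0 (by positivity)
    (by positivity) (by exact_mod_cast hk) (by exact_mod_cast hs1) (by exact_mod_cast hsu)
    (by exact_mod_cast hsl) (by exact_mod_cast he) key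
  have hfin2 : 4 * P.card * m ≤ 65536 * D * m + 2097152 * k * D ^ 2 := by exact_mod_cast hfin
  have h5 : 65536 * D * m ≤ 2 * P.card * m := Nat.mul_le_mul_right _ (by omega)
  have h6 : 2 * P.card * m ≤ 2097152 * k * D ^ 2 := by
    have h7 : 4 * P.card * m = 2 * P.card * m + 2 * P.card * m := by ring
    omega
  have h8 : 2 * P.card * m = 2 * (m * P.card) := by ring
  have h9 : 2097152 * k * D ^ 2 = 2097152 * (k * D ^ 2) := by ring
  have h10 : 1073741824 * k * D ^ 2 = 1073741824 * (k * D ^ 2) := by ring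
  rw [h8, h9] at h6
  rw [h10]
  omega

/-- if every line has weight at most `k` -/
theorem wrich (P : Finset Pt) (hn : 2 ≤ P.card) (D : ℕ)
    (hD : ∀ q ∈ P, (pin P q).card ≤ D) (w : Pt → ℕ) (k : ℕ) (hk : 1 ≤ k)
    (h : ∀ L, Ln L → ∀ F ⊆ P, (∀ z ∈ F, z ∈ L) → ∑ z ∈ F, w z ≤ k) :
    (∑ q ∈ P, w q) * P.card ≤ 1073741824 * k * D ^ 2 := by
  classical
  have hw : ∀ q ∈ P, w q ≤ k := by
    intro q hq
    have h1 := h (ln 1 0 q.1) ⟨1, 0, q.1, Or.inl one_ne_zero, rfl⟩ {q} (by simpa using hq)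
      (fun z hz => by
        rw [Finset.mem_singleton] at hz
        rw [hz]
        simp [ln])
    simpa using h1
  rcases le_or_gt (8 * D) P.card with h8 | h8
  · refine wcore P hn D hD w (arcs P P) (Finset.Subset.refl _) k hk hw ?_ ?_
    · intro a b F hF hFab
      rcases F.eq_empty_or_nonempty with hF0 | ⟨t0, ht0⟩
      · rw [hF0]; simp
      have hne : a ≠ b := by
        have h1 := (arc_bis (hF ht0)).2.1
        rw [(hFab t0 ht0).1, (hFab t0 ht0).2] at h1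
        exact h1
      have hinj : Set.InjOn (fun t : Tr => t.1) F := by
        intro s hs t ht hst
        have h1 := hFab s hs
        have h2 := hFab t ht
        refine Prod.ext hst (Prod.ext ?_ ?_)
        · rw [h1.1, h2.1]
        · rw [h1.2, h2.2]
      have hsum : ∑ z ∈ F.image (fun t : Tr => t.1), w z = ∑ t ∈ F, w t.1 :=
        Finset.sum_image (fun s hs t ht hst => hinj hs ht hst)
      rw [← hsum]
      refine h (bis a b) (bis_ln hne) _ ?_ ?_
      · intro z hz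
        obtain ⟨t, ht, rfl⟩ := Finset.mem_image.1 hz
        exact (arc_bis (hF ht)).1
      · intro z hz
        obtain ⟨t, ht, rfl⟩ := Finset.mem_image.1 hz
        have h1 := (arc_bis (hF ht)).2.2
        rw [(hFab t ht).1, (hFab t ht).2] at h1
        exact h1
    · -- weights of the arcs
      have hfib : ∑ t ∈ arcs P P, w t.1 = ∑ q ∈ P, ∑ t ∈ arcs P P with t.1 = q, w t.1 :=
        (Finset.sum_fiberwise_of_maps_to (fun t ht => (arc_bis ht).1) _).symm
      rw [hfib, Finset.mul_sum, Finset.sum_mul]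
      refine Finset.sum_le_sum ?_
      intro q hq
      have h1 : ∑ t ∈ arcs P P with t.1 = q, w t.1 = (((arcs P P).filter (fun t => t.1 = q)).card) * w q := by
        rw [Finset.sum_congr rfl (fun t ht => by rw [(Finset.mem_filter.1 ht).2] : ∀ t ∈
          (arcs P P).filter (fun t => t.1 = q), w t.1 = w q), Finset.sum_const, smul_eq_mul]
      have h2 : (arcs P {q}).card ≤ ((arcs P P).filter (fun t => t.1 = q)).card := by
        refine Finset.card_le_card ?_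
        intro t ht
        have h3 := Finset.mem_singleton.1 (arc_bis ht).1
        refine Finset.mem_filter.2 ⟨?_, h3⟩
        unfold arcs at ht ⊢
        rw [Finset.mem_filter, Finset.mem_product] at ht ⊢
        exact ⟨⟨by rw [h3]; exact hq, ht.1.2⟩, ht.2⟩
      have h3 := narc P q D (hD q hq)
      have h4 : P.card ≤ 4 * ((arcs P P).filter (fun t => t.1 = q)).card := by omega
      rw [h1]
      calc w q * P.card ≤ w q * (4 * ((arcs P P).filter (fun t => t.1 = q)).card) :=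
            Nat.mul_le_mul_left _ h4
        _ = 4 * (((arcs P P).filter (fun t => t.1 = q)).card * w q) := by ring
  · have hmk : (∑ q ∈ P, w q) ≤ P.card * k := by
      rw [← smul_eq_mul]
      exact Finset.sum_le_card_nsmul _ _ _ hw
    calc (∑ q ∈ P, w q) * P.card ≤ (P.card * k) * P.card := Nat.mul_le_mul_right _ hmk
      _ ≤ ((8 * D) * k) * (8 * D) := Nat.mul_le_mul (Nat.mul_le_mul_right _ h8.le) h8.le
      _ = 64 * (k * D ^ 2) := by ring
      _ ≤ 1073741824 * (k * D ^ 2) := Nat.mul_le_mul_right _ (by norm_num)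
      _ = 1073741824 * k * D ^ 2 := by ring

end Pool.Agent.Lib.MP_004b1b_co.DL
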