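import Pool.Agent.Lib.MP_004b1b_co.DL.WC

/-!
# Weighted form of the core inequality: sampling
-/

set_option autoImplicit false

namespace Pool.Agent.Lib.MP_004b1b_co.DL

open Finset

/-- two arcs over the same pair of ends do not cross -/
private theorem ws_ends {P : Finset Pt} {s t : Tr} (hs : IsArc P s.1 s.2.1 s.2.2)
    (ht : IsArc P t.1 t.2.1 t.2.2) (h : Xr s t) (ha : s.2.1 = t.2.1) (hb : s.2.2 = t.2.2) :
    False := by
  have hq := Xr_ne hs ht h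
  obtain ⟨_, x, h1, h2, h3, h4, h5⟩ := h
  have i1 := (af_in hs h1 h2).1
  have i2 := (af_in ht h3 h4).1
  rw [← h5, ← ha] at i2
  have d1 : dsq s.1 s.2.1 = dsq s.1 s.2.2 := hs.2.2.1
  have d2 : dsq t.1 s.2.1 = dsq t.1 s.2.2 := by
    rw [ha, hb]
    exact ht.2.2.1
  have hab : s.2.1.1 < s.2.2.1 := hs.2.2.2.2.1
  rcases circ2 hq i1 i2 with e | ⟨e1, e2⟩
  · rw [← e] at h1
    exact lt_irrefl _ h1
  rcases circ2 hq (i1.trans d1) (i2.trans d2) with e | ⟨e3, e4⟩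
  · rw [← e] at h2
    exact lt_irrefl _ h2
  rcases circ2 hq d1 d2 with e | ⟨e5, e6⟩
  · rw [e] at hab
    exact lt_irrefl _ hab
  apply e2
  linarith

private theorem ws_arc {P Q : Finset Pt} {t : Tr} (h : t ∈ arcs P Q) :
    t.1 ∈ Q ∧ IsArc P t.1 t.2.1 t.2.2 := by
  classical
  unfold arcs at h
  rw [Finset.mem_filter, Finset.mem_product] at h
  exact ⟨h.1.1, h.2⟩

private theorem ws_sub {P Q R : Finset Pt} {t : Tr} (h : t ∈ arcs P Q) (hR : t.1 ∈ R) :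
    t ∈ arcs P R := by
  classical
  unfold arcs at h ⊢
  rw [Finset.mem_filter, Finset.mem_product] at h ⊢
  exact ⟨⟨hR, h.1.2⟩, h.2⟩

theorem wcore_samp (P Q : Finset Pt) (D : ℕ) (hD : ∀ q ∈ Q, (pin P q).card ≤ D) (w : Pt → ℕ)
    (E : Finset Tr) (hE : E ⊆ arcs P Q) (k s : ℕ) (hk : 1 ≤ k) (hs : 1 ≤ s)
    (hmul : ∀ (a b : Pt) (F : Finset Tr), F ⊆ E → (∀ t ∈ F, t.2.1 = a ∧ t.2.2 = b) →
      ∑ t ∈ F, w t.1 ≤ k) :
    ((∑ t ∈ E, w t.1 : ℕ) : ℝ) / (k * s) ≤ 4 * P.card +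
      16 * (((∑ q ∈ Q, w q : ℕ) : ℝ) ^ 2 * D) / ((k : ℝ) ^ 2 * (s : ℝ) ^ 2) +
      8 * (((∑ q ∈ Q, w q : ℕ) : ℝ) * D) ^ 2 / ((k : ℝ) ^ 2 * (s : ℝ) ^ 3) := by
  classical
  have harc : ∀ t ∈ E, IsArc P t.1 t.2.1 t.2.2 := fun t ht => (ws_arc (hE ht)).2
  have hcen : ∀ t ∈ E, t.1 ∈ Q := fun t ht => (ws_arc (hE ht)).1
  have hmE : ∀ t : wE E w, t.1.1 ∈ E := fun t => (mem_wE.1 t.2).1
  have hl : ∀ t : wE E w, t.1.1.2.1 ∈ P := fun t => (harc t.1.1 (hmE t)).1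
  have hr : ∀ t : wE E w, t.1.1.2.2 ∈ P := fun t => (harc t.1.1 (hmE t)).2.1
  -- crossing pairs of arcs
  let W3 : Finset (Tr × Tr) := (E ×ˢ E).filter (fun x => Xr x.1 x.2 ∧ Sh x.1 x.2)
  let W4 : Finset (Tr × Tr) := (E ×ˢ E).filter (fun x => Xr x.1 x.2)
  have hpair : ∀ q ∈ Q, ∀ q' ∈ Q, ∀ W' : Finset (Tr × Tr), W' ⊆ E ×ˢ E →
      (∀ x ∈ W', x.1.1 = q ∧ x.2.1 = q') →
      (E.filter (fun t => t.1 = q ∨ t.1 = q')) ⊆ arcs P {q, q'} ∧
        W' ⊆ (E.filter (fun t => t.1 = q ∨ t.1 = q')) ×ˢ (E.filter (fun t => t.1 = q ∨ t.1 = q')) ∧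
        ({q, q'} : Finset Pt).card ≤ 2 ∧ ∀ z ∈ ({q, q'} : Finset Pt), (pin P z).card ≤ D := by
    intro q hq q' hq' W' hW' hc
    refine ⟨?_, ?_, card_le_two, ?_⟩
    · intro t ht
      obtain ⟨h1, h2⟩ := mem_filter.1 ht
      refine ws_sub (hE h1) ?_
      rw [mem_insert, mem_singleton]
      exact h2
    · intro x hx
      obtain ⟨h1, h2⟩ := mem_product.1 (hW' hx)
      obtain ⟨h3, h4⟩ := hc x hx
      exact mem_product.2 ⟨mem_filter.2 ⟨h1, Or.inl h3⟩, mem_filter.2 ⟨h2, Or.inr h4⟩⟩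
    · intro z hz
      rw [mem_insert, mem_singleton] at hz
      rcases hz with rfl | rfl
      · exact hD _ hq
      · exact hD _ hq'
  have hW3 : ∑ y ∈ W3, w y.1.1 * w y.2.1 ≤ (16 * D) * (∑ q ∈ Q, w q) ^ 2 := by
    refine sum_pair_le Q w W3 (16 * D) ?_ ?_
    · intro x hx
      obtain ⟨h1, -⟩ := mem_filter.1 hx
      obtain ⟨h2, h3⟩ := mem_product.1 h1
      exact ⟨hcen _ h2, hcen _ h3⟩
    · intro q hq q' hq' W' hW' hc
      obtain ⟨a1, a2, a3, a4⟩ := hpair q hq q' hq' W' (hW'.trans (filter_subset _ _)) hc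
      have h1 := cross3 P {q, q'} D a4 _ a1 W' a2 (fun x hx => (mem_filter.1 (hW' hx)).2)
      calc W'.card ≤ 4 * (({q, q'} : Finset Pt).card ^ 2 * D) := h1
        _ ≤ 4 * (2 ^ 2 * D) := by gcongr
        _ = 16 * D := by ring
  have hW4 : ∑ y ∈ W4, w y.1.1 * w y.2.1 ≤ (8 * D ^ 2) * (∑ q ∈ Q, w q) ^ 2 := by
    refine sum_pair_le Q w W4 (8 * D ^ 2) ?_ ?_
    · intro x hx
      obtain ⟨h1, -⟩ := mem_filter.1 hx
      obtain ⟨h2, h3⟩ := mem_product.1 h1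
      exact ⟨hcen _ h2, hcen _ h3⟩
    · intro q hq q' hq' W' hW' hc
      obtain ⟨a1, a2, a3, a4⟩ := hpair q hq q' hq' W' (hW'.trans (filter_subset _ _)) hc
      have h1 := cross4 P {q, q'} D a4 _ a1 W' a2 (fun x hx => (mem_filter.1 (hW' hx)).2)
      calc W'.card ≤ 2 * (({q, q'} : Finset Pt).card * D) ^ 2 := h1
        _ ≤ 2 * (2 * D) ^ 2 := by gcongr
        _ = 8 * D ^ 2 := by ring
  have hT : ∀ x : wE E w × wE E w, x.1.1.2 < w x.1.1.1.1 ∧ x.2.1.2 < w x.2.1.1.1 :=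
    fun x => ⟨(mem_wE.1 x.1.2).2, (mem_wE.1 x.2.2).2⟩
  have key := samp (α := P) (ι := wE E w) (fun t => ⟨t.1.1.2.1, hl t⟩) (fun t => ⟨t.1.1.2.2, hr t⟩)
    (fun t h => by
      have h1 := (harc t.1.1 (hmE t)).2.2.2.2.1
      have h2 : t.1.1.2.1 = t.1.1.2.2 := congrArg Subtype.val h
      rw [h2] at h1
      exact lt_irrefl _ h1) k s hk hs
    (fun a b => by
      have h1 := card_wE_le (E.filter (fun t => t.2.1 = a.1 ∧ t.2.2 = b.1)) w
        ((univ.filter (fun i : wE E w => (⟨i.1.1.2.1, hl i⟩ : P) = a ∧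
          (⟨i.1.1.2.2, hr i⟩ : P) = b)).map (Function.Embedding.subtype _)) (fun x hx => by
          rw [mem_map] at hx
          obtain ⟨u, hu, rfl⟩ := hx
          rw [mem_filter] at hu
          refine ⟨mem_filter.2 ⟨hmE u, congrArg Subtype.val hu.2.1, congrArg Subtype.val hu.2.2⟩,
            (mem_wE.1 u.2).2⟩)
      rw [card_map] at h1
      exact h1.trans (hmul a.1 b.1 _ (filter_subset _ _) (fun t ht => (mem_filter.1 ht).2)))
    (fun i j => Xr i.1.1 j.1.1)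
    (fun i j hij => by
      refine ⟨fun h => ws_ends (harc i.1.1 (hmE i)) (harc j.1.1 (hmE j)) hij
        (congrArg Subtype.val h.1) (congrArg Subtype.val h.2), fun h => ?_⟩
      have h1 := (harc i.1.1 (hmE i)).2.2.2.2.1
      have h2 := (harc j.1.1 (hmE j)).2.2.2.2.1
      have h3 : i.1.1.2.1 = j.1.1.2.2 := congrArg Subtype.val h.1
      have h4 : i.1.1.2.2 = j.1.1.2.1 := congrArg Subtype.val h.2
      rw [h3, h4] at h1
      exact lt_irrefl _ (h1.trans h2))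
    (fun V B hV hB => by
      have hinj : Set.InjOn (fun i : wE E w => i.1.1) B := by
        intro i hi j hj hij
        have hij' : i.1.1 = j.1.1 := hij
        have e1 : i.1.1.2.1 = j.1.1.2.1 := congrArg (fun t : Tr => t.2.1) hij'
        have e2 : i.1.1.2.2 = j.1.1.2.2 := congrArg (fun t : Tr => t.2.2) hij'
        exact hB i hi j hj (Subtype.ext e1) (Subtype.ext e2)
      have h1 := px P Q (V.map (Function.Embedding.subtype _))
        (fun v hv => by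
          rw [mem_map] at hv
          obtain ⟨u, _, rfl⟩ := hv
          exact u.2)
        (B.image (fun i : wE E w => i.1.1)) (fun t ht => by
          obtain ⟨i, _, rfl⟩ := mem_image.1 ht
          exact hE (hmE i))
        (fun t ht => by
          obtain ⟨u, hu, rfl⟩ := mem_image.1 ht
          obtain ⟨h1, h2⟩ := hV u hu
          exact ⟨mem_map.2 ⟨_, h1, rfl⟩, mem_map.2 ⟨_, h2, rfl⟩⟩)
        (fun s' hs' t' ht' e1 e2 => by
          obtain ⟨u, hu, rfl⟩ := mem_image.1 hs'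
          obtain ⟨v, hv, rfl⟩ := mem_image.1 ht'
          rw [hB u hu v hv (Subtype.ext e1) (Subtype.ext e2)])
        (((B ×ˢ B).filter (fun x : wE E w × wE E w => Xr x.1.1.1 x.2.1.1)).image
          (fun x => (x.1.1.1, x.2.1.1)))
        (fun s' hs' t' ht' hx => by
          obtain ⟨u, hu, rfl⟩ := mem_image.1 hs'
          obtain ⟨v, hv, rfl⟩ := mem_image.1 ht'
          exact mem_image.2 ⟨(u, v), mem_filter.2 ⟨mem_product.2 ⟨hu, hv⟩, hx⟩, rfl⟩)
      rw [card_map, card_image_of_injOn hinj] at h1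
      exact h1.trans (Nat.add_le_add_left card_image_le _))
    ((16 * D) * (∑ q ∈ Q, w q) ^ 2) ((8 * D ^ 2) * (∑ q ∈ Q, w q) ^ 2)
    (by
      have h1 := card_pair_le W3 w
        ((univ.filter (fun x : wE E w × wE E w => Xr x.1.1.1 x.2.1.1 ∧
          ((⟨x.1.1.1.2.1, hl x.1⟩ : P) = ⟨x.2.1.1.2.1, hl x.2⟩ ∨
            (⟨x.1.1.1.2.1, hl x.1⟩ : P) = ⟨x.2.1.1.2.2, hr x.2⟩ ∨
            (⟨x.1.1.1.2.2, hr x.1⟩ : P) = ⟨x.2.1.1.2.1, hl x.2⟩ ∨
            (⟨x.1.1.1.2.2, hr x.1⟩ : P) = ⟨x.2.1.1.2.2, hr x.2⟩))).map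
          ((Function.Embedding.subtype _).prodMap (Function.Embedding.subtype _)))
        (fun y hy => by
          rw [mem_map] at hy
          obtain ⟨u, hu, rfl⟩ := hy
          rw [mem_filter] at hu
          refine ⟨mem_filter.2 ⟨mem_product.2 ⟨hmE u.1, hmE u.2⟩, hu.2.1, ?_⟩, hT u⟩
          rcases hu.2.2 with h | h | h | h
          · exact Or.inl (congrArg Subtype.val h)
          · exact Or.inr (Or.inl (congrArg Subtype.val h))
          · exact Or.inr (Or.inr (Or.inl (congrArg Subtype.val h)))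
          · exact Or.inr (Or.inr (Or.inr (congrArg Subtype.val h))))
      rw [card_map] at h1
      exact h1.trans hW3)
    (by
      have h1 := card_pair_le W4 w
        ((univ.filter (fun x : wE E w × wE E w => Xr x.1.1.1 x.2.1.1)).map
          ((Function.Embedding.subtype _).prodMap (Function.Embedding.subtype _)))
        (fun y hy => by
          rw [mem_map] at hy
          obtain ⟨u, hu, rfl⟩ := hy
          rw [mem_filter] at hu
          exact ⟨mem_filter.2 ⟨mem_product.2 ⟨hmE u.1, hmE u.2⟩, hu.2⟩, hT u⟩)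
      rw [card_map] at h1
      exact h1.trans hW4)
  rw [Fintype.card_coe, Fintype.card_coe, card_wE] at key
  have e3 : (((16 * D) * (∑ q ∈ Q, w q) ^ 2 : ℕ) : ℝ) = 16 * (((∑ q ∈ Q, w q : ℕ) : ℝ) ^ 2 * D) := by
    push_cast
    ring
  have e4 : (((8 * D ^ 2) * (∑ q ∈ Q, w q) ^ 2 : ℕ) : ℝ) = 8 * (((∑ q ∈ Q, w q : ℕ) : ℝ) * D) ^ 2 := by
    push_cast
    ring
  rw [e3, e4] at key
  exact key

end Pool.Agent.Lib.MP_004b1b_co.DL
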